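import Pool.Agent.H12.AE.T2B

/-!
# `Equi` is `EB` for the whole interval
-/

set_option autoImplicit false

namespace Pool.Agent.H12.AE

open Pool.Agent.H12.DM Pool.Agent.H96.AE

/-- `Equi` is `EB` for the whole interval -/
lemma EB_of_Equi {x : ℝ} {H : ℕ} {δ : ℝ} (h : Equi x H δ) : EB x H (Finset.Icc 1 (H : ℤ)) δ := by
  intro D hD
  have h0 : ∀ d ∈ D, 0 ≤ d := fun d hd => by
    have := (Finset.mem_Icc.1 (hD hd)).1
    omega
  have h1 : D.image Int.toNat ⊆ Finset.Icc 1 H := by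
    intro d hd
    rw [Finset.mem_image] at hd
    obtain ⟨e, he, rfl⟩ := hd
    have := Finset.mem_Icc.1 (hD he)
    rw [Finset.mem_Icc]
    omega
  refine le_trans (le_of_eq ?_) (h _ h1)
  refine Finset.sum_congr rfl fun n _ => ?_
  rw [EB_card D h0 (fun d : ℤ => Pool.Agent.H6.MF.isP ((n : ℤ) - d)),
    EB_card D h0 (fun d : ℤ => Int.gcd ((n : ℤ) - d) (Pool.Agent.H17.WW (Pool.Agent.H17.yy x) : ℤ) = 1)]

end Pool.Agent.H12.AE
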