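import Pool.Agent.H12.AE.T2B

/-!
# MP_1039f5_nt: the Hardy-Littlewood conjecture for almost all tuples, from one set of shifts

`cnt x C`, `sing C` (`Pool/Agent/H6/MF/Defs.lean`): the number of `0 ≤ n ≤ x` with `n - c` prime for all `c ∈ C`, and
the singular series of `C`. `AAk`: `Pool/Agent/H96/AE/AAd.lean`. `UB`: `Pool/Agent/H12/AE/T2Ba.lean`. `EB`:
`Pool/Agent/H12/AE/T2B.lean`. `MeanTriples`: `Pool/Agent/H12/DM/Bj.lean`. `pm`, `LocFour`: `Pool/Agent/H12/DM/Bl.lean`.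
`WW (yy x)`: the product of the primes `≤ ⌊log log x / 100⌋₊`; `wp (yy x) = W / φ(W)`.
-/

set_option autoImplicit false

namespace Pool.Agent.H12.AE

open Pool.Agent.H12.DM Pool.Agent.H96.AE

/-- `Equi` is `EB` for the whole interval -/
lemma EB_of_Equi {x : ℝ} {H : ℕ} {δ : ℝ} (h : Equi x H δ) : EB x H (Finset.Icc 1 (H : ℤ)) δ := by
  intro D hD
  have h0 : ∀ d ∈ D, 0 ≤ d := fun d hd => by
    have := (Finset.mem_Icc.1 (hD hd)).1
    omega
  have h1 : D.image Int.toNat ⊆ Finset.Icc 1 H := by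
    intro d hd
    rw [Finset.mem_image] at hd
    obtain ⟨e, he, rfl⟩ := hd
    have := Finset.mem_Icc.1 (hD he)
    rw [Finset.mem_Icc]
    omega
  refine le_trans (le_of_eq ?_) (h _ h1)
  refine Finset.sum_congr rfl fun n _ => ?_
  rw [EB_card D h0 (fun d : ℤ => Pool.Agent.H6.MF.isP ((n : ℤ) - d)),
    EB_card D h0 (fun d : ℤ => Int.gcd ((n : ℤ) - d) (Pool.Agent.H17.WW (Pool.Agent.H17.yy x) : ℤ) = 1)]

/-- For `j, k ≥ 2`, `β > 0` and scales `K log x ≤ H₁ ≤ H₂ ≤ (log x)^2`: let `B` be ANY subset of `[1,H₁]` of density at least `β`.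
If the Hardy-Littlewood upper bound holds for almost all `j`-element subsets of `B`, or the primes are equidistributed in almost
all windows along every pattern `D ⊆ B`, or the primes satisfy local Fourier uniformity at the scale `H₁`, or the
Hardy-Littlewood asymptotics for triples hold in the mean over product sets at the scale `H₁`, then the Hardy-Littlewood
asymptotics hold for almost all `k`-tuples `{0} ∪ D`, `D ⊆ [1,H₂]`, the primes are equidistributed in almost all windows along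
every pattern `D ⊆ [1,H₂]`, and local Fourier uniformity holds at the scale `H₂`. -/
theorem result : ∀ j k : ℕ, 2 ≤ j → 2 ≤ k → ∀ ε β : ℝ, 0 < ε → 0 < β → ∃ δ K X : ℝ, 0 < δ ∧ ∀ x : ℝ, X ≤ x →
    ∀ H₁ H₂ : ℕ, K * Real.log x ≤ (H₁ : ℝ) → H₁ ≤ H₂ → (H₂ : ℝ) ≤ (Real.log x) ^ 2 →
    ∀ B : Finset ℤ, B ⊆ Finset.Icc 1 (H₁ : ℤ) → β * (H₁ : ℝ) ≤ (B.card : ℝ) →
    (UB j x H₁ B δ ∨ EB x H₁ B δ ∨ LocFour x H₁ δ ∨ MeanTriples x H₁ δ) →
    AAk k x H₂ ε ∧ EB x H₂ (Finset.Icc 1 (H₂ : ℤ)) ε ∧ LocFour x H₂ ε := by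
  intro j k hj hk ε β hε hβ
  obtain ⟨δ, K, X, hδ, -, h⟩ := T2B j k hj hk ε β hε hβ
  refine ⟨δ, K, X, hδ, fun x hx H₁ H₂ h1 h2 h3 B hB hBβ hA => ?_⟩
  obtain ⟨e1, e2, e3⟩ := h x hx H₁ H₂ h1 h2 h3 B hB hBβ hA
  exact ⟨e1, EB_of_Equi e2, e3⟩

end Pool.Agent.H12.AE
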