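import Pool.Agent.H12.AE.T2V

/-!
# MP_1039f5_nt: the Hardy-Littlewood conjecture for almost all tuples, from one sparse set of shifts

`cnt x C`, `sing C` (`Pool/Agent/H6/MF/Defs.lean`): the number of `0 ≤ n ≤ x` with `n - c` prime for all `c ∈ C`, and
the singular series of `C`. `AAk`: `Pool/Agent/H96/AE/AAd.lean`. `UB`: `Pool/Agent/H12/AE/T2Ba.lean`. `EB`:
`Pool/Agent/H12/AE/T2B.lean`. `rho`, `Regular`: `Pool/Agent/H12/AE/T2V.lean`. `MeanTriples`: `Pool/Agent/H12/DM/Bj.lean`.
`pm`, `LocFour`: `Pool/Agent/H12/DM/Bl.lean`. `WW (yy x)`: the product of the primes `≤ ⌊log log x / 100⌋₊`;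
`wp (yy x) = W / φ(W)`.
-/

set_option autoImplicit false

namespace Pool.Agent.H12.AE2

open Pool.Agent.H12.DM Pool.Agent.H12.AE Pool.Agent.H96.AE

/-- Let `j, k ≥ 2`, `M > 0` and `H ≤ (log x)^2`. Suppose that
(a) there is ONE set `B ⊆ [1,H]` of at least `K log x` shifts which is regular (dense in some interval, or with bounded mean of a
power of `|h|/φ(|h|)` over its differences `h`) such that the Hardy-Littlewood UPPER bound holds for almost all `j`-element subsets
of `B`; or (b) there is one set `B ⊆ [1,H]` of at least `K log x` shifts such that the primes are equidistributed in almost all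
windows along every pattern `D ⊆ B`; or (c) the primes satisfy local Fourier uniformity at some scale between `K log x` and `H`; or
(d) the Hardy-Littlewood asymptotics for triples hold in the mean over product sets at such a scale. Then the Hardy-Littlewood
asymptotics hold for almost all `k`-tuples `{0} ∪ D`, `D ⊆ [1,H]`, the primes are equidistributed in almost all windows along every
pattern `D ⊆ [1,H]`, and local Fourier uniformity holds at the scale `H`. -/
theorem result : ∀ j k : ℕ, 2 ≤ j → 2 ≤ k → ∀ ε M : ℝ, 0 < ε → 0 < M → ∃ δ K X : ℝ, 0 < δ ∧ ∀ x : ℝ, X ≤ x →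
    ∀ H : ℕ, (H : ℝ) ≤ (Real.log x) ^ 2 →
    ((∃ B : Finset ℤ, B ⊆ Finset.Icc 1 (H : ℤ) ∧ K * Real.log x ≤ (B.card : ℝ) ∧
        (Regular j M B ∧ UB j x B.card B δ ∨ EB x B.card B δ)) ∨
      (∃ H₁ : ℕ, K * Real.log x ≤ (H₁ : ℝ) ∧ H₁ ≤ H ∧ (LocFour x H₁ δ ∨ MeanTriples x H₁ δ))) →
    AAk k x H ε ∧ EB x H (Finset.Icc 1 (H : ℤ)) ε ∧ LocFour x H ε :=
  fun j k hj hk ε M hε hM => T2V j k hj hk ε M hε hM

end Pool.Agent.H12.AE2
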