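import Pool.Agent.H96.AE.Df
import Pool.Agent.H12.DM.Bh

/-!
# T2M: correlations of the model `Mi`
-/

set_option autoImplicit false

namespace Pool.Agent.H12.AE

open Finset Pool.Agent.H17 Pool.Agent.H6.MF Pool.Agent.H6.MB Pool.Agent.H12.DM Pool.Agent.H6.AE Pool.Agent.H96.AE

private lemma T2M_prod (y : ℕ) (D : Finset ℤ) (m : ℤ) :
    0 ≤ ∏ d ∈ D, Mm y (m - d) ∧ ∏ d ∈ D, Mm y (m - d) ≤ wp y ^ D.card := by
  refine ⟨Finset.prod_nonneg fun d _ => Mm_nonneg _ _, ?_⟩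
  have h := Finset.prod_le_prod (s := D) (f := fun d => Mm y (m - d)) (g := fun _ => wp y)
    (fun d _ => Mm_nonneg _ _) (fun d _ => Mm_le _ _)
  rwa [Finset.prod_const] at h

/-- the correlations of `Mi` -/
theorem Mi_corrm (x : ℝ) (H : ℕ) (D : Finset ℤ) (hD : D ⊆ Finset.Icc 1 (H : ℤ)) :
    |cf x (Mi x) D - ((⌊x⌋₊ : ℝ) + 1) * sW x (insert 0 D)|
      ≤ ((WW (yy x) : ℝ) + (H : ℝ)) * (wp (yy x)) ^ (D.card + 1) := by
  have h0D : (0 : ℤ) ∉ D := by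
    intro h
    have := hD h
    rw [Finset.mem_Icc] at this
    omega
  obtain ⟨g, hg⟩ : ∃ g : ℤ → ℝ, ∀ m, g m = Mm (yy x) m * ∏ d ∈ D, Mm (yy x) (m - d) := ⟨_, fun _ => rfl⟩
  have hg0 : ∀ m, 0 ≤ g m := fun m => by
    rw [hg]
    exact mul_nonneg (Mm_nonneg _ _) (T2M_prod _ _ _).1
  have hg1 : ∀ m, g m ≤ wp (yy x) ^ (D.card + 1) := by
    intro m
    rw [hg, pow_succ, mul_comm]
    exact mul_le_mul (T2M_prod _ _ _).2 (Mm_le _ _) (Mm_nonneg _ _) (pow_nonneg (wp_pos _).le _)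
  have hgp : ∀ m, g (m + (WW (yy x) : ℕ)) = g m := by
    intro m
    rw [hg, hg, Bb_Mper]
    congr 1
    refine Finset.prod_congr rfl fun d _ => ?_
    rw [show m + ((WW (yy x) : ℕ) : ℤ) - d = (m - d) + ((WW (yy x) : ℕ) : ℤ) by ring, Bb_Mper]
  have hsW : sW x (insert 0 D) = (∑ i ∈ Finset.range (WW (yy x)), g (i : ℤ)) / (WW (yy x) : ℝ) := by
    unfold sW avgP
    congr 1
    refine Finset.sum_congr rfl fun i _ => ?_
    rw [hg]
    change ∏ h ∈ insert 0 D, Mm (yy x) ((i : ℤ) - h) = _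
    rw [Finset.prod_insert h0D, sub_zero]
  have hsW1 : sW x (insert 0 D) ≤ wp (yy x) ^ (D.card + 1) := by
    rw [hsW, div_le_iff₀ (WW_pos_real _)]
    refine (Finset.sum_le_card_nsmul _ _ _ fun i _ => hg1 _).trans ?_
    rw [Finset.card_range, nsmul_eq_mul, mul_comm]
  have hfull : |∑ n ∈ Finset.range (⌊x⌋₊ + 1), g (n : ℤ) - ((⌊x⌋₊ : ℝ) + 1) * sW x (insert 0 D)|
      ≤ (WW (yy x) : ℝ) * wp (yy x) ^ (D.card + 1) := by
    rw [Bb_range g (⌊x⌋₊ + 1)]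
    obtain ⟨h1, h2⟩ := Bb_bounds g (WW (yy x)) (WW_pos _) hgp hg0
      (u := -1) (v := ((⌊x⌋₊ + 1 : ℕ) : ℤ) - 1) (by push_cast; have := Int.natCast_nonneg ⌊x⌋₊; linarith)
    rw [← hsW] at h1 h2
    push_cast at h1 h2 ⊢
    have h3 : (WW (yy x) : ℝ) * sW x (insert 0 D) ≤ (WW (yy x) : ℝ) * wp (yy x) ^ (D.card + 1) :=
      mul_le_mul_of_nonneg_left hsW1 (WW_pos_real _).le
    rw [abs_le]
    constructor <;> nlinarith
  have hdiff : |cf x (Mi x) D - ∑ n ∈ Finset.range (⌊x⌋₊ + 1), g (n : ℤ)| ≤ (H : ℝ) * wp (yy x) ^ (D.card + 1) := by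
    unfold cf
    rw [← Finset.sum_sub_distrib]
    refine (Finset.abs_sum_le_sum_abs _ _).trans ?_
    have e1 : ∀ n ∈ Finset.range (⌊x⌋₊ + 1), |Mi x (n : ℤ) * ∏ d ∈ D, Mi x ((n : ℤ) - d) - g (n : ℤ)| ≤
        if (n : ℤ) < H then wp (yy x) ^ (D.card + 1) else 0 := by
      intro n hn
      rw [Finset.mem_range] at hn
      split_ifs with h
      · have h1 : 0 ≤ ∏ d ∈ D, Mi x ((n : ℤ) - d) := Finset.prod_nonneg fun d _ => Mi_nonneg _ _
        have h2 : ∏ d ∈ D, Mi x ((n : ℤ) - d) ≤ ∏ d ∈ D, Mm (yy x) ((n : ℤ) - d) :=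
          Finset.prod_le_prod (fun d _ => Mi_nonneg _ _) (fun d _ => Mi_le _ _)
        have h3 : Mi x (n : ℤ) * ∏ d ∈ D, Mi x ((n : ℤ) - d) ≤ g (n : ℤ) := by
          rw [hg]
          exact mul_le_mul (Mi_le _ _) h2 h1 (Mm_nonneg _ _)
        have h4 : 0 ≤ Mi x (n : ℤ) * ∏ d ∈ D, Mi x ((n : ℤ) - d) := mul_nonneg (Mi_nonneg _ _) h1
        have h5 := hg1 (n : ℤ)
        rw [abs_le]
        constructor <;> linarith
      · have h1 : Mi x (n : ℤ) * ∏ d ∈ D, Mi x ((n : ℤ) - d) = g (n : ℤ) := by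
          rw [hg, Mi_of_mem (by omega) (by exact_mod_cast hn)]
          congr 1
          refine Finset.prod_congr rfl fun d hd => ?_
          have := hD hd
          rw [Finset.mem_Icc] at this
          exact Mi_of_mem (by omega) (by push_cast; omega)
        rw [h1, sub_self, abs_zero]
    refine (Finset.sum_le_sum e1).trans ?_
    rw [← Finset.sum_filter, Finset.sum_const, nsmul_eq_mul]
    refine mul_le_mul_of_nonneg_right ?_ (pow_nonneg (wp_pos _).le _)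
    have hsub : (Finset.range (⌊x⌋₊ + 1)).filter (fun n : ℕ => (n : ℤ) < H) ⊆ Finset.range H := by
      intro n hn
      rw [Finset.mem_filter] at hn
      rw [Finset.mem_range]
      have := hn.2
      omega
    have hcard := Finset.card_le_card hsub
    rw [Finset.card_range] at hcard
    exact_mod_cast hcard
  have h5 := abs_add_le (cf x (Mi x) D - ∑ n ∈ Finset.range (⌊x⌋₊ + 1), g (n : ℤ))
    (∑ n ∈ Finset.range (⌊x⌋₊ + 1), g (n : ℤ) - ((⌊x⌋₊ : ℝ) + 1) * sW x (insert 0 D))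
  rw [sub_add_sub_cancel] at h5
  refine h5.trans ((add_le_add hdiff hfull).trans (le_of_eq ?_))
  ring

end Pool.Agent.H12.AE
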