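import Pool.Agent.H96.AE.LL
import Pool.Agent.H96.AE.CNT
import Pool.Agent.H96.AE.AAd
import Pool.Agent.H6.AE.Sgm
import Pool.Agent.H12.AE.T2M

/-!
# T2F: small windows imply the Hardy-Littlewood asymptotics for almost all `k`-tuples
-/

set_option autoImplicit false

namespace Pool.Agent.H12.AE

open Finset Pool.Agent.H17 Pool.Agent.H6.MF Pool.Agent.H6.MB Pool.Agent.H12.DM Pool.Agent.H6.AE Pool.Agent.H96.AE

lemma T2F_log (n : ℕ) (ε : ℝ) (hε : 0 < ε) : ∃ X : ℝ, ∀ x : ℝ, X ≤ x → (Real.log x) ^ n ≤ ε * x := by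
  have h := (Real.isLittleO_pow_log_id_atTop (n := n)).def hε
  rw [Filter.eventually_atTop] at h
  obtain ⟨X, hX⟩ := h
  refine ⟨max X 1, fun x hx => ?_⟩
  have h1 := hX x ((le_max_left _ _).trans hx)
  have h2 : (1 : ℝ) ≤ x := (le_max_right _ _).trans hx
  rw [Real.norm_eq_abs, Real.norm_eq_abs] at h1
  simp only [id] at h1
  rw [abs_of_nonneg (by linarith : (0 : ℝ) ≤ x)] at h1
  exact (le_abs_self _).trans h1

lemma T2F_SpLa {x : ℝ} (hx : 1 ≤ x) : Sp x (La x) := fun _ h => La_out (by linarith) h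

lemma T2F_SpMi (x : ℝ) : Sp x (Mi x) := by
  intro n h
  unfold Mi
  rw [if_neg]
  rintro ⟨h1, h2⟩
  rcases h with h | h <;> omega

lemma T2F_BLa {x : ℝ} (hx : 1 ≤ x) (y : ℕ) (n : ℤ) : |La x n| ≤ Bm y x n := by
  rw [abs_of_nonneg (La_nonneg hx n)]
  unfold Bm
  have h1 := Mm_nonneg (yy x) n
  have h2 := Mm_nonneg y n
  linarith

lemma T2F_BMi {x : ℝ} (hx : 1 ≤ x) (y : ℕ) (n : ℤ) : |Mi x n| ≤ Bm y x n := by
  rw [abs_of_nonneg (Mi_nonneg x n)]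
  unfold Bm
  have h0 := La_nonneg hx n
  have h1 := Mm_nonneg (yy x) n
  have h2 := Mm_nonneg y n
  have h3 := Mi_le x n
  linarith

lemma T2F_card (k : ℕ) (H : ℕ) : ((Finset.powersetCard k (Finset.Icc 1 (H : ℤ))).card : ℝ) ≤ (H : ℝ) ^ k := by
  rw [Finset.card_powersetCard, Int.card_Icc]
  have h1 : ((H : ℤ) + 1 - 1).toNat = H := by omega
  rw [h1]
  exact_mod_cast Nat.choose_le_pow H k

theorem T2F (k : ℕ) (hk : 2 ≤ k) (ε : ℝ) (hε : 0 < ε) : ∃ δ K X : ℝ, 0 < δ ∧ 1 ≤ K ∧ ∀ x : ℝ, X ≤ x → ∀ H : ℕ,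
    K * Real.log x ≤ (H : ℝ) → (H : ℝ) ≤ (Real.log x) ^ 2 → Win x H δ (La x) (Mi x) → AAk k x H ε := by
  obtain ⟨j, rfl⟩ : ∃ j, k = j + 2 := ⟨k - 2, by omega⟩
  obtain ⟨y₀, δ, K, hδ, hK, hL1⟩ := L1 j (ε / 16) (by positivity)
  obtain ⟨X₁, hX₁⟩ := hL1 y₀ le_rfl
  obtain ⟨X₂, hX₂⟩ := CNT (j + 2) (ε / 16) (by positivity)
  obtain ⟨C, hC, hSg⟩ := Sgm (j + 1)
  obtain ⟨C', hC', X₃, hX₃⟩ := Sgm_sum (j + 1)
  -- the level
  obtain ⟨y₁, hy₁, hy₁C⟩ : ∃ y₁ : ℕ, 1 ≤ y₁ ∧ C / Real.sqrt (y₁ : ℝ) ≤ ε / 16 := by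
    refine ⟨⌈(16 * C / ε) ^ 2⌉₊ + 1, by omega, ?_⟩
    have h1 : (16 * C / ε) ^ 2 ≤ ((⌈(16 * C / ε) ^ 2⌉₊ + 1 : ℕ) : ℝ) := by
      push_cast
      linarith [Nat.le_ceil ((16 * C / ε) ^ 2)]
    have h2 : 16 * C / ε ≤ Real.sqrt ((⌈(16 * C / ε) ^ 2⌉₊ + 1 : ℕ) : ℝ) :=
      Real.le_sqrt_of_sq_le h1
    have h3 : 0 < 16 * C / ε := by positivity
    rw [div_le_iff₀ (h3.trans_le h2)]
    rw [div_le_iff₀ hε] at h2
    linarith
  obtain ⟨X₄, hX₄⟩ := hSg y₁ hy₁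
  obtain ⟨X₅, hX₅⟩ : ∃ X₅ : ℝ, ∀ x : ℝ, X₅ ≤ x → y₁ ≤ yy x := by
    have h := tendsto_yy.eventually_ge_atTop y₁
    rw [Filter.eventually_atTop] at h
    exact h
  obtain ⟨X₆, hX₆⟩ := T2F_log (j + 4) (ε / 32) (by positivity)
  refine ⟨δ, K, max (Real.exp 1) (max (16 * C' / ε) (max X₁ (max X₂ (max X₃ (max X₄ (max X₅ X₆)))))), hδ, hK, ?_⟩
  intro x hx H hH1 hH2 hW
  simp only [max_le_iff] at hx
  obtain ⟨he, hx0, hx1, hx2, hx3, hx4, hx5, hx6⟩ := hx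
  have hx1' : 1 ≤ x := by
    have h1 := Real.add_one_le_exp (1 : ℝ)
    linarith
  have hL : 1 ≤ Real.log x := by
    have h1 := Real.log_le_log (Real.exp_pos 1) he
    rwa [Real.log_exp] at h1
  have hL0 : 0 < Real.log x := by linarith
  have hH0 : (0 : ℝ) ≤ H := Nat.cast_nonneg H
  have hH1' : Real.log x ≤ (H : ℝ) := by nlinarith
  have hH4 : (H : ℝ) ≤ 4 * (Real.log x) ^ 2 := by nlinarith [sq_nonneg (Real.log x)]
  have hN1 : (⌊x⌋₊ : ℝ) ≤ x := Nat.floor_le (by linarith)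
  have hN2 : x < (⌊x⌋₊ : ℝ) + 1 := Nat.lt_floor_add_one x
  have hN3 : (⌊x⌋₊ : ℝ) + 1 ≤ 2 * x := by linarith
  -- the five errors
  have e1 := hX₁ x hx1 H hH1 hH2 (La x) (Mi x) (T2F_BLa hx1' y₀) (T2F_BMi hx1' y₀) (T2F_SpLa hx1') (T2F_SpMi x) hW
  have e4 := hX₄ x hx4 H hH1' hH4 (yy x) (hX₅ x hx5)
  have e5 := hX₃ x hx3 H hH1' hH4
  have hcard := T2F_card (j + 1) H
  have hmemD : ∀ D ∈ Finset.powersetCard (j + 1) (Finset.Icc 1 (H : ℤ)), D ⊆ Finset.Icc 1 (H : ℤ) ∧ D.card = j + 1 :=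
    fun D hD => Finset.mem_powersetCard.1 hD
  have e2 : ∀ D ∈ Finset.powersetCard (j + 1) (Finset.Icc 1 (H : ℤ)),
      |(Real.log x) ^ (j + 2) * (cnt x (insert 0 D) : ℝ) - cf x (La x) D| ≤ ε / 16 * x := by
    intro D hD
    obtain ⟨hD1, hD2⟩ := hmemD D hD
    have h1 := hX₂ x hx2 D (fun d hd => ?_) (by omega)
    · rw [hD2] at h1
      exact h1
    · have h2 := Finset.mem_Icc.1 (hD1 hd)
      refine ⟨h2.1, le_trans ?_ hH2⟩
      exact_mod_cast h2.2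
  have e3 : ∀ D ∈ Finset.powersetCard (j + 1) (Finset.Icc 1 (H : ℤ)),
      |cf x (Mi x) D - ((⌊x⌋₊ : ℝ) + 1) * sW x (insert 0 D)| ≤ ε / 16 * x := by
    intro D hD
    obtain ⟨hD1, hD2⟩ := hmemD D hD
    refine (Mi_corrm x H D hD1).trans ?_
    rw [hD2]
    obtain ⟨h1, -, h2⟩ := Bh_W hL
    have h3 : wp (yy x) ≤ Real.log x := (Bb_wp_le _).trans h2
    have h4 : wp (yy x) ^ (j + 1 + 1) ≤ (Real.log x) ^ (j + 1 + 1) := pow_le_pow_left₀ (wp_pos _).le h3 _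
    have h5 : (WW (yy x) : ℝ) + (H : ℝ) ≤ 2 * (Real.log x) ^ 2 := by nlinarith
    calc ((WW (yy x) : ℝ) + (H : ℝ)) * wp (yy x) ^ (j + 1 + 1)
        ≤ (2 * (Real.log x) ^ 2) * (Real.log x) ^ (j + 1 + 1) :=
          mul_le_mul h5 h4 (pow_nonneg (wp_pos _).le _) (by positivity)
      _ = 2 * (Real.log x) ^ (j + 4) := by ring
      _ ≤ 2 * (ε / 32 * x) := by linarith [hX₆ x hx6]
      _ = ε / 16 * x := by ring
  -- pointwise
  have hpt : ∀ D ∈ Finset.powersetCard (j + 1) (Finset.Icc 1 (H : ℤ)),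
      |(cnt x (insert 0 D) : ℝ) - sing (insert 0 D) * x / (Real.log x) ^ (j + 2)| ≤
        (1 / (Real.log x) ^ (j + 2)) * (ε / 16 * x + ε / 16 * x + |cf x (La x) D - cf x (Mi x) D| +
          2 * x * |Sy (yy x) (insert 0 D) - sing (insert 0 D)| + sing (insert 0 D)) := by
    intro D hD
    have hLk : 0 < (Real.log x) ^ (j + 2) := by positivity
    have hs0 : 0 ≤ sing (insert 0 D) := sing_nonneg _
    have h1 : (cnt x (insert 0 D) : ℝ) - sing (insert 0 D) * x / (Real.log x) ^ (j + 2) =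
        (1 / (Real.log x) ^ (j + 2)) * ((Real.log x) ^ (j + 2) * (cnt x (insert 0 D) : ℝ) - x * sing (insert 0 D)) := by
      field_simp
    rw [h1, abs_mul, abs_of_pos (by positivity : 0 < 1 / (Real.log x) ^ (j + 2))]
    refine mul_le_mul_of_nonneg_left ?_ (by positivity)
    have h2 := abs_le.1 (e2 D hD)
    have h3 := abs_le.1 (e3 D hD)
    have h4 := abs_le.1 (le_refl |cf x (La x) D - cf x (Mi x) D|)
    have h5 : |((⌊x⌋₊ : ℝ) + 1) * sW x (insert 0 D) - ((⌊x⌋₊ : ℝ) + 1) * sing (insert 0 D)| ≤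
        2 * x * |Sy (yy x) (insert 0 D) - sing (insert 0 D)| := by
      rw [sW_eq_Sy, ← mul_sub, abs_mul, abs_of_nonneg (by linarith : (0 : ℝ) ≤ (⌊x⌋₊ : ℝ) + 1)]
      exact mul_le_mul_of_nonneg_right hN3 (abs_nonneg _)
    have h6 := abs_le.1 h5
    have h7 : |((⌊x⌋₊ : ℝ) + 1) * sing (insert 0 D) - x * sing (insert 0 D)| ≤ sing (insert 0 D) := by
      rw [← sub_mul, abs_mul, abs_of_nonneg hs0]
      have : |(⌊x⌋₊ : ℝ) + 1 - x| ≤ 1 := by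
        rw [abs_le]
        constructor <;> linarith
      nlinarith
    have h8 := abs_le.1 h7
    rw [abs_le]
    constructor <;> linarith [h2.1, h2.2, h3.1, h3.2, h4.1, h4.2, h6.1, h6.2, h8.1, h8.2]
  unfold AAk
  rw [show j + 2 - 1 = j + 1 by omega]
  refine (Finset.sum_le_sum hpt).trans ?_
  rw [← Finset.mul_sum, Finset.sum_add_distrib, Finset.sum_add_distrib, Finset.sum_add_distrib, Finset.sum_const,
    nsmul_eq_mul, ← Finset.mul_sum]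
  have hx0' : (0 : ℝ) ≤ x := by linarith
  have hHk : (0 : ℝ) ≤ (H : ℝ) ^ (j + 1) := by positivity
  have f1 : ((Finset.powersetCard (j + 1) (Finset.Icc 1 (H : ℤ))).card : ℝ) * (ε / 16 * x + ε / 16 * x) ≤
      (H : ℝ) ^ (j + 1) * (ε / 8 * x) := by
    have : ε / 16 * x + ε / 16 * x = ε / 8 * x := by ring
    rw [this]
    exact mul_le_mul_of_nonneg_right hcard (by positivity)
  have f2 : ∑ D ∈ Finset.powersetCard (j + 1) (Finset.Icc 1 (H : ℤ)), |cf x (La x) D - cf x (Mi x) D| ≤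
      (H : ℝ) ^ (j + 1) * (ε / 8 * x) := by
    refine e1.trans ?_
    calc ε / 16 * ((⌊x⌋₊ : ℝ) + 1) * (H : ℝ) ^ (j + 1) ≤ ε / 16 * (2 * x) * (H : ℝ) ^ (j + 1) := by gcongr
      _ = (H : ℝ) ^ (j + 1) * (ε / 8 * x) := by ring
  have f3 : 2 * x * ∑ D ∈ Finset.powersetCard (j + 1) (Finset.Icc 1 (H : ℤ)),
      |Sy (yy x) (insert 0 D) - sing (insert 0 D)| ≤ (H : ℝ) ^ (j + 1) * (ε / 8 * x) := by
    calc 2 * x * ∑ D ∈ Finset.powersetCard (j + 1) (Finset.Icc 1 (H : ℤ)),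
      |Sy (yy x) (insert 0 D) - sing (insert 0 D)| ≤ 2 * x * (C / Real.sqrt (y₁ : ℝ) * (H : ℝ) ^ (j + 1)) := by gcongr
      _ ≤ 2 * x * (ε / 16 * (H : ℝ) ^ (j + 1)) := by gcongr
      _ = (H : ℝ) ^ (j + 1) * (ε / 8 * x) := by ring
  have f4 : ∑ D ∈ Finset.powersetCard (j + 1) (Finset.Icc 1 (H : ℤ)), sing (insert 0 D) ≤
      (H : ℝ) ^ (j + 1) * (ε / 16 * x) := by
    refine e5.trans ?_
    rw [mul_comm]
    refine mul_le_mul_of_nonneg_left ?_ hHk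
    rw [div_le_iff₀ hε] at hx0
    linarith
  have hLk : 0 < (Real.log x) ^ (j + 2) := by positivity
  calc 1 / (Real.log x) ^ (j + 2) * _ ≤ 1 / (Real.log x) ^ (j + 2) *
        ((H : ℝ) ^ (j + 1) * (ε / 8 * x) + (H : ℝ) ^ (j + 1) * (ε / 8 * x) + (H : ℝ) ^ (j + 1) * (ε / 8 * x) +
          (H : ℝ) ^ (j + 1) * (ε / 16 * x)) := by
        refine mul_le_mul_of_nonneg_left ?_ (by positivity)
        linarith
    _ = (7 / 16 * ε) * ((H : ℝ) ^ (j + 1) * x / (Real.log x) ^ (j + 2)) := by ring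
    _ ≤ ε * ((H : ℝ) ^ (j + 1) * x / (Real.log x) ^ (j + 2)) := by
        refine mul_le_mul_of_nonneg_right (by linarith) (by positivity)

end Pool.Agent.H12.AE
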