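import Pool.Agent.H96.AE.CV
import Pool.Agent.H12.AE.T2F
import Pool.Agent.H12.DM.Bo

/-!
# T2: the Hardy-Littlewood upper bound for almost all `j`-tuples at one scale implies the Hardy-Littlewood asymptotics for almost
all `k`-tuples at all larger scales (`MP_1039f5_AE`)
-/

set_option autoImplicit false

namespace Pool.Agent.H12.AE

open Finset Pool.Agent.H17 Pool.Agent.H6.MF Pool.Agent.H6.MB Pool.Agent.H12.DM Pool.Agent.H6.AE Pool.Agent.H96.AE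

theorem T2_mono_UA (k : ℕ) : Bk_Mono (UAk k) := by
  intro x hx H δ δ' h hA
  unfold UAk at hA ⊢
  refine hA.trans (mul_le_mul_of_nonneg_right h ?_)
  have := Real.log_nonneg hx
  positivity

/-- the three hypotheses imply small windows at the same scale -/
theorem T2_SW (j : ℕ) (hj : 2 ≤ j) : Bk_Imp (fun x H δ => UAk j x H δ ∨ Equi x H δ ∨ LocFour x H δ) Bk_SW := by
  refine Bm_or (T2_mono_UA j) (Bm_mono_or Bk_mono_Eq Bm_mono_LF) ?_ (Bm_or Bk_mono_Eq Bm_mono_LF Bk_Eq_SW (Bk_one Bl1))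
  obtain ⟨i, rfl⟩ : ∃ i, j = i + 2 := ⟨j - 2, by omega⟩
  intro ε hε
  obtain ⟨δ, K, X, hδ, -, h⟩ := CV i ε hε
  exact ⟨δ, K, X, hδ, fun x hx H hH1 hH2 hA => h x hx H hH1 hH2 hA⟩

/-- small windows imply all the conclusions at the same scale -/
theorem T2_out (k : ℕ) (hk : 2 ≤ k) : Bk_Imp Bk_SW (fun x H δ => AAk k x H δ ∧ Equi x H δ ∧ LocFour x H δ) := by
  refine Bk_and Bk_mono_SW ?_ (Bk_and Bk_mono_SW Bk_SW_Eq (Bk_one Bl2))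
  intro ε hε
  obtain ⟨δ, K, X, hδ, -, h⟩ := T2F k hk ε hε
  exact ⟨δ, K, X, hδ, fun x hx H hH1 hH2 hA => h x hx H hH1 hH2 (fun D hD => hA D hD)⟩

theorem T2 (j k : ℕ) (hj : 2 ≤ j) (hk : 2 ≤ k) (ε : ℝ) (hε : 0 < ε) : ∃ δ K X : ℝ, 0 < δ ∧ 1 ≤ K ∧ ∀ x : ℝ, X ≤ x →
    ∀ H₁ H₂ : ℕ, K * Real.log x ≤ (H₁ : ℝ) → H₁ ≤ H₂ → (H₂ : ℝ) ≤ (Real.log x) ^ 2 →
    (UAk j x H₁ δ ∨ Equi x H₁ δ ∨ LocFour x H₁ δ) → AAk k x H₂ ε ∧ Equi x H₂ ε ∧ LocFour x H₂ ε := by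
  obtain ⟨δa, Ka, Xa, hδa, ha⟩ := T2_out k hk ε hε
  obtain ⟨δb, Kb, Xb, hδb, hb⟩ := Bk_FL_SW δa hδa
  obtain ⟨δc, Kc, Xc, hδc, hc⟩ := Bk_trans (T2_SW j hj) Bk_SW_FL (δb / 2) (by positivity)
  refine ⟨δc, max 1 (max Ka (max Kb Kc)), max (Real.exp 1) (max Xa (max Xb Xc)), hδc, le_max_left _ _, ?_⟩
  intro x hx H₁ H₂ hH1 h12 hH2 hA
  simp only [max_le_iff] at hx
  have hx1 : 1 ≤ x := by
    have h1 := Real.add_one_le_exp (1 : ℝ)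
    linarith [hx.1]
  have hL1 : 1 ≤ Real.log x := by
    have h1 := Real.log_le_log (Real.exp_pos 1) hx.1
    rwa [Real.log_exp] at h1
  have h12' : (H₁ : ℝ) ≤ (H₂ : ℝ) := by exact_mod_cast h12
  have hK1 : 1 * Real.log x ≤ (H₁ : ℝ) := Bk_log hx1 (le_max_left _ _) hH1
  have hK' : max Ka (max Kb Kc) * Real.log x ≤ (H₁ : ℝ) := Bk_log hx1 (le_max_right _ _) hH1
  have hKa : Ka * Real.log x ≤ (H₁ : ℝ) := Bk_log hx1 (le_max_left _ _) hK'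
  have hK'' : max Kb Kc * Real.log x ≤ (H₁ : ℝ) := Bk_log hx1 (le_max_right _ _) hK'
  have hKb : Kb * Real.log x ≤ (H₁ : ℝ) := Bk_log hx1 (le_max_left _ _) hK''
  have hKc : Kc * Real.log x ≤ (H₁ : ℝ) := Bk_log hx1 (le_max_right _ _) hK''
  have hH11 : 1 ≤ H₁ := by
    have h1 : (1 : ℝ) ≤ (H₁ : ℝ) := by linarith
    exact_mod_cast h1
  have e1 := hc x hx.2.2.2 H₁ hKc (h12'.trans hH2) hA
  have e2 := Bn x hx1 H₁ H₂ hH11 h12 (δb / 2) e1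
  have e3 : Bk_FL x H₂ δb := by
    intro D hD
    have h1 := e2 D hD
    rwa [mul_div_cancel₀ δb (two_ne_zero)] at h1
  exact ha x hx.2.1 H₂ (hKa.trans h12') hH2 (hb x hx.2.2.1 H₂ (hKb.trans h12') hH2 e3)

end Pool.Agent.H12.AE
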