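import Pool.Agent.H96.AE.CV
import Pool.Agent.H12.AE.T2F

/-!
# T2Ba: the converse for one set of shifts

`CVB`: the Hardy-Littlewood upper bound for almost all `j`-element subsets of `B` gives small windows for all subsets of `B`
(`CVG`, `Pool/Agent/H96/AE/CV.lean`).
-/

set_option autoImplicit false

namespace Pool.Agent.H12.AE

open Finset Pool.Agent.H17 Pool.Agent.H6.MF Pool.Agent.H6.MB Pool.Agent.H12.DM Pool.Agent.H6.AE Pool.Agent.H96.AE

/-- the Hardy-Littlewood upper bound for almost all `j`-element subsets of `B` -/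
def UB (j : ℕ) (x : ℝ) (H : ℕ) (B : Finset ℤ) (δ : ℝ) : Prop :=
  ∑ C ∈ Finset.powersetCard j B, max 0 ((cnt x C : ℝ) - sing C * x / (Real.log x) ^ j)
    ≤ δ * ((H : ℝ) ^ j * x / (Real.log x) ^ j)

/-- the correlation of `La` is at most the number of the tuples, up to a small error -/
lemma UB_cnt {x : ℝ} (hx : 1 ≤ x) (H : ℕ) (C : Finset ℤ) :
    ∑ n ∈ rgH x H, ∏ c ∈ C, La x ((n : ℤ) - c) ≤ (Real.log x) ^ C.card * (cnt x C : ℝ) + (H : ℝ) * (Real.log x) ^ C.card := by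
  have hL0 : 0 ≤ Real.log x := Real.log_nonneg hx
  have hle : ∀ n : ℤ, ∏ c ∈ C, La x (n - c) ≤ (Real.log x) ^ C.card := by
    intro n
    have h := Finset.prod_le_prod (s := C) (f := fun c => La x (n - c)) (g := fun _ => Real.log x)
      (fun c _ => La_nonneg hx _) (fun c _ => La_le hx _)
    rwa [Finset.prod_const] at h
  unfold rgH
  rw [Finset.sum_range_add]
  refine add_le_add ?_ ?_
  · unfold cnt
    rw [Finset.card_filter, Nat.cast_sum, Finset.mul_sum]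
    refine Finset.sum_le_sum fun n _ => ?_
    split_ifs with h
    · simpa using hle n
    · rw [Nat.cast_zero, mul_zero]
      push Not at h
      obtain ⟨c, hc, hp⟩ := h
      refine le_of_eq (Finset.prod_eq_zero hc ?_)
      unfold La
      rw [if_neg (fun h' => hp h'.1)]
  · refine (Finset.sum_le_card_nsmul _ _ ((Real.log x) ^ C.card) fun n _ => ?_).trans ?_
    · exact hle _
    · rw [Finset.card_range, nsmul_eq_mul]

/-- `UB` gives the hypothesis of `CVG` for all subsets of `B` -/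
theorem UB_hyp (j : ℕ) (ε : ℝ) (hε : 0 < ε) : ∃ δ X : ℝ, 0 < δ ∧ ∀ x : ℝ, X ≤ x → ∀ H : ℕ,
    (H : ℝ) ≤ (Real.log x) ^ 2 → ∀ B : Finset ℤ, B ⊆ Finset.Icc 1 (H : ℤ) → UB j x H B δ → ∀ D : Finset ℤ, D ⊆ B →
    ∑ C ∈ Finset.powersetCard j D,
      max 0 (∑ n ∈ rgH x H, ∏ c ∈ C, La x ((n : ℤ) - c) - ((⌊x⌋₊ : ℝ) + 1) * sing C)
      ≤ ε * ((⌊x⌋₊ : ℝ) + 1) * (H : ℝ) ^ j := by
  obtain ⟨X, hX⟩ := T2F_log (j + 2) (ε / 2) (by positivity)
  refine ⟨ε / 2, max X 3, by positivity, fun x hx H hH B hB hU D hD => ?_⟩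
  have hx3 : 3 ≤ x := (le_max_right _ _).trans hx
  have hx1 : 1 ≤ x := by linarith
  have hx0 : 0 ≤ x := by linarith
  have hL0 : 0 < Real.log x := Real.log_pos (by linarith)
  have hLj : 0 < (Real.log x) ^ j := pow_pos hL0 _
  have hH0 : (0 : ℝ) ≤ H := Nat.cast_nonneg H
  have hN := (Nat.lt_floor_add_one x).le
  have hpt : ∀ C ∈ Finset.powersetCard j B,
      max 0 (∑ n ∈ rgH x H, ∏ c ∈ C, La x ((n : ℤ) - c) - ((⌊x⌋₊ : ℝ) + 1) * sing C) ≤
      (Real.log x) ^ j * max 0 ((cnt x C : ℝ) - sing C * x / (Real.log x) ^ j) + (H : ℝ) * (Real.log x) ^ j := by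
    intro C hC
    have hc := (Finset.mem_powersetCard.1 hC).2
    have h1 := UB_cnt hx1 H C
    rw [hc] at h1
    have h2 := le_max_right 0 ((cnt x C : ℝ) - sing C * x / (Real.log x) ^ j)
    have h3 := mul_le_mul_of_nonneg_left h2 hLj.le
    have h4 : (Real.log x) ^ j * ((cnt x C : ℝ) - sing C * x / (Real.log x) ^ j) =
        (Real.log x) ^ j * (cnt x C : ℝ) - sing C * x := by
      field_simp
    have h5 : sing C * x ≤ ((⌊x⌋₊ : ℝ) + 1) * sing C := by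
      rw [mul_comm]
      exact mul_le_mul_of_nonneg_right hN (sing_nonneg C)
    refine max_le ?_ ?_
    · have := le_max_left 0 ((cnt x C : ℝ) - sing C * x / (Real.log x) ^ j)
      positivity
    · rw [h4] at h3
      linarith
  have h1 : ∑ C ∈ Finset.powersetCard j D,
      max 0 (∑ n ∈ rgH x H, ∏ c ∈ C, La x ((n : ℤ) - c) - ((⌊x⌋₊ : ℝ) + 1) * sing C) ≤
      ∑ C ∈ Finset.powersetCard j B,
      max 0 (∑ n ∈ rgH x H, ∏ c ∈ C, La x ((n : ℤ) - c) - ((⌊x⌋₊ : ℝ) + 1) * sing C) :=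
    Finset.sum_le_sum_of_subset_of_nonneg (Finset.powersetCard_mono hD) fun _ _ _ => le_max_left _ _
  refine h1.trans ((Finset.sum_le_sum hpt).trans ?_)
  rw [Finset.sum_add_distrib, ← Finset.mul_sum, Finset.sum_const, nsmul_eq_mul]
  have h2 : (Real.log x) ^ j * ∑ C ∈ Finset.powersetCard j B,
      max 0 ((cnt x C : ℝ) - sing C * x / (Real.log x) ^ j) ≤ ε / 2 * (x * (H : ℝ) ^ j) := by
    have h3 := mul_le_mul_of_nonneg_left hU hLj.le
    refine h3.trans (le_of_eq ?_)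
    field_simp
  have h3 : ((Finset.powersetCard j B).card : ℝ) * ((H : ℝ) * (Real.log x) ^ j) ≤ ε / 2 * (x * (H : ℝ) ^ j) := by
    have h4 := CV_card_le hB j
    have h5 : (H : ℝ) * (Real.log x) ^ j ≤ ε / 2 * x := by
      calc (H : ℝ) * (Real.log x) ^ j ≤ (Real.log x) ^ 2 * (Real.log x) ^ j := mul_le_mul_of_nonneg_right hH hLj.le
        _ = (Real.log x) ^ (j + 2) := by ring
        _ ≤ ε / 2 * x := hX x ((le_max_left _ _).trans hx)
    calc ((Finset.powersetCard j B).card : ℝ) * ((H : ℝ) * (Real.log x) ^ j)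
        ≤ (H : ℝ) ^ j * (ε / 2 * x) := mul_le_mul h4 h5 (by positivity) (by positivity)
      _ = ε / 2 * (x * (H : ℝ) ^ j) := by ring
  have h4 : ε * (x * (H : ℝ) ^ j) ≤ ε * (((⌊x⌋₊ : ℝ) + 1) * (H : ℝ) ^ j) :=
    mul_le_mul_of_nonneg_left (mul_le_mul_of_nonneg_right hN (by positivity)) hε.le
  linarith

/-- the Hardy-Littlewood upper bound for almost all `j`-element subsets of `B` gives small windows for the subsets of `B` -/
theorem CVB (i : ℕ) (ε : ℝ) (hε : 0 < ε) : ∃ δ K X : ℝ, 0 < δ ∧ 1 ≤ K ∧ ∀ x : ℝ, X ≤ x → ∀ H : ℕ,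
    K * Real.log x ≤ (H : ℝ) → (H : ℝ) ≤ (Real.log x) ^ 2 → ∀ B : Finset ℤ, B ⊆ Finset.Icc 1 (H : ℤ) →
    UB (i + 2) x H B δ → ∀ D : Finset ℤ, D ⊆ B → SW x H ε D := by
  obtain ⟨δ₁, K, X₁, hδ₁, hK, h₁⟩ := CVG i ε hε
  obtain ⟨δ, X₂, hδ, h₂⟩ := UB_hyp (i + 2) δ₁ hδ₁
  refine ⟨δ, K, max X₁ X₂, hδ, hK, fun x hx H hH1 hH2 B hB hU D hD => ?_⟩
  exact h₁ x ((le_max_left _ _).trans hx) H hH1 hH2 D (hD.trans hB)
    (h₂ x ((le_max_right _ _).trans hx) H hH2 B hB hU D hD)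

end Pool.Agent.H12.AE
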