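import Pool.Agent.H12.DM.Bn

/-!
# T2Bb: averaging over translates of a dense set

`B ⊆ [1,H₁]`, `D ⊆ [1,H₂]`, `h` vanishes outside `[0,N)`. For `d ∈ D` there are exactly `|B|` integers `t ∈ T = [1 - H₁, H₂]` with `d - t ∈ B`. So
`|B| nf D h n = ∑_{t ∈ T} nf (D_t) h (n - t)`, `D_t = {b ∈ B : b + t ∈ D} ⊆ B`.
-/

set_option autoImplicit false

namespace Pool.Agent.H12.AE

open Finset Pool.Agent.H17 Pool.Agent.H6.MF Pool.Agent.H6.MB Pool.Agent.H12.DM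

/-- the part of `D` in `B + t`, translated to `B` -/
def Dt (B D : Finset ℤ) (t : ℤ) : Finset ℤ := B.filter (fun b => b + t ∈ D)

lemma Dt_sub (B D : Finset ℤ) (t : ℤ) : Dt B D t ⊆ B := Finset.filter_subset _ _

/-- translates, for every integer shift -/
lemma T2Bb_shift (G : ℤ → ℝ) (hG : ∀ n, 0 ≤ G n) (M R : ℕ) (t : ℤ) (h0 : ∀ n : ℤ, n < 0 ∨ (M : ℤ) ≤ n → G n = 0) :
    ∑ n ∈ Finset.range R, G ((n : ℤ) - t) ≤ ∑ n ∈ Finset.range M, G (n : ℤ) := by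
  classical
  have h1 : ∑ n ∈ Finset.range R, G ((n : ℤ) - t) =
      ∑ n ∈ (Finset.range R).filter (fun n : ℕ => t ≤ n ∧ (n : ℤ) < t + M), G ((n : ℤ) - t) := by
    symm
    apply Finset.sum_subset (Finset.filter_subset _ _)
    intro n hn hn'
    rw [Finset.mem_filter] at hn'
    apply h0
    by_contra hcon
    push Not at hcon
    exact hn' ⟨hn, by omega, by omega⟩
  have h2 : ∑ n ∈ (Finset.range R).filter (fun n : ℕ => t ≤ n ∧ (n : ℤ) < t + M), G ((n : ℤ) - t) =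
      ∑ n ∈ ((Finset.range R).filter (fun n : ℕ => t ≤ n ∧ (n : ℤ) < t + M)).image (fun n : ℕ => ((n : ℤ) - t).toNat),
        G (n : ℤ) := by
    rw [Finset.sum_image]
    · refine Finset.sum_congr rfl fun n hn => ?_
      rw [Finset.mem_filter] at hn
      congr 1
      omega
    · intro a ha b hb hab
      rw [Finset.mem_coe, Finset.mem_filter] at ha hb
      have hab' : ((a : ℤ) - t).toNat = ((b : ℤ) - t).toNat := hab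
      omega
  rw [h1, h2]
  refine Finset.sum_le_sum_of_subset_of_nonneg ?_ (fun n _ _ => hG n)
  intro n hn
  rw [Finset.mem_image] at hn
  obtain ⟨a, ha, rfl⟩ := hn
  rw [Finset.mem_filter] at ha
  rw [Finset.mem_range]
  omega

/-- the averaging identity -/
lemma T2Bb_id (H₁ H₂ : ℕ) (B D : Finset ℤ) (hB : B ⊆ Finset.Icc 1 (H₁ : ℤ)) (hD : D ⊆ Finset.Icc 1 (H₂ : ℤ))
    (h : ℤ → ℝ) (n : ℤ) :
    (B.card : ℝ) * nf D h n = ∑ t ∈ Finset.Icc (1 - (H₁ : ℤ)) (H₂ : ℤ), nf (Dt B D t) h (n - t) := by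
  classical
  have h1 : ∀ t ∈ Finset.Icc (1 - (H₁ : ℤ)) (H₂ : ℤ), nf (Dt B D t) h (n - t) =
      ∑ b ∈ B, if b + t ∈ D then h (n - t - b) else 0 := by
    intro t _
    unfold nf Dt
    rw [Finset.sum_filter]
  rw [Finset.sum_congr rfl h1, Finset.sum_comm]
  have h2 : ∀ b ∈ B, ∑ t ∈ Finset.Icc (1 - (H₁ : ℤ)) (H₂ : ℤ), (if b + t ∈ D then h (n - t - b) else 0) = nf D h n := by
    intro b hb
    have hb' := Finset.mem_Icc.1 (hB hb)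
    rw [← Finset.sum_filter]
    unfold nf
    refine Finset.sum_nbij' (fun t => b + t) (fun d => d - b) ?_ ?_ ?_ ?_ ?_
    · intro t ht
      exact (Finset.mem_filter.1 ht).2
    · intro d hd
      have hd' := Finset.mem_Icc.1 (hD hd)
      rw [Finset.mem_filter, Finset.mem_Icc]
      refine ⟨⟨by omega, by omega⟩, ?_⟩
      rw [show b + (d - b) = d by ring]
      exact hd
    · intro t _
      ring
    · intro d _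
      ring
    · intro t _
      congr 1
      ring
  rw [Finset.sum_congr rfl h2, Finset.sum_const, nsmul_eq_mul]

lemma T2Bb_out {N H₁ : ℕ} {D : Finset ℤ} (hD : D ⊆ Finset.Icc 1 (H₁ : ℤ)) {h : ℤ → ℝ}
    (h0 : ∀ n : ℤ, n < 0 ∨ (N : ℤ) ≤ n → h n = 0) {m : ℤ} (hm : m < 0 ∨ ((N + H₁ : ℕ) : ℤ) ≤ m) : nf D h m = 0 := by
  unfold nf
  refine Finset.sum_eq_zero fun d hd => h0 _ ?_
  have := Finset.mem_Icc.1 (hD hd)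
  push_cast at hm
  omega

lemma T2Bb_card (H₁ H₂ : ℕ) (h12 : H₁ ≤ H₂) :
    ((Finset.Icc (1 - (H₁ : ℤ)) (H₂ : ℤ)).card : ℝ) ≤ 2 * (H₂ : ℝ) := by
  rw [Int.card_Icc]
  have h1 : ((H₂ : ℤ) + 1 - (1 - (H₁ : ℤ))).toNat = H₂ + H₁ := by omega
  rw [h1]
  push_cast
  have : (H₁ : ℝ) ≤ (H₂ : ℝ) := by exact_mod_cast h12
  linarith

/-- averaging in `L²` -/
theorem T2Bb_SW (x : ℝ) (hx : 1 ≤ x) (H₁ H₂ : ℕ) (h1 : 1 ≤ H₁) (h12 : H₁ ≤ H₂) (δ β : ℝ) (hδ : 0 ≤ δ) (hβ : 0 < β)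
    (B : Finset ℤ) (hB : B ⊆ Finset.Icc 1 (H₁ : ℤ)) (hBβ : β * (H₁ : ℝ) ≤ (B.card : ℝ))
    (h : ∀ D : Finset ℤ, D ⊆ B → SW x H₁ δ D) :
    ∀ D : Finset ℤ, D ⊆ Finset.Icc 1 (H₂ : ℤ) → SW x H₂ (4 / β ^ 2 * δ) D := by
  intro D hD
  unfold SW
  have hN0 : (0 : ℝ) < (⌊x⌋₊ : ℝ) + 1 := by positivity
  have hH1 : (0 : ℝ) < (H₁ : ℝ) := by exact_mod_cast h1
  have hH2 : (0 : ℝ) ≤ (H₂ : ℝ) := Nat.cast_nonneg _
  have hB0 : 0 < (B.card : ℝ) := lt_of_lt_of_le (by positivity) hBβ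
  have e1 : ∀ n : ℕ, (B.card : ℝ) ^ 2 * (nf D (fB x) (n : ℤ)) ^ 2 ≤
      (2 * (H₂ : ℝ)) * ∑ t ∈ Finset.Icc (1 - (H₁ : ℤ)) (H₂ : ℤ), (nf (Dt B D t) (fB x) ((n : ℤ) - t)) ^ 2 := by
    intro n
    rw [← mul_pow, T2Bb_id H₁ H₂ B D hB hD (fB x) n]
    refine (sq_sum_le_card_mul_sum_sq).trans ?_
    exact mul_le_mul_of_nonneg_right (T2Bb_card H₁ H₂ h12) (Finset.sum_nonneg fun _ _ => sq_nonneg _)
  have e2 : (B.card : ℝ) ^ 2 * ∑ n ∈ rgH x H₂, (nf D (fB x) (n : ℤ)) ^ 2 ≤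
      (2 * (H₂ : ℝ)) * ∑ t ∈ Finset.Icc (1 - (H₁ : ℤ)) (H₂ : ℤ),
        ∑ n ∈ rgH x H₂, (nf (Dt B D t) (fB x) ((n : ℤ) - t)) ^ 2 := by
    rw [Finset.mul_sum, Finset.sum_comm, Finset.mul_sum]
    exact Finset.sum_le_sum fun n _ => e1 n
  have e3 : ∀ t ∈ Finset.Icc (1 - (H₁ : ℤ)) (H₂ : ℤ),
      ∑ n ∈ rgH x H₂, (nf (Dt B D t) (fB x) ((n : ℤ) - t)) ^ 2 ≤ δ * ((⌊x⌋₊ : ℝ) + 1) * (H₁ : ℝ) ^ 2 := by
    intro t _
    refine le_trans ?_ (h (Dt B D t) (Dt_sub B D t))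
    unfold rgH
    refine T2Bb_shift (fun m => (nf (Dt B D t) (fB x) m) ^ 2) (fun m => sq_nonneg _) (⌊x⌋₊ + 1 + H₁) _ t ?_
    intro m hm
    have := T2Bb_out ((Dt_sub B D t).trans hB) (fun n hn => fB_out (by linarith) hn) hm
    show (nf (Dt B D t) (fB x) m) ^ 2 = 0
    rw [this]
    norm_num
  have e4 := (Finset.sum_le_card_nsmul _ _ _ e3)
  rw [nsmul_eq_mul] at e4
  have e5 : (B.card : ℝ) ^ 2 * ∑ n ∈ rgH x H₂, (nf D (fB x) (n : ℤ)) ^ 2 ≤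
      (2 * (H₂ : ℝ)) * ((2 * (H₂ : ℝ)) * (δ * ((⌊x⌋₊ : ℝ) + 1) * (H₁ : ℝ) ^ 2)) := by
    refine e2.trans (mul_le_mul_of_nonneg_left (e4.trans ?_) (by positivity))
    exact mul_le_mul_of_nonneg_right (T2Bb_card H₁ H₂ h12) (by positivity)
  have e6 : (β * (H₁ : ℝ)) ^ 2 * ∑ n ∈ rgH x H₂, (nf D (fB x) (n : ℤ)) ^ 2 ≤
      (B.card : ℝ) ^ 2 * ∑ n ∈ rgH x H₂, (nf D (fB x) (n : ℤ)) ^ 2 :=
    mul_le_mul_of_nonneg_right (pow_le_pow_left₀ (by positivity) hBβ 2) (Finset.sum_nonneg fun _ _ => sq_nonneg _)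
  have e7 := e6.trans e5
  have e8 : (2 * (H₂ : ℝ)) * ((2 * (H₂ : ℝ)) * (δ * ((⌊x⌋₊ : ℝ) + 1) * (H₁ : ℝ) ^ 2)) =
      (β * (H₁ : ℝ)) ^ 2 * (4 / β ^ 2 * δ * ((⌊x⌋₊ : ℝ) + 1) * (H₂ : ℝ) ^ 2) := by
    field_simp
    ring
  rw [e8] at e7
  exact le_of_mul_le_mul_left e7 (by positivity)

/-- averaging in `L¹` -/
theorem T2Bb_FL (x : ℝ) (hx : 1 ≤ x) (H₁ H₂ : ℕ) (h1 : 1 ≤ H₁) (h12 : H₁ ≤ H₂) (δ β : ℝ) (hδ : 0 ≤ δ) (hβ : 0 < β)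
    (B : Finset ℤ) (hB : B ⊆ Finset.Icc 1 (H₁ : ℤ)) (hBβ : β * (H₁ : ℝ) ≤ (B.card : ℝ))
    (h : ∀ D : Finset ℤ, D ⊆ B → FL x H₁ δ D) :
    ∀ D : Finset ℤ, D ⊆ Finset.Icc 1 (H₂ : ℤ) → FL x H₂ (2 / β * δ) D := by
  intro D hD
  unfold FL
  have hN0 : (0 : ℝ) < (⌊x⌋₊ : ℝ) + 1 := by positivity
  have hH1 : (0 : ℝ) < (H₁ : ℝ) := by exact_mod_cast h1
  have hH2 : (0 : ℝ) ≤ (H₂ : ℝ) := Nat.cast_nonneg _
  have hB0 : 0 < (B.card : ℝ) := lt_of_lt_of_le (by positivity) hBβ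
  have e1 : ∀ n : ℕ, (B.card : ℝ) * |nf D (fB x) (n : ℤ)| ≤
      ∑ t ∈ Finset.Icc (1 - (H₁ : ℤ)) (H₂ : ℤ), |nf (Dt B D t) (fB x) ((n : ℤ) - t)| := by
    intro n
    have e0 : (B.card : ℝ) * |nf D (fB x) (n : ℤ)| = |(B.card : ℝ) * nf D (fB x) (n : ℤ)| := by
      rw [abs_mul, abs_of_pos hB0]
    rw [e0, T2Bb_id H₁ H₂ B D hB hD (fB x) n]
    exact Finset.abs_sum_le_sum_abs _ _
  have e2 : (B.card : ℝ) * ∑ n ∈ rgH x H₂, |nf D (fB x) (n : ℤ)| ≤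
      ∑ t ∈ Finset.Icc (1 - (H₁ : ℤ)) (H₂ : ℤ), ∑ n ∈ rgH x H₂, |nf (Dt B D t) (fB x) ((n : ℤ) - t)| := by
    rw [Finset.mul_sum, Finset.sum_comm]
    exact Finset.sum_le_sum fun n _ => e1 n
  have e3 : ∀ t ∈ Finset.Icc (1 - (H₁ : ℤ)) (H₂ : ℤ),
      ∑ n ∈ rgH x H₂, |nf (Dt B D t) (fB x) ((n : ℤ) - t)| ≤ δ * ((⌊x⌋₊ : ℝ) + 1) * (H₁ : ℝ) := by
    intro t _
    refine le_trans ?_ (h (Dt B D t) (Dt_sub B D t))
    unfold rgH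
    refine T2Bb_shift (fun m => |nf (Dt B D t) (fB x) m|) (fun m => abs_nonneg _) (⌊x⌋₊ + 1 + H₁) _ t ?_
    intro m hm
    have := T2Bb_out ((Dt_sub B D t).trans hB) (fun n hn => fB_out (by linarith) hn) hm
    show |nf (Dt B D t) (fB x) m| = 0
    rw [this]
    norm_num
  have e4 := (Finset.sum_le_card_nsmul _ _ _ e3)
  rw [nsmul_eq_mul] at e4
  have e5 : (B.card : ℝ) * ∑ n ∈ rgH x H₂, |nf D (fB x) (n : ℤ)| ≤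
      (2 * (H₂ : ℝ)) * (δ * ((⌊x⌋₊ : ℝ) + 1) * (H₁ : ℝ)) := by
    refine e2.trans (e4.trans ?_)
    exact mul_le_mul_of_nonneg_right (T2Bb_card H₁ H₂ h12) (by positivity)
  have e6 : (β * (H₁ : ℝ)) * ∑ n ∈ rgH x H₂, |nf D (fB x) (n : ℤ)| ≤
      (B.card : ℝ) * ∑ n ∈ rgH x H₂, |nf D (fB x) (n : ℤ)| :=
    mul_le_mul_of_nonneg_right hBβ (Finset.sum_nonneg fun _ _ => abs_nonneg _)
  have e7 := e6.trans e5
  have e8 : (2 * (H₂ : ℝ)) * (δ * ((⌊x⌋₊ : ℝ) + 1) * (H₁ : ℝ)) =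
      (β * (H₁ : ℝ)) * (2 / β * δ * ((⌊x⌋₊ : ℝ) + 1) * (H₂ : ℝ)) := by
    field_simp
  rw [e8] at e7
  exact le_of_mul_le_mul_left e7 (by positivity)

end Pool.Agent.H12.AE
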