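import Pool.Agent.H12.AE.T2
import Pool.Agent.H12.AE.T2Ba
import Pool.Agent.H12.AE.T2Bb
import Pool.Agent.H12.DM.Bjc

/-!
# T2B: information on one set of shifts of positive density at one scale implies the Hardy-Littlewood asymptotics for almost all
`k`-tuples at all larger scales (`MP_1039f5_AE`)
-/

set_option autoImplicit false

namespace Pool.Agent.H12.AE

open Finset Pool.Agent.H17 Pool.Agent.H6.MF Pool.Agent.H6.MB Pool.Agent.H12.DM Pool.Agent.H6.AE Pool.Agent.H96.AE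

/-- for all `D ⊆ B` and most `n ≤ x` the number of primes among `n - d`, `d ∈ D`, is the expected one -/
def EB (x : ℝ) (H : ℕ) (B : Finset ℤ) (δ : ℝ) : Prop :=
  ∀ D : Finset ℤ, D ⊆ B →
    ∑ n ∈ Finset.range (⌊x⌋₊ + 1),
      |((D.filter (fun d : ℤ => isP ((n : ℤ) - d))).card : ℝ)
        - wp (yy x) / Real.log x * ((D.filter (fun d : ℤ => Int.gcd ((n : ℤ) - d) (WW (yy x) : ℤ) = 1)).card : ℝ)|
      ≤ δ * ((H : ℝ) * x / Real.log x)

lemma EB_card (D : Finset ℤ) (hD : ∀ d ∈ D, 0 ≤ d) (p : ℤ → Prop) [DecidablePred p] :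
    ((D.image Int.toNat).filter (fun d : ℕ => p (d : ℤ))).card = (D.filter p).card := by
  classical
  symm
  refine Finset.card_bij (fun d _ => d.toNat) ?_ ?_ ?_
  · intro d hd
    rw [Finset.mem_filter] at hd
    rw [Finset.mem_filter, Finset.mem_image]
    refine ⟨⟨d, hd.1, rfl⟩, ?_⟩
    rw [Int.toNat_of_nonneg (hD d hd.1)]
    exact hd.2
  · intro a ha b hb hab
    rw [Finset.mem_filter] at ha hb
    have h1 := hD a ha.1
    have h2 := hD b hb.1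
    omega
  · intro b hb
    rw [Finset.mem_filter, Finset.mem_image] at hb
    obtain ⟨⟨d, hd, rfl⟩, hb⟩ := hb
    rw [Int.toNat_of_nonneg (hD d hd)] at hb
    exact ⟨d, Finset.mem_filter.2 ⟨hd, hb⟩, rfl⟩

/-- `EB` gives small windows in `L¹` for the subsets of `B` -/
theorem EB_FL (ε : ℝ) (hε : 0 < ε) : ∃ δ X : ℝ, 0 < δ ∧ ∀ x : ℝ, X ≤ x → ∀ H : ℕ,
    (H : ℝ) ≤ (Real.log x) ^ 2 → ∀ B : Finset ℤ, B ⊆ Finset.Icc 1 (H : ℤ) → EB x H B δ →
    ∀ D : Finset ℤ, D ⊆ B → FL x H ε D := by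
  obtain ⟨X, hX⟩ := Bjc_large (η := ε / 2) (by positivity)
  refine ⟨ε / 2, X, by positivity, fun x hx H hH2 B hB hE D hDB => ?_⟩
  have hD : D ⊆ Finset.Icc 1 (H : ℤ) := hDB.trans hB
  obtain ⟨h1, h2, h3⟩ := hX x hx
  set D' : Finset ℕ := D.image Int.toNat with hD'
  have hDD : D'.image (fun d : ℕ => (d : ℤ)) = D := by
    rw [hD', Finset.image_image]
    conv_rhs => rw [← Finset.image_id (s := D)]
    refine Finset.image_congr fun d hd => ?_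
    have := (Finset.mem_Icc.1 (hD hd)).1
    simp only [Function.comp_apply, id_eq]
    exact Int.toNat_of_nonneg (by omega)
  have hD2 : D' ⊆ Finset.Icc 1 H := by
    intro d hd
    rw [hD', Finset.mem_image] at hd
    obtain ⟨e, he, rfl⟩ := hd
    have := Finset.mem_Icc.1 (hD he)
    rw [Finset.mem_Icc]
    omega
  have h4 := Bjc_main h1 h2 hD2
  rw [hDD] at h4
  have h5 := Bjc_err h1 h2 h3 hH2
  have h0 : ∀ d ∈ D, 0 ≤ d := fun d hd => by
    have := (Finset.mem_Icc.1 (hD hd)).1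
    omega
  have h6 : ∑ n ∈ Finset.range (⌊x⌋₊ + 1), |eqT x D' n| ≤ ε / 2 * ((H : ℝ) * x / Real.log x) := by
    refine le_trans (le_of_eq ?_) (hE D hDB)
    refine Finset.sum_congr rfl fun n _ => ?_
    unfold eqT
    rw [hD', EB_card D h0 (fun d : ℤ => isP ((n : ℤ) - d)),
      EB_card D h0 (fun d : ℤ => Int.gcd ((n : ℤ) - d) (WW (yy x) : ℤ) = 1)]
  have hL0 : (0 : ℝ) < Real.log x := by linarith
  have h7 : Real.log x * ∑ n ∈ Finset.range (⌊x⌋₊ + 1), |eqT x D' n| ≤ ε / 2 * ((H : ℝ) * x) := by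
    calc _ ≤ Real.log x * (ε / 2 * ((H : ℝ) * x / Real.log x)) := mul_le_mul_of_nonneg_left h6 hL0.le
      _ = ε / 2 * ((H : ℝ) * x) := by field_simp
  have h8 := (abs_le.1 h4).2
  unfold FL
  have h9 : x ≤ (⌊x⌋₊ : ℝ) + 1 := (Nat.lt_floor_add_one x).le
  have hH0 : (0 : ℝ) ≤ H := Nat.cast_nonneg _
  have h10 : ε * ((H : ℝ) * x) ≤ ε * ((⌊x⌋₊ : ℝ) + 1) * (H : ℝ) := by
    calc ε * ((H : ℝ) * x) = ε * (H : ℝ) * x := by ring
      _ ≤ ε * (H : ℝ) * ((⌊x⌋₊ : ℝ) + 1) := mul_le_mul_of_nonneg_left h9 (by positivity)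
      _ = _ := by ring
  linarith

/-- T2B -/
theorem T2B (j k : ℕ) (hj : 2 ≤ j) (hk : 2 ≤ k) (ε β : ℝ) (hε : 0 < ε) (hβ : 0 < β) :
    ∃ δ K X : ℝ, 0 < δ ∧ 1 ≤ K ∧ ∀ x : ℝ, X ≤ x →
    ∀ H₁ H₂ : ℕ, K * Real.log x ≤ (H₁ : ℝ) → H₁ ≤ H₂ → (H₂ : ℝ) ≤ (Real.log x) ^ 2 →
    ∀ B : Finset ℤ, B ⊆ Finset.Icc 1 (H₁ : ℤ) → β * (H₁ : ℝ) ≤ (B.card : ℝ) →
    (UB j x H₁ B δ ∨ EB x H₁ B δ ∨ LocFour x H₁ δ ∨ MeanTriples x H₁ δ) →
      AAk k x H₂ ε ∧ Equi x H₂ ε ∧ LocFour x H₂ ε := by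
  obtain ⟨i, rfl⟩ : ∃ i, j = i + 2 := ⟨j - 2, by omega⟩
  obtain ⟨δa, Ka, Xa, hδa, ha⟩ := T2_out k hk ε hε
  obtain ⟨δb, Kb, Xb, hδb, hb⟩ := Bk_FL_SW δa hδa
  -- the full window
  obtain ⟨δc, Kc, Xc, hδc, hc⟩ := Bk_trans (Bm_or Bm_mono_LF Bk_mono_MT (Bk_one Bl1) Bk_MT_SW) Bk_SW_FL (δb / 2)
    (by positivity)
  -- the Hardy-Littlewood upper bound
  obtain ⟨δd, Kd, Xd, hδd, hKd, hd⟩ := CVB i (δa * β ^ 2 / 4) (by positivity)
  -- equidistribution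
  obtain ⟨δe, Xe, hδe, he⟩ := EB_FL (δb * β / 2) (by positivity)
  refine ⟨min δc (min δd δe), max 1 (max (max Ka Kb) (max Kc Kd)),
    max (Real.exp 1) (max (max Xa Xb) (max Xc (max Xd Xe))), lt_min hδc (lt_min hδd hδe), le_max_left _ _, ?_⟩
  intro x hx H₁ H₂ hH1 h12 hH2 B hB hBβ hA
  simp only [max_le_iff] at hx
  obtain ⟨hxe, ⟨hxa, hxb⟩, hxc, hxd, hxe'⟩ := hx
  have hx1 : 1 ≤ x := by
    have h1 := Real.add_one_le_exp (1 : ℝ)
    linarith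
  have hL1 : 1 ≤ Real.log x := by
    have h1 := Real.log_le_log (Real.exp_pos 1) hxe
    rwa [Real.log_exp] at h1
  have h12' : (H₁ : ℝ) ≤ (H₂ : ℝ) := by exact_mod_cast h12
  have hK1 : 1 * Real.log x ≤ (H₁ : ℝ) := Bk_log hx1 (le_max_left _ _) hH1
  have hK' : max (max Ka Kb) (max Kc Kd) * Real.log x ≤ (H₁ : ℝ) := Bk_log hx1 (le_max_right _ _) hH1
  have hKab : max Ka Kb * Real.log x ≤ (H₁ : ℝ) := Bk_log hx1 (le_max_left _ _) hK'
  have hKcd : max Kc Kd * Real.log x ≤ (H₁ : ℝ) := Bk_log hx1 (le_max_right _ _) hK'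
  have hKa : Ka * Real.log x ≤ (H₁ : ℝ) := Bk_log hx1 (le_max_left _ _) hKab
  have hKb : Kb * Real.log x ≤ (H₁ : ℝ) := Bk_log hx1 (le_max_right _ _) hKab
  have hKc : Kc * Real.log x ≤ (H₁ : ℝ) := Bk_log hx1 (le_max_left _ _) hKcd
  have hKd' : Kd * Real.log x ≤ (H₁ : ℝ) := Bk_log hx1 (le_max_right _ _) hKcd
  have hH11 : 1 ≤ H₁ := by
    have h1 : (1 : ℝ) ≤ (H₁ : ℝ) := by linarith
    exact_mod_cast h1
  have hL0 : 0 < Real.log x := by linarith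
  have hx0 : 0 ≤ x := by linarith
  refine ha x hxa H₂ (hKa.trans h12') hH2 ?_
  have hfull : LocFour x H₁ (min δc (min δd δe)) ∨ MeanTriples x H₁ (min δc (min δd δe)) → Bk_SW x H₂ δa := by
    intro hA
    have e0 : LocFour x H₁ δc ∨ MeanTriples x H₁ δc :=
      (Bm_mono_or Bm_mono_LF Bk_mono_MT) x hx1 H₁ _ _ (min_le_left _ _) hA
    have e1 := hc x hxc H₁ hKc (h12'.trans hH2) e0
    have e2 := Bn x hx1 H₁ H₂ hH11 h12 (δb / 2) e1
    have e3 : Bk_FL x H₂ δb := by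
      intro D hD
      have h1 := e2 D hD
      rwa [mul_div_cancel₀ δb (two_ne_zero)] at h1
    exact hb x hxb H₂ (hKb.trans h12') hH2 e3
  rcases hA with hA | hA | hA | hA
  · -- upper bound
    have e0 : UB (i + 2) x H₁ B δd := by
      unfold UB at hA ⊢
      exact hA.trans (mul_le_mul_of_nonneg_right ((min_le_right _ _).trans (min_le_left _ _)) (by positivity))
    have e1 := hd x hxd H₁ hKd' (h12'.trans hH2) B hB e0
    have e2 := T2Bb_SW x hx1 H₁ H₂ hH11 h12 (δa * β ^ 2 / 4) β (by positivity) hβ B hB hBβ e1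
    intro D hD
    have h1 := e2 D hD
    have h2 : 4 / β ^ 2 * (δa * β ^ 2 / 4) = δa := by field_simp
    rwa [h2] at h1
  · -- equidistribution
    have e0 : EB x H₁ B δe := by
      intro D hD
      exact (hA D hD).trans (mul_le_mul_of_nonneg_right ((min_le_right _ _).trans (min_le_right _ _)) (by positivity))
    have e1 := he x hxe' H₁ (h12'.trans hH2) B hB e0
    have e2 := T2Bb_FL x hx1 H₁ H₂ hH11 h12 (δb * β / 2) β (by positivity) hβ B hB hBβ e1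
    have e3 : Bk_FL x H₂ δb := by
      intro D hD
      have h1 := e2 D hD
      have h2 : 2 / β * (δb * β / 2) = δb := by field_simp
      rwa [h2] at h1
    exact hb x hxb H₂ (hKb.trans h12') hH2 e3
  · exact hfull (Or.inl hA)
  · exact hfull (Or.inr hA)

end Pool.Agent.H12.AE
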