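import Pool.Agent.H12.AE.T2Sb
import Pool.Agent.H12.AE.T2B

/-!
# T2S: information on one sparse set of shifts implies the Hardy-Littlewood asymptotics for almost all `k`-tuples
(`MP_1039f5_AE`, version 2)
-/

set_option autoImplicit false

namespace Pool.Agent.H12.AE

open Finset Pool.Agent.H17 Pool.Agent.H6.MF Pool.Agent.H6.MB Pool.Agent.H12.DM Pool.Agent.H6.AE Pool.Agent.H96.AE

lemma T2Sc_large (η : ℝ) (hη : 0 < η) : ∃ X : ℝ, ∀ x : ℝ, X ≤ x →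
    (x ^ (1 / 4 : ℝ) + 2 * (Real.log x) ^ 2 + 1) * ((Real.log x) ^ 2 * (2 * Real.log x)) ≤ η * x := by
  obtain ⟨X1, hX1⟩ := T2F_log 6 (η / 16) (by positivity)
  have h2 := (isLittleO_log_rpow_rpow_atTop (3 : ℝ) (show (0 : ℝ) < 3 / 4 by norm_num)).def (show (0 : ℝ) < η / 4 by positivity)
  obtain ⟨X2, hX2⟩ := Filter.eventually_atTop.1 h2
  refine ⟨max (Real.exp 1) (max X1 X2), fun x hx => ?_⟩
  simp only [max_le_iff] at hx
  have hx1 : 1 ≤ x := by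
    have h1 := Real.add_one_le_exp (1 : ℝ)
    linarith [hx.1]
  have hx0 : 0 < x := by linarith
  have hL1 : 1 ≤ Real.log x := by
    have h1 := Real.log_le_log (Real.exp_pos 1) hx.1
    rwa [Real.log_exp] at h1
  have hL0 : 0 < Real.log x := by linarith
  have e1 := hX1 x hx.2.1
  have e2 := hX2 x hx.2.2
  rw [Real.norm_eq_abs, Real.norm_eq_abs, abs_of_nonneg (Real.rpow_nonneg hL0.le _),
    abs_of_nonneg (Real.rpow_nonneg hx0.le _)] at e2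
  have e3 : Real.log x ^ (3 : ℝ) = (Real.log x) ^ 3 := by
    rw [← Real.rpow_natCast]
    norm_num
  rw [e3] at e2
  have e4 : x ^ (1 / 4 : ℝ) * (Real.log x) ^ 3 ≤ η / 4 * x := by
    calc x ^ (1 / 4 : ℝ) * (Real.log x) ^ 3 ≤ x ^ (1 / 4 : ℝ) * (η / 4 * x ^ (3 / 4 : ℝ)) :=
          mul_le_mul_of_nonneg_left e2 (Real.rpow_nonneg hx0.le _)
      _ = η / 4 * (x ^ (1 / 4 : ℝ) * x ^ (3 / 4 : ℝ)) := by ring
      _ = η / 4 * x := by
          rw [← Real.rpow_add hx0]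
          norm_num
  have e5 : (Real.log x) ^ 3 ≤ (Real.log x) ^ 6 := pow_le_pow_right₀ hL1 (by norm_num)
  have e6 : (Real.log x) ^ 5 ≤ (Real.log x) ^ 6 := pow_le_pow_right₀ hL1 (by norm_num)
  calc (x ^ (1 / 4 : ℝ) + 2 * (Real.log x) ^ 2 + 1) * ((Real.log x) ^ 2 * (2 * Real.log x))
      = 2 * (x ^ (1 / 4 : ℝ) * (Real.log x) ^ 3) + 4 * (Real.log x) ^ 5 + 2 * (Real.log x) ^ 3 := by ring
    _ ≤ 2 * (η / 4 * x) + 4 * (η / 8 * x) := by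
        have h7 : (Real.log x) ^ 5 + (Real.log x) ^ 3 ≤ 2 * (η / 16 * x) := by linarith
        have h8 : 4 * (Real.log x) ^ 5 + 2 * (Real.log x) ^ 3 ≤ 6 * (η / 16 * x) := by linarith
        have h9 : 0 ≤ η * x := by positivity
        linarith
    _ = η * x := by ring

/-- the moments of the difference of the window sums, for the subsets of a regular set -/
theorem T2S_diff (i : ℕ) (ε M : ℝ) (hε : 0 < ε) (hM : 0 < M) : ∃ δ K X : ℝ, 0 < δ ∧ 1 ≤ K ∧ ∀ x : ℝ, X ≤ x → ∀ H : ℕ,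
    (H : ℝ) ≤ (Real.log x) ^ 2 → ∀ B : Finset ℤ, B ⊆ Finset.Icc 1 (H : ℤ) → K * Real.log x ≤ (B.card : ℝ) →
    Reg (i + 2) M B →
    ∑ C ∈ Finset.powersetCard (i + 2) B,
      max 0 (∑ n ∈ rgH x H, ∏ c ∈ C, La x ((n : ℤ) - c) - ((⌊x⌋₊ : ℝ) + 1) * sing C)
      ≤ δ * ((⌊x⌋₊ : ℝ) + 1) * (B.card : ℝ) ^ (i + 2) →
    ∀ D : Finset ℤ, D ⊆ B →
    ∑ n ∈ rgH x H, |nf D (La x) (n : ℤ) - nf D (Mi x) (n : ℤ)| ^ (i + 2) ≤ ε * ((⌊x⌋₊ : ℝ) + 1) * (B.card : ℝ) ^ (i + 2) := by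
  obtain ⟨C₁, X₁, hC₁, h₁⟩ := T2S_mom (i + 2) (by omega) M hM (i + 1) (by omega)
  obtain ⟨C₀, hC₀d⟩ : ∃ C₀ : ℝ, C₀ = M := ⟨M, rfl⟩
  have hC₀ : 0 < C₀ := by rw [hC₀d]; exact hM
  set F : ℝ := ((i + 2).factorial : ℝ) with hF
  set F' : ℝ := ((i + 1).factorial : ℝ) with hF'
  have hF0 : 0 < F := by positivity
  have hF'0 : 0 < F' := by positivity
  set E₁ : ℝ := ((i : ℝ) + 2) * F * C₀ + 2 * F + ((i : ℝ) + 1) * F + ((i : ℝ) + 2) * F' with hE₁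
  set E₂ : ℝ := ((i : ℝ) + 2) ^ 2 * C₁ + ((i : ℝ) + 1) * (((i : ℝ) + 2) ^ 2 * C₁) with hE₂
  have hE₁0 : 0 < E₁ := by positivity
  have hE₂0 : 0 < E₂ := by positivity
  set ε₁ : ℝ := ε / (2 * E₁) with hε₁
  have hε₁0 : 0 < ε₁ := by positivity
  set K : ℝ := max 1 (2 * E₂ / ε) with hK
  have hK1 : 1 ≤ K := le_max_left _ _
  have hK2 : 2 * E₂ / ε ≤ K := le_max_right _ _
  have hK0 : 0 < K := by linarith
  obtain ⟨X₃, h₃⟩ := T2S_sing (i + 2) (ε₁ / M) (by positivity)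
  obtain ⟨X₅, h₅⟩ := CV_M (i + 2) ε₁ hε₁0
  obtain ⟨X₆, h₆⟩ := CV_L (i + 1) ε₁ hε₁0
  obtain ⟨X₇, h₇⟩ := CVc_large 0 1 one_pos
  obtain ⟨X₈, hX₈1, h₈⟩ := CVb_H
  refine ⟨ε₁, K, max (max (max X₁ X₁) (max X₃ X₃)) (max (max X₅ X₆) (max X₇ X₈)), hε₁0, hK1,
    fun x hx H hHL B hBH hKL hR hU0 D hD => ?_⟩
  have g₁ : X₁ ≤ x := le_trans (le_trans (le_trans (le_max_left _ _) (le_max_left _ _)) (le_max_left _ _)) hx
  have g₃ : X₃ ≤ x := le_trans (le_trans (le_trans (le_max_left _ _) (le_max_right _ _)) (le_max_left _ _)) hx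
  have g₅ : X₅ ≤ x := le_trans (le_trans (le_trans (le_max_left _ _) (le_max_left _ _)) (le_max_right _ _)) hx
  have g₆ : X₆ ≤ x := le_trans (le_trans (le_trans (le_max_right _ _) (le_max_left _ _)) (le_max_right _ _)) hx
  have g₇ : X₇ ≤ x := le_trans (le_trans (le_trans (le_max_left _ _) (le_max_right _ _)) (le_max_right _ _)) hx
  have g₈ : X₈ ≤ x := le_trans (le_trans (le_trans (le_max_right _ _) (le_max_right _ _)) (le_max_right _ _)) hx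
  obtain ⟨hx1, hL1, hWL, hwpL, -⟩ := h₇ x g₇
  have hL0 : 0 ≤ Real.log x := by linarith
  have hLH : Real.log x ≤ (B.card : ℝ) := by nlinarith
  have hmLa := h₁ x g₁ H hHL B hLH hR (La x) (fun n => La_nonneg hx1 n) (fun n => La_le hx1 n)
    (fun n => (le_abs_self _).trans (T2F_BLa hx1 3 n))
  have hmMi := h₁ x g₁ H hHL B hLH hR (Mi x) (fun n => Mi_nonneg x n)
    (fun n => ((Mi_le x n).trans (Mm_le _ _)).trans hwpL) (fun n => (le_abs_self _).trans (T2F_BMi hx1 3 n))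
  have hs : ∑ C ∈ Finset.powersetCard (i + 2) B, |sing C - sW x C| ≤ ε₁ * (B.card : ℝ) ^ (i + 2) := by
    have s1 : ∑ C ∈ Finset.powersetCard (i + 2) B, |sing C - sW x C| ≤
        ∑ C ∈ Finset.powersetCard (i + 2) B, ε₁ / M * Gs (i + 2) 1 C := by
      refine Finset.sum_le_sum fun C hC => ?_
      rw [Finset.mem_powersetCard] at hC
      exact h₃ x g₃ H hHL C (hC.1.trans hBH) (by omega) (by omega)
    rw [← Finset.mul_sum] at s1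
    refine s1.trans ?_
    calc ε₁ / M * ∑ C ∈ Finset.powersetCard (i + 2) B, Gs (i + 2) 1 C ≤ ε₁ / M * (M * (B.card : ℝ) ^ (i + 2)) :=
          mul_le_mul_of_nonneg_left (hR (i + 2) le_rfl) (by positivity)
      _ = ε₁ * (B.card : ℝ) ^ (i + 2) := by
          field_simp
  have hU : ∑ C ∈ Finset.powersetCard (i + 2) D,
      max 0 (∑ n ∈ rgH x H, ∏ c ∈ C, La x ((n : ℤ) - c) - ((⌊x⌋₊ : ℝ) + 1) * sing C)
      ≤ ε₁ * ((⌊x⌋₊ : ℝ) + 1) * (B.card : ℝ) ^ (i + 2) :=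
    (Finset.sum_le_sum_of_subset_of_nonneg (Finset.powersetCard_mono hD) fun _ _ _ => le_max_left _ _).trans hU0
  have hA := T2S_A i hx1 hK1 hKL hD hC₁ hmLa hs hU
  have hB := T2S_B i hK1 hL0 hKL hBH hD hε₁0.le hC₁ hmMi hwpL (fun C hC hc => h₅ x g₅ H hHL C hC hc)
  have hC := T2S_C i hx1 hBH hD hε₁0.le (fun C hC hc e he => h₆ x g₆ H hHL C hC hc e he)
  have hS : ∑ C ∈ Finset.powersetCard (i + 2) B, sW x C ≤ C₀ * (B.card : ℝ) ^ (i + 2) := by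
    rw [hC₀d]
    refine le_trans (Finset.sum_le_sum fun C hC => ?_) (hR (i + 2) le_rfl)
    have hc := (Finset.mem_powersetCard.1 hC).2
    exact T2S_sW_le x (by omega) (by omega)
  set N : ℝ := (⌊x⌋₊ : ℝ) + 1 with hN
  have hN0 : 0 ≤ N := by positivity
  set Q : ℝ := N * (B.card : ℝ) ^ (i + 2) with hQ
  have hQ0 : 0 ≤ Q := by positivity
  have hT : ∑ C ∈ Finset.powersetCard (i + 2) D, sW x C ≤ C₀ * (B.card : ℝ) ^ (i + 2) :=
    (Finset.sum_le_sum_of_subset_of_nonneg (Finset.powersetCard_mono hD) (fun _ _ _ => sW_nonneg _ _)).trans hS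
  set T : ℝ := ∑ C ∈ Finset.powersetCard (i + 2) D, sW x C with hTd
  have hNT : N * T ≤ C₀ * Q := by
    have := mul_le_mul_of_nonneg_left hT hN0
    refine this.trans (le_of_eq (by rw [hQ]; ring))
  have h1 : ∑ n ∈ rgH x H, |nf D (La x) (n : ℤ) - nf D (Mi x) (n : ℤ)| ^ (i + 2) ≤
      ∑ n ∈ rgH x H, (nf D (La x) (n : ℤ)) ^ (i + 2) +
      ((i : ℝ) + 1) * ∑ n ∈ rgH x H, (nf D (Mi x) (n : ℤ)) ^ (i + 2) -
      ((i : ℝ) + 2) * ∑ n ∈ rgH x H, (nf D (Mi x) (n : ℤ)) ^ (i + 1) * nf D (La x) (n : ℤ) := by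
    rw [Finset.mul_sum, Finset.mul_sum, ← Finset.sum_add_distrib, ← Finset.sum_sub_distrib]
    refine Finset.sum_le_sum fun n _ => ?_
    have a1 : 0 ≤ nf D (La x) (n : ℤ) := Finset.sum_nonneg fun _ _ => La_nonneg hx1 _
    have a2 : 0 ≤ nf D (Mi x) (n : ℤ) := Finset.sum_nonneg fun _ _ => Mi_nonneg _ _
    refine (CV_pow i a1 a2).trans (le_of_eq (by ring))
  have hi1 : (0 : ℝ) ≤ (i : ℝ) + 1 := by positivity
  have hi2 : (0 : ℝ) ≤ (i : ℝ) + 2 := by positivity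
  have hB' := mul_le_mul_of_nonneg_left hB hi1
  have hC' := mul_le_mul_of_nonneg_left hC hi2
  have hm1 : ((i : ℝ) + 2) * ε₁ * F * (N * T) ≤ ((i : ℝ) + 2) * ε₁ * F * (C₀ * Q) :=
    mul_le_mul_of_nonneg_left hNT (by positivity)
  have hEK : E₂ / K ≤ ε / 2 := by
    rw [div_le_iff₀ hK0]
    have := (div_le_iff₀ hε).1 hK2
    linarith
  have hEε : ε₁ * E₁ = ε / 2 := by
    rw [hε₁]
    field_simp
  have hfin : ε₁ * E₁ * Q + E₂ / K * Q ≤ ε * Q := by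
    rw [hEε]
    have := mul_le_mul_of_nonneg_right hEK hQ0
    linarith
  have hexp1 : ε₁ * E₁ * Q = ((i : ℝ) + 2) * ε₁ * F * (C₀ * Q) + F * (2 * ε₁ * Q) +
      ((i : ℝ) + 1) * (F * (ε₁ * Q)) + ((i : ℝ) + 2) * (F' * ε₁ * Q) := by
    rw [hE₁]; ring
  have hexp2 : E₂ / K * Q = ((i : ℝ) + 2) ^ 2 * (C₁ / K) * Q +
      ((i : ℝ) + 1) * (((i : ℝ) + 2) ^ 2 * (C₁ / K) * Q) := by
    rw [hE₂]; ring
  have hgoal : ε * N * (B.card : ℝ) ^ (i + 2) = ε * Q := by rw [hQ]; ring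
  rw [hgoal]
  have hmain : F * (N * T) + ((i : ℝ) + 1) * (F * (N * T)) - ((i : ℝ) + 2) * ((1 - ε₁) * F * (N * T)) =
      ((i : ℝ) + 2) * ε₁ * F * (N * T) := by ring
  have k1 : F * (N * T + 2 * ε₁ * Q) = F * (N * T) + F * (2 * ε₁ * Q) := by ring
  have k2 : ((i : ℝ) + 1) * (F * (N * T + ε₁ * Q) + ((i : ℝ) + 2) ^ 2 * (C₁ / K) * Q) =
      ((i : ℝ) + 1) * (F * (N * T)) + ((i : ℝ) + 1) * (F * (ε₁ * Q)) +
      ((i : ℝ) + 1) * (((i : ℝ) + 2) ^ 2 * (C₁ / K) * Q) := by ring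
  have k3 : ((i : ℝ) + 2) * ((1 - ε₁) * F * (N * T) - F' * ε₁ * Q) =
      ((i : ℝ) + 2) * ((1 - ε₁) * F * (N * T)) - ((i : ℝ) + 2) * (F' * ε₁ * Q) := by ring
  rw [k1] at hA
  rw [k2] at hB'
  rw [k3] at hC'
  linarith


/-- the windows for the subsets of a regular set, in `L²` -/
theorem T2S_SW (i : ℕ) (ε M : ℝ) (hε : 0 < ε) (hM : 0 < M) : ∃ δ K X : ℝ, 0 < δ ∧ 1 ≤ K ∧ ∀ x : ℝ, X ≤ x → ∀ H : ℕ,
    (H : ℝ) ≤ (Real.log x) ^ 2 → ∀ B : Finset ℤ, B ⊆ Finset.Icc 1 (H : ℤ) → K * Real.log x ≤ (B.card : ℝ) →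
    Reg (i + 2) M B →
    ∑ C ∈ Finset.powersetCard (i + 2) B,
      max 0 (∑ n ∈ rgH x H, ∏ c ∈ C, La x ((n : ℤ) - c) - ((⌊x⌋₊ : ℝ) + 1) * sing C)
      ≤ δ * ((⌊x⌋₊ : ℝ) + 1) * (B.card : ℝ) ^ (i + 2) →
    ∀ D : Finset ℤ, D ⊆ B →
    ∑ n ∈ rgH x H, (nf D (fB x) (n : ℤ)) ^ 2 ≤ ε * ((⌊x⌋₊ : ℝ) + 1) * (B.card : ℝ) ^ 2 := by
  set θ : ℝ := Real.sqrt (ε / 4) with hθ
  have hθ0 : 0 < θ := Real.sqrt_pos.2 (by positivity)
  have hθ2 : θ ^ 2 = ε / 4 := Real.sq_sqrt (by positivity)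
  obtain ⟨δ, K, X, hδ, hK, h⟩ := T2S_diff i (θ ^ i * (ε / 2)) M (by positivity) hM
  obtain ⟨X₇, h₇⟩ := CVc_large 0 1 one_pos
  obtain ⟨X₈, hX₈1, h₈⟩ := CVb_H
  refine ⟨δ, K, max X (max X₇ X₈), hδ, hK, fun x hx H hHL B hBH hKL hR hU D hD => ?_⟩
  have g₁ : X ≤ x := (le_max_left _ _).trans hx
  have g₇ : X₇ ≤ x := ((le_max_left _ _).trans (le_max_right _ _)).trans hx
  have g₈ : X₈ ≤ x := ((le_max_right _ _).trans (le_max_right _ _)).trans hx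
  obtain ⟨hx1, hL1, -, -, -⟩ := h₇ x g₇
  have hL0 : 0 ≤ Real.log x := by linarith
  have hLH : Real.log x ≤ (B.card : ℝ) := by nlinarith
  have hHL4 : (H : ℝ) ≤ 4 * (Real.log x) ^ 2 := by nlinarith [sq_nonneg (Real.log x)]
  have hHN := h₈ x g₈ H hHL4
  have hd := h x g₁ H hHL B hBH hKL hR hU D hD
  have hH0 : (0 : ℝ) < (B.card : ℝ) := by linarith
  set N : ℝ := (⌊x⌋₊ : ℝ) + 1 with hN
  have hN0 : 0 ≤ N := by positivity
  have hcard : (((rgH x H).card : ℕ) : ℝ) ≤ 2 * N := by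
    unfold rgH
    rw [Finset.card_range]
    push_cast
    linarith
  have h1 : ∀ n : ℕ, (nf D (fB x) (n : ℤ)) ^ 2 ≤ (θ * B.card) ^ 2 +
      |nf D (La x) (n : ℤ) - nf D (Mi x) (n : ℤ)| ^ (i + 2) / (θ * B.card) ^ i := by
    intro n
    have e1 : nf D (fB x) (n : ℤ) = nf D (La x) (n : ℤ) - nf D (Mi x) (n : ℤ) := by
      unfold nf fB
      rw [Finset.sum_sub_distrib]
    rw [e1, ← sq_abs]
    exact CV_sq i (abs_nonneg _) (by positivity)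
  calc ∑ n ∈ rgH x H, (nf D (fB x) (n : ℤ)) ^ 2
      ≤ ∑ n ∈ rgH x H, ((θ * B.card) ^ 2 +
        |nf D (La x) (n : ℤ) - nf D (Mi x) (n : ℤ)| ^ (i + 2) / (θ * B.card) ^ i) :=
        Finset.sum_le_sum fun n _ => h1 n
    _ = ((rgH x H).card : ℝ) * (θ * B.card) ^ 2 +
        (∑ n ∈ rgH x H, |nf D (La x) (n : ℤ) - nf D (Mi x) (n : ℤ)| ^ (i + 2)) / (θ * B.card) ^ i := by
        rw [Finset.sum_add_distrib, Finset.sum_const, nsmul_eq_mul, Finset.sum_div]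
    _ ≤ (2 * N) * (θ * B.card) ^ 2 + (θ ^ i * (ε / 2) * N * (B.card : ℝ) ^ (i + 2)) / (θ * B.card) ^ i := by
        apply add_le_add
        · exact mul_le_mul_of_nonneg_right hcard (by positivity)
        · exact div_le_div_of_nonneg_right hd (by positivity)
    _ = ε * N * (B.card : ℝ) ^ 2 := by
        have e2 : (θ ^ i * (ε / 2) * N * (B.card : ℝ) ^ (i + 2)) / (θ * B.card) ^ i = (ε / 2) * N * (B.card : ℝ) ^ 2 := by
          rw [mul_pow, pow_add]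
          field_simp
        rw [e2, mul_pow, hθ2]
        ring


/-- `UB` gives the hypothesis of `T2S_SW` -/
theorem T2S_UB (j : ℕ) (ε : ℝ) (hε : 0 < ε) : ∃ δ X : ℝ, 0 < δ ∧ ∀ x : ℝ, X ≤ x → ∀ H : ℕ,
    (H : ℝ) ≤ (Real.log x) ^ 2 → ∀ B : Finset ℤ, UB j x B.card B δ →
    ∑ C ∈ Finset.powersetCard j B,
      max 0 (∑ n ∈ rgH x H, ∏ c ∈ C, La x ((n : ℤ) - c) - ((⌊x⌋₊ : ℝ) + 1) * sing C)
      ≤ ε * ((⌊x⌋₊ : ℝ) + 1) * (B.card : ℝ) ^ j := by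
  obtain ⟨X, hX⟩ := T2F_log (j + 2) (ε / 2) (by positivity)
  refine ⟨ε / 2, max X 3, by positivity, fun x hx H hH B hU => ?_⟩
  have hx3 : 3 ≤ x := (le_max_right _ _).trans hx
  have hx1 : 1 ≤ x := by linarith
  have hx0 : 0 ≤ x := by linarith
  have hL0 : 0 < Real.log x := Real.log_pos (by linarith)
  have hLj : 0 < (Real.log x) ^ j := pow_pos hL0 _
  have hN := (Nat.lt_floor_add_one x).le
  have hpt : ∀ C ∈ Finset.powersetCard j B,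
      max 0 (∑ n ∈ rgH x H, ∏ c ∈ C, La x ((n : ℤ) - c) - ((⌊x⌋₊ : ℝ) + 1) * sing C) ≤
      (Real.log x) ^ j * max 0 ((cnt x C : ℝ) - sing C * x / (Real.log x) ^ j) + (H : ℝ) * (Real.log x) ^ j := by
    intro C hC
    have hc := (Finset.mem_powersetCard.1 hC).2
    have h1 := UB_cnt hx1 H C
    rw [hc] at h1
    have h2 := le_max_right 0 ((cnt x C : ℝ) - sing C * x / (Real.log x) ^ j)
    have h3 := mul_le_mul_of_nonneg_left h2 hLj.le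
    have h4 : (Real.log x) ^ j * ((cnt x C : ℝ) - sing C * x / (Real.log x) ^ j) =
        (Real.log x) ^ j * (cnt x C : ℝ) - sing C * x := by
      field_simp
    have h5 : sing C * x ≤ ((⌊x⌋₊ : ℝ) + 1) * sing C := by
      rw [mul_comm]
      exact mul_le_mul_of_nonneg_right hN (sing_nonneg C)
    refine max_le ?_ ?_
    · have := le_max_left 0 ((cnt x C : ℝ) - sing C * x / (Real.log x) ^ j)
      positivity
    · rw [h4] at h3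
      linarith
  refine (Finset.sum_le_sum hpt).trans ?_
  rw [Finset.sum_add_distrib, ← Finset.mul_sum, Finset.sum_const, nsmul_eq_mul]
  have h2 : (Real.log x) ^ j * ∑ C ∈ Finset.powersetCard j B,
      max 0 ((cnt x C : ℝ) - sing C * x / (Real.log x) ^ j) ≤ ε / 2 * (x * (B.card : ℝ) ^ j) := by
    have h3 := mul_le_mul_of_nonneg_left hU hLj.le
    refine h3.trans (le_of_eq ?_)
    field_simp
  have h3 : ((Finset.powersetCard j B).card : ℝ) * ((H : ℝ) * (Real.log x) ^ j) ≤ ε / 2 * (x * (B.card : ℝ) ^ j) := by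
    have h4 := T2S_card_le (le_refl B) j
    have h5 : (H : ℝ) * (Real.log x) ^ j ≤ ε / 2 * x := by
      calc (H : ℝ) * (Real.log x) ^ j ≤ (Real.log x) ^ 2 * (Real.log x) ^ j := mul_le_mul_of_nonneg_right hH hLj.le
        _ = (Real.log x) ^ (j + 2) := by ring
        _ ≤ ε / 2 * x := hX x ((le_max_left _ _).trans hx)
    calc ((Finset.powersetCard j B).card : ℝ) * ((H : ℝ) * (Real.log x) ^ j)
        ≤ (B.card : ℝ) ^ j * (ε / 2 * x) := mul_le_mul h4 h5 (by positivity) (by positivity)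
      _ = ε / 2 * (x * (B.card : ℝ) ^ j) := by ring
  have h4 : ε * (x * (B.card : ℝ) ^ j) ≤ ε * (((⌊x⌋₊ : ℝ) + 1) * (B.card : ℝ) ^ j) :=
    mul_le_mul_of_nonneg_left (mul_le_mul_of_nonneg_right hN (by positivity)) hε.le
  linarith

/-- averaging in `L²`, normalised by `|B|` -/
theorem T2S_avg2 (x : ℝ) (hx : 1 ≤ x) (H : ℕ) (δ : ℝ) (hδ : 0 ≤ δ)
    (B : Finset ℤ) (hB : B ⊆ Finset.Icc 1 (H : ℤ)) (hB0 : 0 < (B.card : ℝ))
    (h : ∀ D : Finset ℤ, D ⊆ B →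
      ∑ n ∈ rgH x H, (nf D (fB x) (n : ℤ)) ^ 2 ≤ δ * ((⌊x⌋₊ : ℝ) + 1) * (B.card : ℝ) ^ 2) :
    ∀ D : Finset ℤ, D ⊆ Finset.Icc 1 (H : ℤ) → SW x H (4 * δ) D := by
  intro D hD
  unfold SW
  have hH0 : (0 : ℝ) ≤ (H : ℝ) := Nat.cast_nonneg _
  have e1 : ∀ n : ℕ, (B.card : ℝ) ^ 2 * (nf D (fB x) (n : ℤ)) ^ 2 ≤
      (2 * (H : ℝ)) * ∑ t ∈ Finset.Icc (1 - (H : ℤ)) (H : ℤ), (nf (Dt B D t) (fB x) ((n : ℤ) - t)) ^ 2 := by
    intro n
    rw [← mul_pow, T2Bb_id H H B D hB hD (fB x) n]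
    refine (sq_sum_le_card_mul_sum_sq).trans ?_
    exact mul_le_mul_of_nonneg_right (T2Bb_card H H le_rfl) (Finset.sum_nonneg fun _ _ => sq_nonneg _)
  have e2 : (B.card : ℝ) ^ 2 * ∑ n ∈ rgH x H, (nf D (fB x) (n : ℤ)) ^ 2 ≤
      (2 * (H : ℝ)) * ∑ t ∈ Finset.Icc (1 - (H : ℤ)) (H : ℤ),
        ∑ n ∈ rgH x H, (nf (Dt B D t) (fB x) ((n : ℤ) - t)) ^ 2 := by
    rw [Finset.mul_sum, Finset.sum_comm, Finset.mul_sum]
    exact Finset.sum_le_sum fun n _ => e1 n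
  have e3 : ∀ t ∈ Finset.Icc (1 - (H : ℤ)) (H : ℤ),
      ∑ n ∈ rgH x H, (nf (Dt B D t) (fB x) ((n : ℤ) - t)) ^ 2 ≤ δ * ((⌊x⌋₊ : ℝ) + 1) * (B.card : ℝ) ^ 2 := by
    intro t _
    refine le_trans ?_ (h (Dt B D t) (Dt_sub B D t))
    unfold rgH
    refine T2Bb_shift (fun m => (nf (Dt B D t) (fB x) m) ^ 2) (fun m => sq_nonneg _) (⌊x⌋₊ + 1 + H) _ t ?_
    intro m hm
    have := T2Bb_out ((Dt_sub B D t).trans hB) (fun n hn => fB_out (by linarith) hn) hm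
    show (nf (Dt B D t) (fB x) m) ^ 2 = 0
    rw [this]
    norm_num
  have e4 := (Finset.sum_le_card_nsmul _ _ _ e3)
  rw [nsmul_eq_mul] at e4
  have e5 : (B.card : ℝ) ^ 2 * ∑ n ∈ rgH x H, (nf D (fB x) (n : ℤ)) ^ 2 ≤
      (2 * (H : ℝ)) * ((2 * (H : ℝ)) * (δ * ((⌊x⌋₊ : ℝ) + 1) * (B.card : ℝ) ^ 2)) := by
    refine e2.trans (mul_le_mul_of_nonneg_left (e4.trans ?_) (by positivity))
    exact mul_le_mul_of_nonneg_right (T2Bb_card H H le_rfl) (by positivity)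
  have e8 : (2 * (H : ℝ)) * ((2 * (H : ℝ)) * (δ * ((⌊x⌋₊ : ℝ) + 1) * (B.card : ℝ) ^ 2)) =
      (B.card : ℝ) ^ 2 * (4 * δ * ((⌊x⌋₊ : ℝ) + 1) * (H : ℝ) ^ 2) := by
    ring
  rw [e8] at e5
  exact le_of_mul_le_mul_left e5 (by positivity)

/-- averaging in `L¹`, normalised by `|B|` -/
theorem T2S_avg1 (x : ℝ) (hx : 1 ≤ x) (H : ℕ) (δ : ℝ) (hδ : 0 ≤ δ)
    (B : Finset ℤ) (hB : B ⊆ Finset.Icc 1 (H : ℤ)) (hB0 : 0 < (B.card : ℝ))
    (h : ∀ D : Finset ℤ, D ⊆ B →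
      ∑ n ∈ rgH x H, |nf D (fB x) (n : ℤ)| ≤ δ * ((⌊x⌋₊ : ℝ) + 1) * (B.card : ℝ)) :
    ∀ D : Finset ℤ, D ⊆ Finset.Icc 1 (H : ℤ) → FL x H (2 * δ) D := by
  intro D hD
  unfold FL
  have hH0 : (0 : ℝ) ≤ (H : ℝ) := Nat.cast_nonneg _
  have e1 : ∀ n : ℕ, (B.card : ℝ) * |nf D (fB x) (n : ℤ)| ≤
      ∑ t ∈ Finset.Icc (1 - (H : ℤ)) (H : ℤ), |nf (Dt B D t) (fB x) ((n : ℤ) - t)| := by
    intro n
    have e0 : (B.card : ℝ) * |nf D (fB x) (n : ℤ)| = |(B.card : ℝ) * nf D (fB x) (n : ℤ)| := by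
      rw [abs_mul, abs_of_pos hB0]
    rw [e0, T2Bb_id H H B D hB hD (fB x) n]
    exact Finset.abs_sum_le_sum_abs _ _
  have e2 : (B.card : ℝ) * ∑ n ∈ rgH x H, |nf D (fB x) (n : ℤ)| ≤
      ∑ t ∈ Finset.Icc (1 - (H : ℤ)) (H : ℤ), ∑ n ∈ rgH x H, |nf (Dt B D t) (fB x) ((n : ℤ) - t)| := by
    rw [Finset.mul_sum, Finset.sum_comm]
    exact Finset.sum_le_sum fun n _ => e1 n
  have e3 : ∀ t ∈ Finset.Icc (1 - (H : ℤ)) (H : ℤ),
      ∑ n ∈ rgH x H, |nf (Dt B D t) (fB x) ((n : ℤ) - t)| ≤ δ * ((⌊x⌋₊ : ℝ) + 1) * (B.card : ℝ) := by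
    intro t _
    refine le_trans ?_ (h (Dt B D t) (Dt_sub B D t))
    unfold rgH
    refine T2Bb_shift (fun m => |nf (Dt B D t) (fB x) m|) (fun m => abs_nonneg _) (⌊x⌋₊ + 1 + H) _ t ?_
    intro m hm
    have := T2Bb_out ((Dt_sub B D t).trans hB) (fun n hn => fB_out (by linarith) hn) hm
    show |nf (Dt B D t) (fB x) m| = 0
    rw [this]
    norm_num
  have e4 := (Finset.sum_le_card_nsmul _ _ _ e3)
  rw [nsmul_eq_mul] at e4
  have e5 : (B.card : ℝ) * ∑ n ∈ rgH x H, |nf D (fB x) (n : ℤ)| ≤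
      (2 * (H : ℝ)) * (δ * ((⌊x⌋₊ : ℝ) + 1) * (B.card : ℝ)) := by
    refine e2.trans (e4.trans ?_)
    exact mul_le_mul_of_nonneg_right (T2Bb_card H H le_rfl) (by positivity)
  have e8 : (2 * (H : ℝ)) * (δ * ((⌊x⌋₊ : ℝ) + 1) * (B.card : ℝ)) =
      (B.card : ℝ) * (2 * δ * ((⌊x⌋₊ : ℝ) + 1) * (H : ℝ)) := by
    ring
  rw [e8] at e5
  exact le_of_mul_le_mul_left e5 hB0

/-- `EB` gives small windows in `L¹` for the subsets of `B`, normalised by `|B|` -/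
theorem T2S_EB (ε : ℝ) (hε : 0 < ε) : ∃ δ X : ℝ, 0 < δ ∧ ∀ x : ℝ, X ≤ x → ∀ H : ℕ,
    (H : ℝ) ≤ (Real.log x) ^ 2 → ∀ B : Finset ℤ, B ⊆ Finset.Icc 1 (H : ℤ) → 1 ≤ (B.card : ℝ) →
    EB x B.card B δ → ∀ D : Finset ℤ, D ⊆ B →
    ∑ n ∈ rgH x H, |nf D (fB x) (n : ℤ)| ≤ ε * ((⌊x⌋₊ : ℝ) + 1) * (B.card : ℝ) := by
  obtain ⟨X, hX⟩ := Bjc_large (η := ε / 4) (by positivity)
  obtain ⟨X', hX'⟩ := T2Sc_large (ε / 2) (by positivity)
  refine ⟨ε / 2, max X X', by positivity, fun x hx H hH2 B hB hB1 hE D hDB => ?_⟩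
  have hD : D ⊆ Finset.Icc 1 (H : ℤ) := hDB.trans hB
  obtain ⟨h1, h2, h3⟩ := hX x ((le_max_left _ _).trans hx)
  have hlarge := hX' x ((le_max_right _ _).trans hx)
  set D' : Finset ℕ := D.image Int.toNat with hD'
  have hDD : D'.image (fun d : ℕ => (d : ℤ)) = D := by
    rw [hD', Finset.image_image]
    conv_rhs => rw [← Finset.image_id (s := D)]
    refine Finset.image_congr fun d hd => ?_
    have := (Finset.mem_Icc.1 (hD hd)).1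
    simp only [Function.comp_apply, id_eq]
    exact Int.toNat_of_nonneg (by omega)
  have hD2 : D' ⊆ Finset.Icc 1 H := by
    intro d hd
    rw [hD', Finset.mem_image] at hd
    obtain ⟨e, he, rfl⟩ := hd
    have := Finset.mem_Icc.1 (hD he)
    rw [Finset.mem_Icc]
    omega
  have h4 := Bjc_main h1 h2 hD2
  rw [hDD] at h4
  have h0 : ∀ d ∈ D, 0 ≤ d := fun d hd => by
    have := (Finset.mem_Icc.1 (hD hd)).1
    omega
  have h6 : ∑ n ∈ Finset.range (⌊x⌋₊ + 1), |eqT x D' n| ≤ ε / 2 * ((B.card : ℝ) * x / Real.log x) := by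
    refine le_trans (le_of_eq ?_) (hE D hDB)
    refine Finset.sum_congr rfl fun n _ => ?_
    unfold eqT
    rw [hD', EB_card D h0 (fun d : ℤ => isP ((n : ℤ) - d)),
      EB_card D h0 (fun d : ℤ => Int.gcd ((n : ℤ) - d) (WW (yy x) : ℤ) = 1)]
  have hL0 : (0 : ℝ) < Real.log x := by linarith
  have h7 : Real.log x * ∑ n ∈ Finset.range (⌊x⌋₊ + 1), |eqT x D' n| ≤ ε / 2 * ((B.card : ℝ) * x) := by
    calc _ ≤ Real.log x * (ε / 2 * ((B.card : ℝ) * x / Real.log x)) := mul_le_mul_of_nonneg_left h6 hL0.le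
      _ = ε / 2 * ((B.card : ℝ) * x) := by field_simp
  have h8 := (abs_le.1 h4).2
  have h9 : x ≤ (⌊x⌋₊ : ℝ) + 1 := (Nat.lt_floor_add_one x).le
  have hx0 : 0 ≤ x := by linarith
  have hH0 : (0 : ℝ) ≤ H := Nat.cast_nonneg _
  have h11 : (x ^ (1 / 4 : ℝ) + 2 * H + 1) * ((H : ℝ) * (2 * Real.log x)) ≤ ε / 2 * ((B.card : ℝ) * x) := by
    have q1 : (x ^ (1 / 4 : ℝ) + 2 * H + 1) ≤ (x ^ (1 / 4 : ℝ) + 2 * (Real.log x) ^ 2 + 1) := by linarith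
    have q2 : (H : ℝ) * (2 * Real.log x) ≤ (Real.log x) ^ 2 * (2 * Real.log x) :=
      mul_le_mul_of_nonneg_right hH2 (by positivity)
    have q3 : (0 : ℝ) ≤ x ^ (1 / 4 : ℝ) := Real.rpow_nonneg hx0 _
    calc (x ^ (1 / 4 : ℝ) + 2 * H + 1) * ((H : ℝ) * (2 * Real.log x))
        ≤ (x ^ (1 / 4 : ℝ) + 2 * (Real.log x) ^ 2 + 1) * ((Real.log x) ^ 2 * (2 * Real.log x)) :=
          mul_le_mul q1 q2 (by positivity) (by positivity)
      _ ≤ ε / 2 * x := hlarge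
      _ ≤ ε / 2 * ((B.card : ℝ) * x) := by
          refine mul_le_mul_of_nonneg_left ?_ (by positivity)
          nlinarith
  have h10 : ε * ((B.card : ℝ) * x) ≤ ε * ((⌊x⌋₊ : ℝ) + 1) * (B.card : ℝ) := by
    calc ε * ((B.card : ℝ) * x) = ε * (B.card : ℝ) * x := by ring
      _ ≤ ε * (B.card : ℝ) * ((⌊x⌋₊ : ℝ) + 1) := mul_le_mul_of_nonneg_left h9 (by positivity)
      _ = _ := by ring
  linarith

/-- T2S: sparse sets of shifts -/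
theorem T2S (j k : ℕ) (hj : 2 ≤ j) (hk : 2 ≤ k) (ε M : ℝ) (hε : 0 < ε) (hM : 0 < M) :
    ∃ δ K X : ℝ, 0 < δ ∧ 1 ≤ K ∧ ∀ x : ℝ, X ≤ x →
    ∀ H : ℕ, (H : ℝ) ≤ (Real.log x) ^ 2 →
    ∀ B : Finset ℤ, B ⊆ Finset.Icc 1 (H : ℤ) → K * Real.log x ≤ (B.card : ℝ) →
    (Reg j M B ∧ UB j x B.card B δ ∨ EB x B.card B δ) →
      AAk k x H ε ∧ Equi x H ε ∧ LocFour x H ε := by
  obtain ⟨i, rfl⟩ : ∃ i, j = i + 2 := ⟨j - 2, by omega⟩
  obtain ⟨δa, Ka, Xa, hδa, ha⟩ := T2_out k hk ε hε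
  obtain ⟨δb, Kb, Xb, hδb, hb⟩ := Bk_FL_SW δa hδa
  obtain ⟨δc, Kc, Xc, hδc, hKc, hc⟩ := T2S_SW i (δa / 4) M (by positivity) hM
  obtain ⟨δd, Xd, hδd, hd⟩ := T2S_UB (i + 2) δc hδc
  obtain ⟨δe, Xe, hδe, he⟩ := T2S_EB (δb / 2) (by positivity)
  refine ⟨min δd δe, max 1 (max (max Ka Kb) Kc),
    max (Real.exp 1) (max (max Xa Xb) (max Xc (max Xd Xe))), lt_min hδd hδe, le_max_left _ _, ?_⟩
  intro x hx H hH2 B hB hKB hA
  simp only [max_le_iff] at hx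
  obtain ⟨hxe, ⟨hxa, hxb⟩, hxc, hxd, hxe'⟩ := hx
  have hx1 : 1 ≤ x := by
    have h1 := Real.add_one_le_exp (1 : ℝ)
    linarith
  have hL1 : 1 ≤ Real.log x := by
    have h1 := Real.log_le_log (Real.exp_pos 1) hxe
    rwa [Real.log_exp] at h1
  have hBH : (B.card : ℝ) ≤ (H : ℝ) := by
    have := Finset.card_le_card hB
    rw [Int.card_Icc] at this
    have h2 : B.card ≤ H := by omega
    exact_mod_cast h2
  have hK1 : 1 * Real.log x ≤ (B.card : ℝ) := Bk_log hx1 (le_max_left _ _) hKB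
  have hK' : max (max Ka Kb) Kc * Real.log x ≤ (B.card : ℝ) := Bk_log hx1 (le_max_right _ _) hKB
  have hKab : max Ka Kb * Real.log x ≤ (B.card : ℝ) := Bk_log hx1 (le_max_left _ _) hK'
  have hKc' : Kc * Real.log x ≤ (B.card : ℝ) := Bk_log hx1 (le_max_right _ _) hK'
  have hKa : Ka * Real.log x ≤ (B.card : ℝ) := Bk_log hx1 (le_max_left _ _) hKab
  have hKb : Kb * Real.log x ≤ (B.card : ℝ) := Bk_log hx1 (le_max_right _ _) hKab
  have hB1 : 1 ≤ (B.card : ℝ) := by linarith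
  have hL0 : 0 < Real.log x := by linarith
  have hx0 : 0 ≤ x := by linarith
  refine ha x hxa H (hKa.trans hBH) hH2 ?_
  rcases hA with ⟨hR, hA⟩ | hA
  · have e0 : UB (i + 2) x B.card B δd := by
      unfold UB at hA ⊢
      exact hA.trans (mul_le_mul_of_nonneg_right (min_le_left _ _) (by positivity))
    have e1 := hd x hxd H hH2 B e0
    have e2 := hc x hxc H hH2 B hB hKc' hR e1
    have e3 := T2S_avg2 x hx1 H (δa / 4) (by positivity) B hB (by linarith) e2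
    intro D hD
    have h1 := e3 D hD
    have h2 : 4 * (δa / 4) = δa := by ring
    rwa [h2] at h1
  · have e0 : EB x B.card B δe := by
      intro D hD
      exact (hA D hD).trans (mul_le_mul_of_nonneg_right (min_le_right _ _) (by positivity))
    have e1 := he x hxe' H hH2 B hB hB1 e0
    have e2 := T2S_avg1 x hx1 H (δb / 2) (by positivity) B hB (by linarith) e1
    have e3 : Bk_FL x H δb := by
      intro D hD
      have h1 := e2 D hD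
      have h2 : 2 * (δb / 2) = δb := by ring
      rwa [h2] at h1
    exact hb x hxb H (hKb.trans hBH) hH2 e3

end Pool.Agent.H12.AE
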