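import Pool.Agent.H96.AE.CV
import Pool.Agent.H12.AE.T2F

/-!
# T2Sa: the converse for sparse sets of shifts

The lemmas `CV_A`, `CV_B`, `CV_C` (`Pool/Agent/H96/AE/CV.lean`) for subsets `D` of a set `B ⊆ [1,H]`, normalised by `|B|`.
-/

set_option autoImplicit false

namespace Pool.Agent.H12.AE

open Finset Pool.Agent.H17 Pool.Agent.H6.MF Pool.Agent.H6.MB Pool.Agent.H12.DM Pool.Agent.H6.AE Pool.Agent.H96.AE

lemma T2S_card_le {B D : Finset ℤ} (hD : D ⊆ B) (j : ℕ) :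
    ((Finset.powersetCard j D).card : ℝ) ≤ (B.card : ℝ) ^ j := by
  have h2 := (ISO_card D j).trans (Nat.pow_le_pow_left (Finset.card_le_card hD) j)
  exact_mod_cast h2

lemma T2S_A (i : ℕ) {x C₁ ε₁ K : ℝ} {H : ℕ} {B D : Finset ℤ} (hx : 1 ≤ x) (hK : 1 ≤ K)
    (hKL : K * Real.log x ≤ (B.card : ℝ)) (hD : D ⊆ B) (hC₁ : 0 < C₁)
    (hm : ∑ n ∈ rgH x H, (nf B (La x) (n : ℤ)) ^ (i + 1) ≤
      C₁ * ((⌊x⌋₊ : ℝ) + 1) * (B.card : ℝ) ^ (i + 1))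
    (hs : ∑ C ∈ Finset.powersetCard (i + 2) B, |sing C - sW x C| ≤ ε₁ * (B.card : ℝ) ^ (i + 2))
    (hA : ∑ C ∈ Finset.powersetCard (i + 2) D,
      max 0 (∑ n ∈ rgH x H, ∏ c ∈ C, La x ((n : ℤ) - c) - ((⌊x⌋₊ : ℝ) + 1) * sing C)
      ≤ ε₁ * ((⌊x⌋₊ : ℝ) + 1) * (B.card : ℝ) ^ (i + 2)) :
    ∑ n ∈ rgH x H, (nf D (La x) (n : ℤ)) ^ (i + 2) ≤
      ((i + 2).factorial : ℝ) * (((⌊x⌋₊ : ℝ) + 1) * ∑ C ∈ Finset.powersetCard (i + 2) D, sW x C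
        + 2 * ε₁ * (((⌊x⌋₊ : ℝ) + 1) * (B.card : ℝ) ^ (i + 2)))
      + ((i : ℝ) + 2) ^ 2 * (C₁ / K) * (((⌊x⌋₊ : ℝ) + 1) * (B.card : ℝ) ^ (i + 2)) := by
  set N : ℝ := (⌊x⌋₊ : ℝ) + 1 with hN
  have hN0 : 0 ≤ N := by positivity
  have hH0 : (0 : ℝ) ≤ (B.card : ℝ) := Nat.cast_nonneg _
  have hL0 : 0 ≤ Real.log x := Real.log_nonneg hx
  have hsub : Finset.powersetCard (i + 2) D ⊆ Finset.powersetCard (i + 2) B :=
    Finset.powersetCard_mono hD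
  have h1 : ∀ n : ℕ, (nf D (La x) (n : ℤ)) ^ (i + 2) ≤
      ((i + 2).factorial : ℝ) * (∑ C ∈ Finset.powersetCard (i + 2) D, ∏ c ∈ C, La x ((n : ℤ) - c))
        + ((i : ℝ) + 2) ^ 2 * Real.log x * (nf B (La x) (n : ℤ)) ^ (i + 1) := by
    intro n
    have h := CV_exp_up D (fun d => La x ((n : ℤ) - d)) (Real.log x) (fun d => La_nonneg hx _)
      (fun d => La_le hx _) (i + 1)
    have hle : nf D (La x) (n : ℤ) ≤ nf B (La x) (n : ℤ) :=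
      Finset.sum_le_sum_of_subset_of_nonneg hD (fun _ _ _ => La_nonneg hx _)
    have hnn : 0 ≤ nf D (La x) (n : ℤ) := Finset.sum_nonneg fun _ _ => La_nonneg hx _
    have hp : (nf D (La x) (n : ℤ)) ^ (i + 1) ≤ (nf B (La x) (n : ℤ)) ^ (i + 1) :=
      pow_le_pow_left₀ hnn hle _
    have e1 : (((i + 1 : ℕ) : ℝ) + 1) ^ 2 = ((i : ℝ) + 2) ^ 2 := by push_cast; ring
    rw [e1] at h
    refine h.trans ?_
    exact add_le_add le_rfl (mul_le_mul_of_nonneg_left hp (by positivity))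
  have h2 : ∑ n ∈ rgH x H, (nf D (La x) (n : ℤ)) ^ (i + 2) ≤
      ((i + 2).factorial : ℝ) * (∑ C ∈ Finset.powersetCard (i + 2) D, ∑ n ∈ rgH x H, ∏ c ∈ C, La x ((n : ℤ) - c))
        + ((i : ℝ) + 2) ^ 2 * (Real.log x *
          ∑ n ∈ rgH x H, (nf B (La x) (n : ℤ)) ^ (i + 1)) := by
    rw [Finset.sum_comm, Finset.mul_sum, Finset.mul_sum, Finset.mul_sum, ← Finset.sum_add_distrib]
    refine Finset.sum_le_sum fun n _ => (h1 n).trans (le_of_eq ?_)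
    ring
  have h3 : ∑ C ∈ Finset.powersetCard (i + 2) D, ∑ n ∈ rgH x H, ∏ c ∈ C, La x ((n : ℤ) - c) ≤
      N * ∑ C ∈ Finset.powersetCard (i + 2) D, sW x C + 2 * ε₁ * (N * (B.card : ℝ) ^ (i + 2)) := by
    have a1 : ∑ C ∈ Finset.powersetCard (i + 2) D, ∑ n ∈ rgH x H, ∏ c ∈ C, La x ((n : ℤ) - c) ≤
        ∑ C ∈ Finset.powersetCard (i + 2) D, (N * sW x C + N * |sing C - sW x C| +
          max 0 (∑ n ∈ rgH x H, ∏ c ∈ C, La x ((n : ℤ) - c) - N * sing C)) := by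
      refine Finset.sum_le_sum fun C _ => ?_
      have b1 := le_max_right 0 (∑ n ∈ rgH x H, ∏ c ∈ C, La x ((n : ℤ) - c) - N * sing C)
      have b2 : N * sing C ≤ N * sW x C + N * |sing C - sW x C| := by
        rw [← mul_add]
        apply mul_le_mul_of_nonneg_left _ hN0
        have := le_abs_self (sing C - sW x C)
        linarith
      linarith
    rw [Finset.sum_add_distrib, Finset.sum_add_distrib, ← Finset.mul_sum, ← Finset.mul_sum] at a1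
    have a2 : ∑ C ∈ Finset.powersetCard (i + 2) D, |sing C - sW x C| ≤ ε₁ * (B.card : ℝ) ^ (i + 2) :=
      (Finset.sum_le_sum_of_subset_of_nonneg hsub (fun _ _ _ => abs_nonneg _)).trans hs
    have a3 : ∑ C ∈ Finset.powersetCard (i + 2) D,
        max 0 (∑ n ∈ rgH x H, ∏ c ∈ C, La x ((n : ℤ) - c) - N * sing C) ≤ ε₁ * N * (B.card : ℝ) ^ (i + 2) := hA
    have a4 := mul_le_mul_of_nonneg_left a2 hN0
    linarith
  have h4 : Real.log x * ∑ n ∈ rgH x H, (nf B (La x) (n : ℤ)) ^ (i + 1) ≤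
      (C₁ / K) * (N * (B.card : ℝ) ^ (i + 2)) := by
    have hK0 : 0 < K := by linarith
    have a1 : Real.log x ≤ (B.card : ℝ) / K := by
      rw [le_div_iff₀ hK0]
      linarith
    calc Real.log x * ∑ n ∈ rgH x H, (nf B (La x) (n : ℤ)) ^ (i + 1)
        ≤ Real.log x * (C₁ * N * (B.card : ℝ) ^ (i + 1)) := mul_le_mul_of_nonneg_left hm hL0
      _ ≤ ((B.card : ℝ) / K) * (C₁ * N * (B.card : ℝ) ^ (i + 1)) :=
          mul_le_mul_of_nonneg_right a1 (by positivity)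
      _ = (C₁ / K) * (N * (B.card : ℝ) ^ (i + 2)) := by
          field_simp
          ring
  have h5 : (0 : ℝ) ≤ ((i + 2).factorial : ℝ) := by positivity
  have h6 := mul_le_mul_of_nonneg_left h3 h5
  have h7 := mul_le_mul_of_nonneg_left h4 (show (0 : ℝ) ≤ ((i : ℝ) + 2) ^ 2 by positivity)
  calc ∑ n ∈ rgH x H, (nf D (La x) (n : ℤ)) ^ (i + 2) ≤ _ := h2
    _ ≤ _ := add_le_add h6 h7
    _ = _ := by ring

lemma T2S_B (i : ℕ) {x ε₁ K : ℝ} {H : ℕ} {B D : Finset ℤ} (hK : 1 ≤ K) (hL0 : 0 ≤ Real.log x)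
    (hKL : K * Real.log x ≤ (B.card : ℝ)) (hBH : B ⊆ Finset.Icc 1 (H : ℤ)) (hD : D ⊆ B) (hε₁ : 0 ≤ ε₁) {C₁ : ℝ} (hC₁ : 0 < C₁)
    (hm : ∑ n ∈ rgH x H, (nf B (Mi x) (n : ℤ)) ^ (i + 1) ≤
      C₁ * ((⌊x⌋₊ : ℝ) + 1) * (B.card : ℝ) ^ (i + 1)) (hwp : wp (yy x) ≤ Real.log x)
    (hM : ∀ C : Finset ℤ, C ⊆ Finset.Icc 1 (H : ℤ) → C.card ≤ i + 2 →
      ∑ n ∈ rgH x H, ∏ c ∈ C, Mi x ((n : ℤ) - c) ≤ ((⌊x⌋₊ : ℝ) + 1) * sW x C + ε₁ * ((⌊x⌋₊ : ℝ) + 1)) :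
    ∑ n ∈ rgH x H, (nf D (Mi x) (n : ℤ)) ^ (i + 2) ≤
      ((i + 2).factorial : ℝ) * (((⌊x⌋₊ : ℝ) + 1) * ∑ C ∈ Finset.powersetCard (i + 2) D, sW x C
        + ε₁ * (((⌊x⌋₊ : ℝ) + 1) * (B.card : ℝ) ^ (i + 2)))
      + ((i : ℝ) + 2) ^ 2 * (C₁ / K) * (((⌊x⌋₊ : ℝ) + 1) * (B.card : ℝ) ^ (i + 2)) := by
  set N : ℝ := (⌊x⌋₊ : ℝ) + 1 with hN
  have hN0 : 0 ≤ N := by positivity
  have hb0 : (0 : ℝ) ≤ (B.card : ℝ) := Nat.cast_nonneg _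
  have hK0 : 0 < K := by linarith
  have hwp0 : 0 < wp (yy x) := wp_pos _
  have h1 : ∀ n : ℕ, (nf D (Mi x) (n : ℤ)) ^ (i + 2) ≤
      ((i + 2).factorial : ℝ) * (∑ C ∈ Finset.powersetCard (i + 2) D, ∏ c ∈ C, Mi x ((n : ℤ) - c))
        + ((i : ℝ) + 2) ^ 2 * wp (yy x) * (nf B (Mi x) (n : ℤ)) ^ (i + 1) := by
    intro n
    have h := CV_exp_up D (fun d => Mi x ((n : ℤ) - d)) (wp (yy x)) (fun d => Mi_nonneg _ _)
      (fun d => (Mi_le _ _).trans (Mm_le _ _)) (i + 1)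
    have hle : nf D (Mi x) (n : ℤ) ≤ nf B (Mi x) (n : ℤ) :=
      Finset.sum_le_sum_of_subset_of_nonneg hD (fun _ _ _ => Mi_nonneg _ _)
    have hnn : 0 ≤ nf D (Mi x) (n : ℤ) := Finset.sum_nonneg fun _ _ => Mi_nonneg _ _
    have hp : (nf D (Mi x) (n : ℤ)) ^ (i + 1) ≤ (nf B (Mi x) (n : ℤ)) ^ (i + 1) :=
      pow_le_pow_left₀ hnn hle _
    have e1 : (((i + 1 : ℕ) : ℝ) + 1) ^ 2 = ((i : ℝ) + 2) ^ 2 := by push_cast; ring
    rw [e1] at h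
    refine h.trans ?_
    exact add_le_add le_rfl (mul_le_mul_of_nonneg_left hp (by positivity))
  have h2 : ∑ n ∈ rgH x H, (nf D (Mi x) (n : ℤ)) ^ (i + 2) ≤
      ((i + 2).factorial : ℝ) * (∑ C ∈ Finset.powersetCard (i + 2) D, ∑ n ∈ rgH x H, ∏ c ∈ C, Mi x ((n : ℤ) - c))
        + ((i : ℝ) + 2) ^ 2 * (wp (yy x) *
          ∑ n ∈ rgH x H, (nf B (Mi x) (n : ℤ)) ^ (i + 1)) := by
    rw [Finset.sum_comm, Finset.mul_sum, Finset.mul_sum, Finset.mul_sum, ← Finset.sum_add_distrib]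
    refine Finset.sum_le_sum fun n _ => (h1 n).trans (le_of_eq ?_)
    ring
  have h3 : ∑ C ∈ Finset.powersetCard (i + 2) D, ∑ n ∈ rgH x H, ∏ c ∈ C, Mi x ((n : ℤ) - c) ≤
      N * ∑ C ∈ Finset.powersetCard (i + 2) D, sW x C + ε₁ * (N * (B.card : ℝ) ^ (i + 2)) := by
    have a1 : ∑ C ∈ Finset.powersetCard (i + 2) D, ∑ n ∈ rgH x H, ∏ c ∈ C, Mi x ((n : ℤ) - c) ≤
        ∑ C ∈ Finset.powersetCard (i + 2) D, (N * sW x C + ε₁ * N) := by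
      refine Finset.sum_le_sum fun C hC => ?_
      rw [Finset.mem_powersetCard] at hC
      exact hM C ((hC.1.trans hD).trans hBH) hC.2.le
    rw [Finset.sum_add_distrib, ← Finset.mul_sum, Finset.sum_const, nsmul_eq_mul] at a1
    have a2 := mul_le_mul_of_nonneg_right (T2S_card_le hD (i + 2)) (show 0 ≤ ε₁ * N by positivity)
    linarith
  have h4 : wp (yy x) * ∑ n ∈ rgH x H, (nf B (Mi x) (n : ℤ)) ^ (i + 1) ≤
      (C₁ / K) * (N * (B.card : ℝ) ^ (i + 2)) := by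
    have a1 : wp (yy x) ≤ (B.card : ℝ) / K := by
      rw [le_div_iff₀ hK0]
      nlinarith
    calc wp (yy x) * ∑ n ∈ rgH x H, (nf B (Mi x) (n : ℤ)) ^ (i + 1)
        ≤ wp (yy x) * (C₁ * N * (B.card : ℝ) ^ (i + 1)) := mul_le_mul_of_nonneg_left hm hwp0.le
      _ ≤ ((B.card : ℝ) / K) * (C₁ * N * (B.card : ℝ) ^ (i + 1)) :=
          mul_le_mul_of_nonneg_right a1 (by positivity)
      _ = (C₁ / K) * (N * (B.card : ℝ) ^ (i + 2)) := by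
          field_simp
          ring
  have h6 := mul_le_mul_of_nonneg_left h3 (show (0 : ℝ) ≤ ((i + 2).factorial : ℝ) by positivity)
  have h7 := mul_le_mul_of_nonneg_left h4 (show (0 : ℝ) ≤ ((i : ℝ) + 2) ^ 2 by positivity)
  linarith

lemma T2S_C (i : ℕ) {x ε₁ : ℝ} {H : ℕ} {B D : Finset ℤ} (hx : 1 ≤ x)
    (hBH : B ⊆ Finset.Icc 1 (H : ℤ)) (hD : D ⊆ B) (hε₁ : 0 ≤ ε₁)
    (hLL : ∀ C : Finset ℤ, C ⊆ Finset.Icc 1 (H : ℤ) → C.card ≤ i + 1 → ∀ e ∈ Finset.Icc 1 (H : ℤ) \ C,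
      (1 - ε₁) * ((⌊x⌋₊ : ℝ) + 1) * sW x (insert e C) - ε₁ * ((⌊x⌋₊ : ℝ) + 1) ≤
        ∑ n ∈ rgH x H, (∏ c ∈ C, Mi x ((n : ℤ) - c)) * La x ((n : ℤ) - e)) :
    (1 - ε₁) * ((i + 2).factorial : ℝ) * (((⌊x⌋₊ : ℝ) + 1) * ∑ C ∈ Finset.powersetCard (i + 2) D, sW x C)
      - ((i + 1).factorial : ℝ) * ε₁ * (((⌊x⌋₊ : ℝ) + 1) * (B.card : ℝ) ^ (i + 2)) ≤
    ∑ n ∈ rgH x H, (nf D (Mi x) (n : ℤ)) ^ (i + 1) * nf D (La x) (n : ℤ) := by
  set N : ℝ := (⌊x⌋₊ : ℝ) + 1 with hN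
  have hN0 : 0 ≤ N := by positivity
  have hH0 : (0 : ℝ) ≤ (B.card : ℝ) := Nat.cast_nonneg _
  have h1 : ∀ n : ℕ, ((i + 1).factorial : ℝ) * (∑ C ∈ Finset.powersetCard (i + 1) D, ∑ e ∈ D \ C,
      (∏ c ∈ C, Mi x ((n : ℤ) - c)) * La x ((n : ℤ) - e)) ≤
      (nf D (Mi x) (n : ℤ)) ^ (i + 1) * nf D (La x) (n : ℤ) := by
    intro n
    have a1 := CV_exp_lo D (fun d => Mi x ((n : ℤ) - d)) (fun d => Mi_nonneg _ _) (i + 1)
    have hnn : 0 ≤ nf D (La x) (n : ℤ) := Finset.sum_nonneg fun _ _ => La_nonneg hx _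
    have a2 : ∑ C ∈ Finset.powersetCard (i + 1) D, ∑ e ∈ D \ C,
        (∏ c ∈ C, Mi x ((n : ℤ) - c)) * La x ((n : ℤ) - e) ≤
        (∑ C ∈ Finset.powersetCard (i + 1) D, ∏ c ∈ C, Mi x ((n : ℤ) - c)) * nf D (La x) (n : ℤ) := by
      rw [Finset.sum_mul]
      refine Finset.sum_le_sum fun C _ => ?_
      rw [← Finset.mul_sum]
      apply mul_le_mul_of_nonneg_left _ (Finset.prod_nonneg fun _ _ => Mi_nonneg _ _)
      exact Finset.sum_le_sum_of_subset_of_nonneg Finset.sdiff_subset (fun _ _ _ => La_nonneg hx _)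
    calc ((i + 1).factorial : ℝ) * (∑ C ∈ Finset.powersetCard (i + 1) D, ∑ e ∈ D \ C,
          (∏ c ∈ C, Mi x ((n : ℤ) - c)) * La x ((n : ℤ) - e))
        ≤ ((i + 1).factorial : ℝ) * ((∑ C ∈ Finset.powersetCard (i + 1) D, ∏ c ∈ C, Mi x ((n : ℤ) - c)) *
            nf D (La x) (n : ℤ)) := mul_le_mul_of_nonneg_left a2 (by positivity)
      _ = (((i + 1).factorial : ℝ) * (∑ C ∈ Finset.powersetCard (i + 1) D, ∏ c ∈ C, Mi x ((n : ℤ) - c))) *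
            nf D (La x) (n : ℤ) := by ring
      _ ≤ (nf D (Mi x) (n : ℤ)) ^ (i + 1) * nf D (La x) (n : ℤ) :=
          mul_le_mul_of_nonneg_right a1 hnn
  have h2 : ((i + 1).factorial : ℝ) * (∑ C ∈ Finset.powersetCard (i + 1) D, ∑ e ∈ D \ C,
      ∑ n ∈ rgH x H, (∏ c ∈ C, Mi x ((n : ℤ) - c)) * La x ((n : ℤ) - e)) ≤
      ∑ n ∈ rgH x H, (nf D (Mi x) (n : ℤ)) ^ (i + 1) * nf D (La x) (n : ℤ) := by
    have e1 : ∑ C ∈ Finset.powersetCard (i + 1) D, ∑ e ∈ D \ C,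
        ∑ n ∈ rgH x H, (∏ c ∈ C, Mi x ((n : ℤ) - c)) * La x ((n : ℤ) - e) =
        ∑ n ∈ rgH x H, ∑ C ∈ Finset.powersetCard (i + 1) D, ∑ e ∈ D \ C,
          (∏ c ∈ C, Mi x ((n : ℤ) - c)) * La x ((n : ℤ) - e) := by
      rw [Finset.sum_comm (s := rgH x H)]
      refine Finset.sum_congr rfl fun C _ => ?_
      rw [Finset.sum_comm]
    rw [e1, Finset.mul_sum]
    exact Finset.sum_le_sum fun n _ => h1 n
  have h3 : (1 - ε₁) * N * (((i + 1 : ℕ) : ℝ) + 1) * (∑ C ∈ Finset.powersetCard (i + 2) D, sW x C)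
      - ε₁ * N * (B.card : ℝ) ^ (i + 2) ≤
      ∑ C ∈ Finset.powersetCard (i + 1) D, ∑ e ∈ D \ C,
        ∑ n ∈ rgH x H, (∏ c ∈ C, Mi x ((n : ℤ) - c)) * La x ((n : ℤ) - e) := by
    have a1 : ∑ C ∈ Finset.powersetCard (i + 1) D, ∑ e ∈ D \ C,
        ((1 - ε₁) * N * sW x (insert e C) - ε₁ * N) ≤
        ∑ C ∈ Finset.powersetCard (i + 1) D, ∑ e ∈ D \ C,
        ∑ n ∈ rgH x H, (∏ c ∈ C, Mi x ((n : ℤ) - c)) * La x ((n : ℤ) - e) := by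
      refine Finset.sum_le_sum fun C hC => Finset.sum_le_sum fun e he => ?_
      rw [Finset.mem_powersetCard] at hC
      rw [Finset.mem_sdiff] at he
      exact hLL C ((hC.1.trans hD).trans hBH) hC.2.le e (Finset.mem_sdiff.2 ⟨hBH (hD he.1), he.2⟩)
    have a2 : ∑ C ∈ Finset.powersetCard (i + 1) D, ∑ e ∈ D \ C,
        ((1 - ε₁) * N * sW x (insert e C) - ε₁ * N) =
        (1 - ε₁) * N * ((((i + 1 : ℕ) : ℝ) + 1) * ∑ C ∈ Finset.powersetCard (i + 2) D, sW x C) -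
        ∑ C ∈ Finset.powersetCard (i + 1) D, ((D \ C).card : ℝ) * (ε₁ * N) := by
      have := ISO2 D (i + 1) (fun C => sW x C)
      rw [← this, Finset.mul_sum, ← Finset.sum_sub_distrib]
      refine Finset.sum_congr rfl fun C _ => ?_
      rw [Finset.sum_sub_distrib, Finset.mul_sum, Finset.sum_const, nsmul_eq_mul]
    have a3 : ∑ C ∈ Finset.powersetCard (i + 1) D, ((D \ C).card : ℝ) * (ε₁ * N) ≤
        ε₁ * N * (B.card : ℝ) ^ (i + 2) := by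
      have b1 : ∀ C ∈ Finset.powersetCard (i + 1) D, ((D \ C).card : ℝ) * (ε₁ * N) ≤ (B.card : ℝ) * (ε₁ * N) := by
        intro C _
        apply mul_le_mul_of_nonneg_right _ (by positivity)
        have c1 : (D \ C).card ≤ B.card :=
          Finset.card_le_card (Finset.sdiff_subset.trans hD : D \ C ⊆ _)
        exact_mod_cast c1
      refine (Finset.sum_le_sum b1).trans ?_
      rw [Finset.sum_const, nsmul_eq_mul]
      have b2 := mul_le_mul_of_nonneg_right (T2S_card_le hD (i + 1)) (show 0 ≤ (B.card : ℝ) * (ε₁ * N) by positivity)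
      refine b2.trans (le_of_eq (by ring))
    rw [a2] at a1
    linarith
  have h4 := mul_le_mul_of_nonneg_left h3 (show (0 : ℝ) ≤ ((i + 1).factorial : ℝ) by positivity)
  have e2 : ((i + 2).factorial : ℝ) = ((i : ℝ) + 2) * ((i + 1).factorial : ℝ) := by
    rw [Nat.factorial_succ (i + 1)]
    push_cast
    ring
  refine le_trans (le_of_eq ?_) (h4.trans h2)
  rw [e2]
  push_cast
  ring


end Pool.Agent.H12.AE
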