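import Pool.Agent.H12.AE.T2Sa
import Pool.Agent.H12.AE.T2Ba
import Pool.Agent.H96.AE.CVb

/-!
# T2Sb: sparse regular sets of shifts: the singular series and the moments of the windows

`Reg j M B`: for `i ≤ j` the mean of `Gs j 1 C` over the `i`-element subsets `C` of `B` is at most `M`
(`∑ ≤ M |B|^i`).
-/

set_option autoImplicit false

namespace Pool.Agent.H12.AE

open Finset Pool.Agent.H17 Pool.Agent.H6.MF Pool.Agent.H6.MB Pool.Agent.H12.DM Pool.Agent.H6.AE Pool.Agent.H96.AE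

/-- for `i ≤ j` the sum over the `i`-element subsets `C` of `B` of the product over the pairs `a ≠ a'` in `C` of
`∏_{p ∣ a - a'} (1 + 2^j/p)` is at most `M |B|^i` -/
def Reg (j : ℕ) (M : ℝ) (B : Finset ℤ) : Prop :=
  ∀ i ≤ j, ∑ C ∈ Finset.powersetCard i B, Gs j 1 C ≤ M * (B.card : ℝ) ^ i

lemma gfB_anti {b : ℝ} (hb : 0 ≤ b) {y y' : ℕ} (h : y ≤ y') (n : ℤ) : gfB b y' n ≤ gfB b y n := by
  unfold gfB
  have hsub : n.natAbs.primeFactors.filter (fun p => y' < p) ⊆ n.natAbs.primeFactors.filter (fun p => y < p) := by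
    intro p hp
    rw [Finset.mem_filter] at hp ⊢
    exact ⟨hp.1, lt_of_le_of_lt h hp.2⟩
  have hone : ∀ p : ℕ, (1 : ℝ) ≤ 1 + b / (p : ℝ) := by
    intro p
    have : 0 ≤ b / (p : ℝ) := by positivity
    linarith
  rw [← Finset.prod_sdiff hsub]
  have h1 : (1 : ℝ) ≤ ∏ p ∈ n.natAbs.primeFactors.filter (fun p => y < p) \
      n.natAbs.primeFactors.filter (fun p => y' < p), (1 + b / (p : ℝ)) :=
    Finset.one_le_prod fun p _ => hone p
  have h2 : (0 : ℝ) ≤ ∏ p ∈ n.natAbs.primeFactors.filter (fun p => y' < p), (1 + b / (p : ℝ)) :=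
    Finset.prod_nonneg fun p _ => zero_le_one.trans (hone p)
  nlinarith

lemma Gs_anti (m : ℕ) {y y' : ℕ} (h : y ≤ y') (s : Finset ℤ) : Gs m y' s ≤ Gs m y s := by
  unfold Gs
  refine Finset.prod_le_prod (fun q _ => zero_le_one.trans (one_le_gfm _ _ _)) fun q _ => ?_
  exact gfB_anti (by positivity) h _

/-- the large primes dividing one difference contribute nothing -/
theorem T2S_gfm (m : ℕ) (η : ℝ) (hη : 0 < η) : ∃ X : ℝ, ∀ x : ℝ, X ≤ x → ∀ h : ℤ, h ≠ 0 →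
    (|h| : ℝ) ≤ (Real.log x) ^ 2 → gfm m (yy x) h ≤ 1 + η := by
  -- the condition on `w`
  have hlim : Filter.Tendsto (fun w : ℝ => Real.log w) Filter.atTop Filter.atTop := Real.tendsto_log_atTop
  obtain ⟨W, hW⟩ := Filter.eventually_atTop.1
    (hlim.eventually_ge_atTop (2 ^ m * 400 / Real.log (1 + η) + 1))
  obtain ⟨X1, hX1⟩ := Filter.eventually_atTop.1 (tendsto_yy.eventually_ge_atTop (max 2 ⌈W⌉₊))
  refine ⟨max X1 (Real.exp 1), fun x hx h hh0 hh => ?_⟩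
  have hx1 := hX1 x ((le_max_left _ _).trans hx)
  have hxe : Real.exp 1 ≤ x := (le_max_right _ _).trans hx
  have hL1 : 1 ≤ Real.log x := by
    have h1 := Real.log_le_log (Real.exp_pos 1) hxe
    rwa [Real.log_exp] at h1
  obtain ⟨w, hw⟩ : ∃ w : ℕ, w = yy x := ⟨_, rfl⟩
  rw [← hw] at hx1 ⊢
  have hw2 : 2 ≤ w := (le_max_left _ _).trans hx1
  have hwW : W ≤ (w : ℝ) := (Nat.le_ceil W).trans (by exact_mod_cast (le_max_right _ _).trans hx1)
  have hlogw : 2 ^ m * 400 / Real.log (1 + η) + 1 ≤ Real.log (w : ℝ) := hW _ hwW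
  have hlη : 0 < Real.log (1 + η) := Real.log_pos (by linarith)
  have hlw0 : 0 < Real.log (w : ℝ) := lt_of_lt_of_le (by positivity) hlogw
  have hw2r : (2 : ℝ) ≤ (w : ℝ) := by exact_mod_cast hw2
  have hw0 : (0 : ℝ) < (w : ℝ) := by linarith
  -- the set of primes
  set S := h.natAbs.primeFactors.filter (fun p => w < p) with hS
  have hn0 : h.natAbs ≠ 0 := Int.natAbs_ne_zero.2 hh0
  have hprod : (∏ p ∈ S, p) ≤ h.natAbs := by
    have h1 : (∏ p ∈ S, p) ∣ h.natAbs := by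
      refine dvd_trans (Finset.prod_dvd_prod_of_subset _ _ _ (Finset.filter_subset _ _)) ?_
      exact Nat.prod_primeFactors_dvd _
    exact Nat.le_of_dvd (Nat.pos_of_ne_zero hn0) h1
  have hpow : w ^ S.card ≤ ∏ p ∈ S, p := by
    refine Finset.pow_card_le_prod _ _ _ fun p hp => ?_
    exact (Finset.mem_filter.1 hp).2.le
  have hcard : (S.card : ℝ) * Real.log (w : ℝ) ≤ 2 * Real.log (Real.log x) := by
    have h1 : ((w ^ S.card : ℕ) : ℝ) ≤ (h.natAbs : ℝ) := by exact_mod_cast hpow.trans hprod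
    have h2 : (h.natAbs : ℝ) = |(h : ℝ)| := by
      rw [Nat.cast_natAbs]
      push_cast
      rfl
    have h3 : ((w : ℝ)) ^ S.card ≤ (Real.log x) ^ 2 := by
      have := h1.trans ((le_of_eq h2).trans hh)
      push_cast at this
      exact this
    have h4 := Real.log_le_log (by positivity) h3
    rw [Real.log_pow, Real.log_pow] at h4
    push_cast at h4
    exact h4
  -- `log log x < 100 (w + 1)`
  have hll : Real.log (Real.log x) ≤ 200 * (w : ℝ) := by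
    have h1 : Real.log (Real.log x) / 100 < (⌊Real.log (Real.log x) / 100⌋₊ : ℝ) + 1 := Nat.lt_floor_add_one _
    have h2 : (w : ℝ) = (⌊Real.log (Real.log x) / 100⌋₊ : ℝ) := by rw [hw]; rfl
    rw [← h2] at h1
    linarith
  -- the product
  have hterm : gfm m w h ≤ Real.exp ((S.card : ℝ) * (2 ^ m / (w : ℝ))) := by
    unfold gfm gfB
    rw [← hS]
    have h1 : ∀ p ∈ S, (1 + 2 ^ m / (p : ℝ)) ≤ Real.exp (2 ^ m / (w : ℝ)) := by
      intro p hp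
      have hp' : (w : ℝ) ≤ (p : ℝ) := by exact_mod_cast (Finset.mem_filter.1 hp).2.le
      have h2 : (2 : ℝ) ^ m / (p : ℝ) ≤ 2 ^ m / (w : ℝ) :=
        div_le_div_of_nonneg_left (by positivity) hw0 hp'
      have h3 := Real.add_one_le_exp ((2 : ℝ) ^ m / (w : ℝ))
      linarith
    calc ∏ p ∈ S, (1 + 2 ^ m / (p : ℝ)) ≤ ∏ _p ∈ S, Real.exp (2 ^ m / (w : ℝ)) :=
          Finset.prod_le_prod (fun p _ => by positivity) h1
      _ = Real.exp ((S.card : ℝ) * (2 ^ m / (w : ℝ))) := by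
          rw [Finset.prod_const, ← Real.exp_nat_mul]
  refine hterm.trans ?_
  have h5 : (S.card : ℝ) * (2 ^ m / (w : ℝ)) ≤ Real.log (1 + η) := by
    have h6 : (S.card : ℝ) ≤ 400 * (w : ℝ) / Real.log (w : ℝ) := by
      rw [le_div_iff₀ hlw0]
      linarith
    calc (S.card : ℝ) * (2 ^ m / (w : ℝ)) ≤ (400 * (w : ℝ) / Real.log (w : ℝ)) * (2 ^ m / (w : ℝ)) :=
          mul_le_mul_of_nonneg_right h6 (by positivity)
      _ = 2 ^ m * 400 / Real.log (w : ℝ) := by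
          field_simp
      _ ≤ Real.log (1 + η) := by
          rw [div_le_iff₀ hlw0]
          have h7 : 2 ^ m * 400 / Real.log (1 + η) ≤ Real.log (w : ℝ) := by linarith
          rw [div_le_iff₀ hlη] at h7
          linarith
  calc Real.exp ((S.card : ℝ) * (2 ^ m / (w : ℝ))) ≤ Real.exp (Real.log (1 + η)) := Real.exp_le_exp.2 h5
    _ = 1 + η := Real.exp_log (by linarith)

/-- the large primes dividing a difference contribute nothing -/
theorem T2S_Gs (k : ℕ) (η : ℝ) (hη : 0 < η) : ∃ X : ℝ, ∀ x : ℝ, X ≤ x → ∀ H : ℕ, (H : ℝ) ≤ (Real.log x) ^ 2 →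
    ∀ s : Finset ℤ, s ⊆ Finset.Icc 1 (H : ℤ) → s.card ≤ k → Gs k (yy x) s ≤ 1 + η := by
  have hlη : 0 < Real.log (1 + η) := Real.log_pos (by linarith)
  obtain ⟨X, hX⟩ := T2S_gfm k (Real.exp (Real.log (1 + η) / ((k : ℝ) ^ 2 + 1)) - 1) (by
    have h1 : 0 < Real.log (1 + η) / ((k : ℝ) ^ 2 + 1) := by positivity
    have h2 := Real.add_one_lt_exp h1.ne'
    linarith)
  refine ⟨X, fun x hx H hH s hs hk => ?_⟩
  have h1 : ∀ q ∈ s.offDiag, gfm k (yy x) (q.1 - q.2) ≤ Real.exp (Real.log (1 + η) / ((k : ℝ) ^ 2 + 1)) := by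
    intro q hq
    obtain ⟨h1, h2, h3⟩ := Finset.mem_offDiag.1 hq
    have e1 := Finset.mem_Icc.1 (hs h1)
    have e2 := Finset.mem_Icc.1 (hs h2)
    have h4 := hX x hx (q.1 - q.2) (sub_ne_zero.2 h3) (by
      refine le_trans ?_ hH
      have h5 : |q.1 - q.2| ≤ (H : ℤ) := by
        rw [abs_le]
        constructor <;> omega
      have h6 : ((|q.1 - q.2| : ℤ) : ℝ) ≤ ((H : ℤ) : ℝ) := by exact_mod_cast h5
      push_cast at h6 ⊢
      exact h6)
    linarith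
  unfold Gs
  calc ∏ q ∈ s.offDiag, gfm k (yy x) (q.1 - q.2) ≤ ∏ _q ∈ s.offDiag, Real.exp (Real.log (1 + η) / ((k : ℝ) ^ 2 + 1)) :=
        Finset.prod_le_prod (fun q _ => zero_le_one.trans (one_le_gfm _ _ _)) h1
    _ = Real.exp ((s.offDiag.card : ℝ) * (Real.log (1 + η) / ((k : ℝ) ^ 2 + 1))) := by
        rw [Finset.prod_const, ← Real.exp_nat_mul]
    _ ≤ Real.exp (Real.log (1 + η)) := by
        apply Real.exp_le_exp.2
        have h2 : (s.offDiag.card : ℝ) ≤ (k : ℝ) ^ 2 := by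
          rw [Finset.offDiag_card]
          have h3 : s.card * s.card - s.card ≤ k ^ 2 := by
            calc s.card * s.card - s.card ≤ s.card * s.card := Nat.sub_le _ _
              _ ≤ k * k := Nat.mul_le_mul hk hk
              _ = k ^ 2 := by ring
          exact_mod_cast h3
        rw [← mul_div_assoc, div_le_iff₀ (by positivity)]
        nlinarith
    _ = 1 + η := Real.exp_log (by linarith)

/-- the truncated singular series and the singular series, uniformly -/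
theorem T2S_sing (k : ℕ) (η : ℝ) (hη : 0 < η) : ∃ X : ℝ, ∀ x : ℝ, X ≤ x → ∀ H : ℕ, (H : ℝ) ≤ (Real.log x) ^ 2 →
    ∀ s : Finset ℤ, s ⊆ Finset.Icc 1 (H : ℤ) → 1 ≤ s.card → s.card ≤ k → |sing s - sW x s| ≤ η * Gs k 1 s := by
  obtain ⟨X1, hX1⟩ := T2S_Gs k (η / (8 * ((k : ℝ) + 1) ^ 2)) (by positivity)
  obtain ⟨X2, hX2⟩ := Filter.eventually_atTop.1
    (tendsto_yy.eventually_ge_atTop (⌈8 * ((k : ℝ) + 1) ^ 2 / η⌉₊ + 1))
  refine ⟨max X1 X2, fun x hx H hH s hs h1 hk => ?_⟩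
  have e1 := hX1 x ((le_max_left _ _).trans hx) H hH s hs hk
  have e2 := hX2 x ((le_max_right _ _).trans hx)
  have hy1 : 1 ≤ yy x := le_trans (by omega) e2
  have e3 := Sgm_point hy1 (le_refl (yy x)) h1 hk
  have hG : (0 : ℝ) ≤ Gs k 1 s := zero_le_one.trans (one_le_Gs k 1 s)
  have e4 : 1 / ((yy x : ℕ) : ℝ) ≤ η / (8 * ((k : ℝ) + 1) ^ 2) := by
    have h2 : 8 * ((k : ℝ) + 1) ^ 2 / η ≤ ((yy x : ℕ) : ℝ) := by
      refine (Nat.le_ceil _).trans ?_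
      exact_mod_cast (by omega : ⌈8 * ((k : ℝ) + 1) ^ 2 / η⌉₊ ≤ yy x)
    have h3 : (0 : ℝ) < ((yy x : ℕ) : ℝ) := by exact_mod_cast hy1
    rw [div_le_iff₀ hη] at h2
    rw [div_le_div_iff₀ h3 (by positivity)]
    linarith
  rw [abs_sub_comm, sW_eq_Sy]
  refine e3.trans ?_
  change 4 * ((k : ℝ) + 1) ^ 2 * Gs k 1 s * (1 / ((yy x : ℕ) : ℝ) + (Gs k (yy x) s - 1)) ≤ η * Gs k 1 s
  have e5 : 1 / ((yy x : ℕ) : ℝ) + (Gs k (yy x) s - 1) ≤ η / (4 * ((k : ℝ) + 1) ^ 2) := by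
    have : η / (8 * ((k : ℝ) + 1) ^ 2) + η / (8 * ((k : ℝ) + 1) ^ 2) = η / (4 * ((k : ℝ) + 1) ^ 2) := by
      field_simp
      norm_num
    linarith
  calc 4 * ((k : ℝ) + 1) ^ 2 * Gs k 1 s * (1 / ((yy x : ℕ) : ℝ) + (Gs k (yy x) s - 1))
      ≤ 4 * ((k : ℝ) + 1) ^ 2 * Gs k 1 s * (η / (4 * ((k : ℝ) + 1) ^ 2)) :=
        mul_le_mul_of_nonneg_left e5 (by positivity)
    _ = η * Gs k 1 s := by
        field_simp

/-- the truncated singular series is at most `Gs` -/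
lemma T2S_sW_le {k : ℕ} (x : ℝ) {s : Finset ℤ} (h1 : 1 ≤ s.card) (hk : s.card ≤ k) : sW x s ≤ Gs k 1 s := by
  rw [sW_eq_Sy]
  exact Sy_le (yy x) h1 hk

/-- all moments of the windows over a regular set -/
theorem T2S_mom (j : ℕ) (hj : 2 ≤ j) (M : ℝ) (hM : 0 < M) : ∀ i : ℕ, i ≤ j → ∃ C X : ℝ, 0 < C ∧ ∀ x : ℝ, X ≤ x → ∀ H : ℕ,
    (H : ℝ) ≤ (Real.log x) ^ 2 → ∀ B : Finset ℤ, Real.log x ≤ (B.card : ℝ) → Reg j M B →
    ∀ f : ℤ → ℝ, (∀ n, 0 ≤ f n) → (∀ n, f n ≤ Real.log x) → (∀ n, f n ≤ Bm 3 x n) →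
    ∑ n ∈ rgH x H, (nf B f (n : ℤ)) ^ i ≤ C * ((⌊x⌋₊ : ℝ) + 1) * (B.card : ℝ) ^ i := by
  obtain ⟨X0, hX01, hX0⟩ := CVb_H
  intro i
  induction i with
  | zero =>
    intro _
    refine ⟨2, X0, by norm_num, fun x hx H hH B _ _ f _ _ _ => ?_⟩
    have h1 := hX0 x hx H (by nlinarith [sq_nonneg (Real.log x)])
    simp only [pow_zero, Finset.sum_const, nsmul_eq_mul, mul_one]
    unfold rgH
    rw [Finset.card_range]
    push_cast
    linarith
  | succ i ih =>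
    intro hij
    obtain ⟨Ci, Xi, hCi, hi⟩ := ih (by omega)
    obtain ⟨b, hb⟩ := Num j
    obtain ⟨X1, hX1⟩ := hb b le_rfl
    obtain ⟨X2, hX2⟩ := BMU j b 3 3 le_rfl
    obtain ⟨C1, hC1, hCS⟩ := CSm j hj
    obtain ⟨X3, hX3⟩ := hCS b 3 3 le_rfl le_rfl
    set P : ℝ := (1 / dlm j b + 5) * wp 3 with hP
    have hdl := dlm_pos j b
    have hwp := wp_pos 3
    have hP0 : 0 < P := by positivity
    refine ⟨((i + 1).factorial : ℝ) * (P ^ (i + 1) * (C1 * 2 * M)) + ((i : ℝ) + 1) ^ 2 * Ci,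
      max (max X0 Xi) (max X1 (max X2 X3)), by positivity, fun x hx H hH B hlB hR f hf0 hfL hfB => ?_⟩
    have hx0 : X0 ≤ x := le_trans (le_trans (le_max_left _ _) (le_max_left _ _)) hx
    have hxi : Xi ≤ x := le_trans (le_trans (le_max_right _ _) (le_max_left _ _)) hx
    have hx1 : X1 ≤ x := le_trans (le_trans (le_max_left _ _) (le_max_right _ _)) hx
    have hx2 : X2 ≤ x := le_trans (le_trans (le_trans (le_max_left _ _) (le_max_right _ _)) (le_max_right _ _)) hx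
    have hx3 : X3 ≤ x := le_trans (le_trans (le_trans (le_max_right _ _) (le_max_right _ _)) (le_max_right _ _)) hx
    have hxx : 1 ≤ x := hX01.trans hx0
    have hHN := hX0 x hx0 H (by nlinarith [sq_nonneg (Real.log x)])
    have hlog : 0 ≤ Real.log x := Real.log_nonneg hxx
    obtain ⟨V, hV⟩ := hX1 x hx1
    have hBM := hX2 x hx2 V hV
    have hN : x ≤ ((⌊x⌋₊ + 1 + H : ℕ) : ℝ) := by
      have h7 := Nat.lt_floor_add_one x
      push_cast
      have : (0 : ℝ) ≤ H := Nat.cast_nonneg H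
      linarith
    have hI := hi x hxi H hH B hlB hR f hf0 hfL hfB
    have hb0 : (0 : ℝ) ≤ (B.card : ℝ) := Nat.cast_nonneg _
    -- pointwise expansion
    have h1 : ∀ n : ℕ, (nf B f (n : ℤ)) ^ (i + 1) ≤
        ((i + 1).factorial : ℝ) * (∑ C ∈ Finset.powersetCard (i + 1) B, ∏ c ∈ C, f ((n : ℤ) - c))
        + ((i : ℝ) + 1) ^ 2 * Real.log x * (nf B f (n : ℤ)) ^ i := fun n =>
      CV_exp_up B (fun d => f ((n : ℤ) - d)) (Real.log x) (fun d => hf0 _) (fun d => hfL _) i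
    have h2 : ∀ n : ℕ, ∀ C ∈ Finset.powersetCard (i + 1) B, ∏ c ∈ C, f ((n : ℤ) - c) ≤
        P ^ (i + 1) * ∏ c ∈ C, uu 3 3 x V ((n : ℤ) - c) := by
      intro n C hC
      have hcard := (Finset.mem_powersetCard.1 hC).2
      calc ∏ c ∈ C, f ((n : ℤ) - c) ≤ ∏ c ∈ C, (P * uu 3 3 x V ((n : ℤ) - c)) :=
            Finset.prod_le_prod (fun c _ => hf0 _) (fun c _ => (hfB _).trans (hBM _))
        _ = P ^ (i + 1) * ∏ c ∈ C, uu 3 3 x V ((n : ℤ) - c) := by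
            rw [Finset.prod_mul_distrib, Finset.prod_const, hcard]
    have hSC : ∀ C ∈ Finset.powersetCard (i + 1) B, ∑ n ∈ Finset.range (⌊x⌋₊ + 1 + H), ∏ c ∈ C, uu 3 3 x V ((n : ℤ) - c) ≤
        C1 * ((⌊x⌋₊ + 1 + H : ℕ) : ℝ) * Gs j 1 C := by
      intro C hC
      have hcard := (Finset.mem_powersetCard.1 hC).2
      have h5 := hX3 x hx3 V hV C (by rw [hcard]; exact hij) (fun _ => 1) (fun _ => ⟨le_rfl, by norm_num⟩)
        (by simp) (⌊x⌋₊ + 1 + H) hN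
      simp only [pow_one, Nat.sub_self, Finset.sum_const_zero, pow_zero, mul_one] at h5
      refine h5.trans ?_
      exact mul_le_mul_of_nonneg_left (Gs_anti j (by norm_num) C) (by positivity)
    have h3 : ∑ n ∈ rgH x H, ∑ C ∈ Finset.powersetCard (i + 1) B, ∏ c ∈ C, f ((n : ℤ) - c) ≤
        P ^ (i + 1) * (C1 * ((⌊x⌋₊ + 1 + H : ℕ) : ℝ) * (M * (B.card : ℝ) ^ (i + 1))) := by
      calc ∑ n ∈ rgH x H, ∑ C ∈ Finset.powersetCard (i + 1) B, ∏ c ∈ C, f ((n : ℤ) - c)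
          ≤ ∑ n ∈ rgH x H, ∑ C ∈ Finset.powersetCard (i + 1) B,
            P ^ (i + 1) * ∏ c ∈ C, uu 3 3 x V ((n : ℤ) - c) :=
            Finset.sum_le_sum fun n _ => Finset.sum_le_sum fun C hC => h2 n C hC
        _ = P ^ (i + 1) * ∑ C ∈ Finset.powersetCard (i + 1) B,
            ∑ n ∈ Finset.range (⌊x⌋₊ + 1 + H), ∏ c ∈ C, uu 3 3 x V ((n : ℤ) - c) := by
            rw [Finset.sum_comm, Finset.mul_sum]
            refine Finset.sum_congr rfl fun C _ => ?_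
            rw [Finset.mul_sum]
            rfl
        _ ≤ P ^ (i + 1) * ∑ C ∈ Finset.powersetCard (i + 1) B, C1 * ((⌊x⌋₊ + 1 + H : ℕ) : ℝ) * Gs j 1 C :=
            mul_le_mul_of_nonneg_left (Finset.sum_le_sum hSC) (by positivity)
        _ ≤ P ^ (i + 1) * (C1 * ((⌊x⌋₊ + 1 + H : ℕ) : ℝ) * (M * (B.card : ℝ) ^ (i + 1))) := by
            rw [← Finset.mul_sum]
            refine mul_le_mul_of_nonneg_left (mul_le_mul_of_nonneg_left (hR (i + 1) hij) (by positivity)) (by positivity)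
    have h4 : ∑ n ∈ rgH x H, (nf B f (n : ℤ)) ^ (i + 1) ≤
        ((i + 1).factorial : ℝ) * (∑ n ∈ rgH x H, ∑ C ∈ Finset.powersetCard (i + 1) B,
          ∏ c ∈ C, f ((n : ℤ) - c))
        + ((i : ℝ) + 1) ^ 2 * Real.log x * ∑ n ∈ rgH x H, (nf B f (n : ℤ)) ^ i := by
      rw [Finset.mul_sum, Finset.mul_sum, ← Finset.sum_add_distrib]
      exact Finset.sum_le_sum fun n _ => h1 n
    have hN0 : (0 : ℝ) ≤ (⌊x⌋₊ : ℝ) + 1 := by positivity
    have h5 : ((⌊x⌋₊ + 1 + H : ℕ) : ℝ) ≤ 2 * ((⌊x⌋₊ : ℝ) + 1) := by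
      push_cast
      linarith
    have h6 : P ^ (i + 1) * (C1 * ((⌊x⌋₊ + 1 + H : ℕ) : ℝ) * (M * (B.card : ℝ) ^ (i + 1))) ≤
        P ^ (i + 1) * (C1 * 2 * M) * ((⌊x⌋₊ : ℝ) + 1) * (B.card : ℝ) ^ (i + 1) := by
      have e1 : C1 * ((⌊x⌋₊ + 1 + H : ℕ) : ℝ) ≤ C1 * (2 * ((⌊x⌋₊ : ℝ) + 1)) :=
        mul_le_mul_of_nonneg_left h5 hC1.le
      have e2 : C1 * ((⌊x⌋₊ + 1 + H : ℕ) : ℝ) * (M * (B.card : ℝ) ^ (i + 1)) ≤
          C1 * (2 * ((⌊x⌋₊ : ℝ) + 1)) * (M * (B.card : ℝ) ^ (i + 1)) :=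
        mul_le_mul_of_nonneg_right e1 (by positivity)
      have e3 := mul_le_mul_of_nonneg_left e2 (show (0 : ℝ) ≤ P ^ (i + 1) by positivity)
      refine e3.trans (le_of_eq (by ring))
    have h7 : Real.log x * ∑ n ∈ rgH x H, (nf B f (n : ℤ)) ^ i ≤
        Ci * ((⌊x⌋₊ : ℝ) + 1) * (B.card : ℝ) ^ (i + 1) := by
      have e1 : Real.log x * ∑ n ∈ rgH x H, (nf B f (n : ℤ)) ^ i ≤
          (B.card : ℝ) * (Ci * ((⌊x⌋₊ : ℝ) + 1) * (B.card : ℝ) ^ i) :=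
        (mul_le_mul_of_nonneg_left hI hlog).trans (mul_le_mul_of_nonneg_right hlB (by positivity))
      refine e1.trans (le_of_eq (by ring))
    have h8 : ((i + 1).factorial : ℝ) * (∑ n ∈ rgH x H, ∑ C ∈ Finset.powersetCard (i + 1) B,
          ∏ c ∈ C, f ((n : ℤ) - c)) ≤
        ((i + 1).factorial : ℝ) * (P ^ (i + 1) * (C1 * 2 * M) * ((⌊x⌋₊ : ℝ) + 1) * (B.card : ℝ) ^ (i + 1)) :=
      mul_le_mul_of_nonneg_left (h3.trans h6) (by positivity)
    have h9 : ((i : ℝ) + 1) ^ 2 * Real.log x * ∑ n ∈ rgH x H, (nf B f (n : ℤ)) ^ i ≤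
        ((i : ℝ) + 1) ^ 2 * (Ci * ((⌊x⌋₊ : ℝ) + 1) * (B.card : ℝ) ^ (i + 1)) := by
      rw [mul_assoc]
      exact mul_le_mul_of_nonneg_left h7 (by positivity)
    calc ∑ n ∈ rgH x H, (nf B f (n : ℤ)) ^ (i + 1)
        ≤ ((i + 1).factorial : ℝ) * (P ^ (i + 1) * (C1 * 2 * M) * ((⌊x⌋₊ : ℝ) + 1) * (B.card : ℝ) ^ (i + 1)) +
          ((i : ℝ) + 1) ^ 2 * (Ci * ((⌊x⌋₊ : ℝ) + 1) * (B.card : ℝ) ^ (i + 1)) := h4.trans (add_le_add h8 h9)
      _ = _ := by ring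

end Pool.Agent.H12.AE
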