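import Pool.Agent.H12.AE.T2S
import Pool.Agent.H12.AE.Eq
import Pool.Agent.H96.AE.OBm
import Pool.Agent.H6.AE.Gam

/-!
# T2V: regular sets of shifts; final form of T2 (`MP_1039f5_AE`, version 2)
-/

set_option autoImplicit false

namespace Pool.Agent.H12.AE

open Finset Pool.Agent.H17 Pool.Agent.H6.MF Pool.Agent.H6.MB Pool.Agent.H12.DM Pool.Agent.H6.AE Pool.Agent.H96.AE

/-- `|h| / φ(|h|)` -/
noncomputable def rho (h : ℤ) : ℝ := (h.natAbs : ℝ) / (h.natAbs.totient : ℝ)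

/-- regular sets of shifts: `B` has density at least `1/M` in some interval, or the mean of `(|h|/φ(|h|))^s`,
`s = j^2 2^j`, over the differences `h ≠ 0` of elements of `B` is at most `M` -/
def Regular (j : ℕ) (M : ℝ) (B : Finset ℤ) : Prop :=
  (∃ (u : ℤ) (h : ℕ), B ⊆ Finset.Icc (u + 1) (u + h) ∧ (h : ℝ) ≤ M * (B.card : ℝ)) ∨
  ∑ q ∈ B.offDiag, rho (q.1 - q.2) ^ (j ^ 2 * 2 ^ j) ≤ M * (B.card : ℝ) ^ 2

lemma one_le_rho {h : ℤ} (hh : h ≠ 0) : 1 ≤ rho h := by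
  unfold rho
  have h1 : 0 < h.natAbs := Int.natAbs_pos.2 hh
  have h2 : (0 : ℝ) < (h.natAbs.totient : ℝ) := by exact_mod_cast Nat.totient_pos.2 h1
  rw [one_le_div h2]
  exact_mod_cast Nat.totient_le _

lemma gfm_le_rho (j : ℕ) {h : ℤ} (hh : h ≠ 0) : gfm j 1 h ≤ rho h ^ (2 ^ j) := by
  have hn : h.natAbs ≠ 0 := Int.natAbs_ne_zero.2 hh
  have h1 : rho h = ∏ p ∈ h.natAbs.primeFactors, (1 - (p : ℝ)⁻¹)⁻¹ := by
    unfold rho
    have e1 : ((h.natAbs.totient : ℕ) : ℝ) = (h.natAbs : ℝ) * ∏ p ∈ h.natAbs.primeFactors, (1 - (p : ℝ)⁻¹) := by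
      have := Nat.totient_eq_mul_prod_factors h.natAbs
      have h2 : (((h.natAbs.totient : ℕ) : ℚ) : ℝ) = ((((h.natAbs : ℕ) : ℚ) *
          ∏ p ∈ h.natAbs.primeFactors, (1 - (p : ℚ)⁻¹) : ℚ) : ℝ) := by rw [this]
      push_cast at h2
      exact h2
    have hn0 : (h.natAbs : ℝ) ≠ 0 := by exact_mod_cast hn
    rw [e1, Finset.prod_inv_distrib, div_mul_eq_div_div, div_self hn0, one_div]
  rw [h1, ← Finset.prod_pow]
  unfold gfm gfB
  have hfil : h.natAbs.primeFactors.filter (fun p => 1 < p) = h.natAbs.primeFactors := by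
    refine Finset.filter_true_of_mem fun p hp => ?_
    exact (Nat.prime_of_mem_primeFactors hp).one_lt
  rw [hfil]
  refine Finset.prod_le_prod (fun p _ => by positivity) fun p hp => ?_
  have hp2 : (2 : ℝ) ≤ (p : ℝ) := by exact_mod_cast (Nat.prime_of_mem_primeFactors hp).two_le
  have hp0 : (0 : ℝ) < (p : ℝ) := by linarith
  have h2 : 1 + ((2 ^ j : ℕ) : ℝ) * (1 / (p : ℝ)) ≤ (1 + 1 / (p : ℝ)) ^ (2 ^ j) :=
    one_add_mul_le_pow (by have : 0 ≤ 1 / (p : ℝ) := by positivity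
                           linarith) (2 ^ j)
  have h3 : 1 + (2 : ℝ) ^ j / (p : ℝ) = 1 + ((2 ^ j : ℕ) : ℝ) * (1 / (p : ℝ)) := by
    push_cast
    ring
  rw [h3]
  refine h2.trans (pow_le_pow_left₀ (by positivity) ?_ _)
  have h4 : 0 < 1 - (p : ℝ)⁻¹ := by
    have : (p : ℝ)⁻¹ ≤ 1 / 2 := by
      rw [inv_le_comm₀ hp0 (by norm_num)]
      linarith
    linarith
  rw [← one_div (1 - (p : ℝ)⁻¹), le_div_iff₀ h4, one_div]
  have h5 : 0 ≤ (p : ℝ)⁻¹ := by positivity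
  nlinarith

/-- a product is at most the sum of the powers -/
lemma T2V_prod (O : Finset (ℤ × ℤ)) (g : ℤ × ℤ → ℝ) (hg : ∀ q ∈ O, 1 ≤ g q) (hO : O.Nonempty) {n : ℕ}
    (hn : O.card ≤ n) : ∏ q ∈ O, g q ≤ ∑ q ∈ O, g q ^ n := by
  obtain ⟨q₀, hq₀, hmax⟩ := Finset.exists_max_image O g hO
  have h0 : 1 ≤ g q₀ := hg q₀ hq₀
  calc ∏ q ∈ O, g q ≤ ∏ _q ∈ O, g q₀ :=
        Finset.prod_le_prod (fun q hq => zero_le_one.trans (hg q hq)) fun q hq => hmax q hq
    _ = g q₀ ^ O.card := by rw [Finset.prod_const]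
    _ ≤ g q₀ ^ n := pow_le_pow_right₀ h0 hn
    _ ≤ ∑ q ∈ O, g q ^ n :=
        Finset.single_le_sum (f := fun q => g q ^ n) (fun q hq => pow_nonneg (zero_le_one.trans (hg q hq)) n) hq₀

/-- the number of the `i`-element subsets containing two given elements -/
lemma T2V_count (B : Finset ℤ) (i : ℕ) (hi : 2 ≤ i) {a a' : ℤ} (haa : a ≠ a') :
    (((Finset.powersetCard i B).filter (fun C => a ∈ C ∧ a' ∈ C)).card : ℝ) ≤ (B.card : ℝ) ^ (i - 2) := by
  have h1 : ((Finset.powersetCard i B).filter (fun C => a ∈ C ∧ a' ∈ C)).card ≤ (Finset.powersetCard (i - 2) B).card := by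
    refine Finset.card_le_card_of_injOn (fun C => (C.erase a).erase a') ?_ ?_
    · intro C hC
      rw [Finset.mem_coe, Finset.mem_filter, Finset.mem_powersetCard] at hC
      obtain ⟨⟨h1, h2⟩, h3, h4⟩ := hC
      rw [Finset.mem_coe, Finset.mem_powersetCard]
      refine ⟨(Finset.erase_subset _ _).trans ((Finset.erase_subset _ _).trans h1), ?_⟩
      rw [Finset.card_erase_of_mem (Finset.mem_erase.2 ⟨haa.symm, h4⟩), Finset.card_erase_of_mem h3, h2]
      omega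
    · intro C hC C' hC' hCC
      rw [Finset.mem_coe, Finset.mem_filter] at hC hC'
      have e1 : insert a (insert a' ((C.erase a).erase a')) = C := by
        rw [Finset.insert_erase (Finset.mem_erase.2 ⟨haa.symm, hC.2.2⟩), Finset.insert_erase hC.2.1]
      have e2 : insert a (insert a' ((C'.erase a).erase a')) = C' := by
        rw [Finset.insert_erase (Finset.mem_erase.2 ⟨haa.symm, hC'.2.2⟩), Finset.insert_erase hC'.2.1]
      have hCC' : (C.erase a).erase a' = (C'.erase a).erase a' := hCC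
      rw [← e1, ← e2, hCC']
  have h2 := T2S_card_le (le_refl B) (i - 2)
  have h3 : (((Finset.powersetCard i B).filter (fun C => a ∈ C ∧ a' ∈ C)).card : ℝ) ≤
      ((Finset.powersetCard (i - 2) B).card : ℝ) := by exact_mod_cast h1
  exact h3.trans h2

/-- the condition on the differences implies `Reg` -/
theorem T2V_pairs (j : ℕ) (M : ℝ) (B : Finset ℤ)
    (h : ∑ q ∈ B.offDiag, rho (q.1 - q.2) ^ (j ^ 2 * 2 ^ j) ≤ M * (B.card : ℝ) ^ 2) : Reg j (max 1 M) B := by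
  intro i hij
  have hb0 : (0 : ℝ) ≤ (B.card : ℝ) := Nat.cast_nonneg _
  rcases Nat.lt_or_ge i 2 with hi | hi
  · have h1 : ∀ C ∈ Finset.powersetCard i B, Gs j 1 C = 1 := by
      intro C hC
      have hc := (Finset.mem_powersetCard.1 hC).2
      have hO : C.offDiag = ∅ := by
        rw [← Finset.card_eq_zero, Finset.offDiag_card, hc]
        have : i = 0 ∨ i = 1 := by omega
        rcases this with rfl | rfl <;> rfl
      unfold Gs
      rw [hO, Finset.prod_empty]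
    rw [Finset.sum_congr rfl h1, Finset.sum_const, nsmul_eq_mul, mul_one]
    refine (T2S_card_le (le_refl B) i).trans ?_
    have h2 : (1 : ℝ) ≤ max 1 M := le_max_left _ _
    have h3 : (0 : ℝ) ≤ (B.card : ℝ) ^ i := by positivity
    nlinarith
  · have hpt : ∀ C ∈ Finset.powersetCard i B, Gs j 1 C ≤ ∑ q ∈ C.offDiag, rho (q.1 - q.2) ^ (j ^ 2 * 2 ^ j) := by
      intro C hC
      have hc := (Finset.mem_powersetCard.1 hC).2
      have hne : ∀ q ∈ C.offDiag, q.1 - q.2 ≠ 0 := fun q hq => sub_ne_zero.2 (Finset.mem_offDiag.1 hq).2.2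
      have h1 : Gs j 1 C ≤ ∏ q ∈ C.offDiag, rho (q.1 - q.2) ^ (2 ^ j) := by
        unfold Gs
        exact Finset.prod_le_prod (fun q _ => zero_le_one.trans (one_le_gfm _ _ _))
          fun q hq => gfm_le_rho j (hne q hq)
      have hO : C.offDiag.Nonempty := by
        rw [← Finset.card_pos, Finset.offDiag_card, hc]
        have : i < i * i := by nlinarith
        omega
      have hcard : C.offDiag.card ≤ j ^ 2 := by
        rw [Finset.offDiag_card, hc]
        calc i * i - i ≤ i * i := Nat.sub_le _ _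
          _ ≤ j * j := Nat.mul_le_mul hij hij
          _ = j ^ 2 := by ring
      refine h1.trans ((T2V_prod C.offDiag (fun q => rho (q.1 - q.2) ^ (2 ^ j))
        (fun q hq => one_le_pow₀ (one_le_rho (hne q hq))) hO hcard).trans (le_of_eq ?_))
      refine Finset.sum_congr rfl fun q _ => ?_
      rw [← pow_mul, mul_comm (2 ^ j)]
    refine (Finset.sum_le_sum hpt).trans ?_
    have hswap : ∑ C ∈ Finset.powersetCard i B, ∑ q ∈ C.offDiag, rho (q.1 - q.2) ^ (j ^ 2 * 2 ^ j) =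
        ∑ q ∈ B.offDiag, (((Finset.powersetCard i B).filter (fun C => q.1 ∈ C ∧ q.2 ∈ C)).card : ℝ) *
          rho (q.1 - q.2) ^ (j ^ 2 * 2 ^ j) := by
      have h1 : ∀ C ∈ Finset.powersetCard i B, ∑ q ∈ C.offDiag, rho (q.1 - q.2) ^ (j ^ 2 * 2 ^ j) =
          ∑ q ∈ B.offDiag, if q.1 ∈ C ∧ q.2 ∈ C then rho (q.1 - q.2) ^ (j ^ 2 * 2 ^ j) else 0 := by
        intro C hC
        have hCB := (Finset.mem_powersetCard.1 hC).1
        rw [← Finset.sum_filter]
        refine Finset.sum_congr ?_ fun _ _ => rfl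
        ext q
        rw [Finset.mem_filter, Finset.mem_offDiag, Finset.mem_offDiag]
        constructor
        · rintro ⟨h1, h2, h3⟩
          exact ⟨⟨hCB h1, hCB h2, h3⟩, h1, h2⟩
        · rintro ⟨⟨-, -, h3⟩, h1, h2⟩
          exact ⟨h1, h2, h3⟩
      rw [Finset.sum_congr rfl h1, Finset.sum_comm]
      refine Finset.sum_congr rfl fun q _ => ?_
      rw [← Finset.sum_filter, Finset.sum_const, nsmul_eq_mul]
    rw [hswap]
    have h2 : ∀ q ∈ B.offDiag, (((Finset.powersetCard i B).filter (fun C => q.1 ∈ C ∧ q.2 ∈ C)).card : ℝ) *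
          rho (q.1 - q.2) ^ (j ^ 2 * 2 ^ j) ≤ (B.card : ℝ) ^ (i - 2) * rho (q.1 - q.2) ^ (j ^ 2 * 2 ^ j) := by
      intro q hq
      have hq3 := (Finset.mem_offDiag.1 hq).2.2
      exact mul_le_mul_of_nonneg_right (T2V_count B i hi hq3)
        (pow_nonneg (zero_le_one.trans (one_le_rho (sub_ne_zero.2 hq3))) _)
    refine (Finset.sum_le_sum h2).trans ?_
    rw [← Finset.mul_sum]
    calc (B.card : ℝ) ^ (i - 2) * ∑ q ∈ B.offDiag, rho (q.1 - q.2) ^ (j ^ 2 * 2 ^ j)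
        ≤ (B.card : ℝ) ^ (i - 2) * (M * (B.card : ℝ) ^ 2) := mul_le_mul_of_nonneg_left h (by positivity)
      _ = M * ((B.card : ℝ) ^ (i - 2) * (B.card : ℝ) ^ 2) := by ring
      _ = M * (B.card : ℝ) ^ i := by
          rw [← pow_add, Nat.sub_add_cancel hi]
      _ ≤ max 1 M * (B.card : ℝ) ^ i := mul_le_mul_of_nonneg_right (le_max_right _ _) (by positivity)

/-- dense sets are regular -/
theorem T2V_dense (j : ℕ) (M : ℝ) (hM : 0 < M) : ∃ M' X : ℝ, 0 < M' ∧ ∀ x : ℝ, X ≤ x → ∀ B : Finset ℤ, ∀ (u : ℤ) (h : ℕ),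
    B ⊆ Finset.Icc (u + 1) (u + h) → (h : ℝ) ≤ M * (B.card : ℝ) → Real.log x ≤ (B.card : ℝ) →
    (h : ℝ) ≤ 4 * (Real.log x) ^ 2 → Reg j M' B := by
  choose G hG hGs using fun i : ℕ => Gam_sum j i 1
  choose X hX using fun i : ℕ => hGs i 1 le_rfl
  refine ⟨∑ i ∈ Finset.range (j + 1), G i * M ^ i, ∑ i ∈ Finset.range (j + 1), |X i|,
    Finset.sum_pos (fun i _ => mul_pos (hG i) (pow_pos hM i)) ⟨0, by simp⟩, fun x hx B u h hB hh hL hh4 i hij => ?_⟩
  have hxi : X i ≤ x := by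
    refine le_trans ?_ hx
    exact (le_abs_self _).trans (Finset.single_le_sum (f := fun i => |X i|) (fun i _ => abs_nonneg _)
      (Finset.mem_range.2 (by omega)))
  have hBh : (B.card : ℝ) ≤ (h : ℝ) := by
    have h1 := Finset.card_le_card hB
    rw [Int.card_Icc] at h1
    have h2 : B.card ≤ h := by omega
    exact_mod_cast h2
  have h1 := hX i x hxi h (hL.trans hBh) hh4
  simp only [pow_one] at h1
  have hb0 : (0 : ℝ) ≤ (B.card : ℝ) := Nat.cast_nonneg _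
  have h2 : ∑ C ∈ Finset.powersetCard i B, Gs j 1 C ≤ ∑ C ∈ Finset.powersetCard i (Finset.Icc 1 (h : ℤ)), Gs j 1 C := by
    have hinj : Function.Injective (fun a : ℤ => a + (-u)) := add_left_injective (-u)
    have e1 : ∀ C ∈ Finset.powersetCard i B, Gs j 1 C = Gs j 1 (C.image (fun a => a + (-u))) := by
      intro C _
      rw [OB_shift]
    rw [Finset.sum_congr rfl e1]
    have e2 : ∑ C ∈ Finset.powersetCard i B, Gs j 1 (C.image (fun a => a + (-u))) =
        ∑ C ∈ (Finset.powersetCard i B).image (fun C => C.image (fun a => a + (-u))), Gs j 1 C := by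
      rw [Finset.sum_image]
      intro C _ C' _ hCC
      exact Finset.image_injective hinj hCC
    rw [e2]
    refine Finset.sum_le_sum_of_subset_of_nonneg ?_ fun C _ _ => zero_le_one.trans (one_le_Gs _ _ _)
    intro C hC
    rw [Finset.mem_image] at hC
    obtain ⟨C', hC', rfl⟩ := hC
    rw [Finset.mem_powersetCard] at hC' ⊢
    refine ⟨?_, by rw [Finset.card_image_of_injective _ hinj, hC'.2]⟩
    intro a ha
    rw [Finset.mem_image] at ha
    obtain ⟨b, hb, rfl⟩ := ha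
    have := Finset.mem_Icc.1 (hB (hC'.1 hb))
    rw [Finset.mem_Icc]
    constructor <;> omega
  refine h2.trans (h1.trans ?_)
  calc G i * (h : ℝ) ^ i ≤ G i * (M * (B.card : ℝ)) ^ i :=
        mul_le_mul_of_nonneg_left (pow_le_pow_left₀ (Nat.cast_nonneg _) hh i) (hG i).le
    _ = (G i * M ^ i) * (B.card : ℝ) ^ i := by rw [mul_pow]; ring
    _ ≤ (∑ i ∈ Finset.range (j + 1), G i * M ^ i) * (B.card : ℝ) ^ i := by
        refine mul_le_mul_of_nonneg_right ?_ (by positivity)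
        exact Finset.single_le_sum (f := fun i => G i * M ^ i) (fun i _ => (mul_pos (hG i) (pow_pos hM i)).le)
          (Finset.mem_range.2 (by omega))

/-- final form -/
theorem T2V (j k : ℕ) (hj : 2 ≤ j) (hk : 2 ≤ k) (ε M : ℝ) (hε : 0 < ε) (hM : 0 < M) :
    ∃ δ K X : ℝ, 0 < δ ∧ ∀ x : ℝ, X ≤ x → ∀ H : ℕ, (H : ℝ) ≤ (Real.log x) ^ 2 →
    ((∃ B : Finset ℤ, B ⊆ Finset.Icc 1 (H : ℤ) ∧ K * Real.log x ≤ (B.card : ℝ) ∧
        (Regular j M B ∧ UB j x B.card B δ ∨ EB x B.card B δ)) ∨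
      (∃ H₁ : ℕ, K * Real.log x ≤ (H₁ : ℝ) ∧ H₁ ≤ H ∧ (LocFour x H₁ δ ∨ MeanTriples x H₁ δ))) →
    AAk k x H ε ∧ EB x H (Finset.Icc 1 (H : ℤ)) ε ∧ LocFour x H ε := by
  obtain ⟨M₁, X₁, hM₁, h₁⟩ := T2V_dense j M hM
  obtain ⟨δa, Ka, Xa, hδa, hKa, ha⟩ := T2S j k hj hk ε (max 1 M) hε (lt_max_of_lt_left one_pos)
  obtain ⟨δb, Kb, Xb, hδb, hKb, hb⟩ := T2S j k hj hk ε M₁ hε hM₁
  obtain ⟨δc, Kc, Xc, hδc, hKc, hc⟩ := T2B j k hj hk ε 1 hε one_pos
  refine ⟨min δa (min δb δc), max Ka (max Kb Kc), max (Real.exp 1) (max (max Xa Xb) (max Xc X₁)),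
    lt_min hδa (lt_min hδb hδc), ?_⟩
  intro x hx H hH2 hA
  simp only [max_le_iff] at hx
  obtain ⟨hxe, ⟨hxa, hxb⟩, hxc, hx1'⟩ := hx
  have hx1 : 1 ≤ x := by
    have h1 := Real.add_one_le_exp (1 : ℝ)
    linarith
  have hL1 : 1 ≤ Real.log x := by
    have h1 := Real.log_le_log (Real.exp_pos 1) hxe
    rwa [Real.log_exp] at h1
  have hL0 : 0 < Real.log x := by linarith
  have hx0 : 0 ≤ x := by linarith
  have hUBmono : ∀ (B : Finset ℤ) (δ δ' : ℝ), δ ≤ δ' → UB j x B.card B δ → UB j x B.card B δ' := by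
    intro B δ δ' h hU
    unfold UB at hU ⊢
    exact hU.trans (mul_le_mul_of_nonneg_right h (by positivity))
  have hEBmono : ∀ (B : Finset ℤ) (δ δ' : ℝ), δ ≤ δ' → EB x B.card B δ → EB x B.card B δ' := by
    intro B δ δ' h hU D hD
    exact (hU D hD).trans (mul_le_mul_of_nonneg_right h (by positivity))
  have hfin : (AAk k x H ε ∧ Equi x H ε ∧ LocFour x H ε) →
      AAk k x H ε ∧ EB x H (Finset.Icc 1 (H : ℤ)) ε ∧ LocFour x H ε :=
    fun ⟨e1, e2, e3⟩ => ⟨e1, EB_of_Equi e2, e3⟩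
  apply hfin
  rcases hA with ⟨B, hB, hKB, hA⟩ | ⟨H₁, hKH, hHH, hA⟩
  · have hKaB : Ka * Real.log x ≤ (B.card : ℝ) := Bk_log hx1 (le_max_left _ _) hKB
    have hKbc : max Kb Kc * Real.log x ≤ (B.card : ℝ) := Bk_log hx1 (le_max_right _ _) hKB
    have hKbB : Kb * Real.log x ≤ (B.card : ℝ) := Bk_log hx1 (le_max_left _ _) hKbc
    have hLB : Real.log x ≤ (B.card : ℝ) := by nlinarith
    rcases hA with ⟨hR | hR, hU⟩ | hE
    · obtain ⟨u, h, hBu, hh⟩ := hR
      -- we may take the interval inside `[1,H]`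
      obtain ⟨u', h', hBu', hh', hh4⟩ : ∃ (u' : ℤ) (h' : ℕ), B ⊆ Finset.Icc (u' + 1) (u' + h') ∧
          (h' : ℝ) ≤ M * (B.card : ℝ) ∧ (h' : ℝ) ≤ 4 * (Real.log x) ^ 2 := by
        rcases le_total h H with hle | hle
        · refine ⟨u, h, hBu, hh, ?_⟩
          have : (h : ℝ) ≤ (H : ℝ) := by exact_mod_cast hle
          nlinarith [sq_nonneg (Real.log x)]
        · refine ⟨0, H, by simpa using hB, ?_, by nlinarith [sq_nonneg (Real.log x)]⟩
          have : (H : ℝ) ≤ (h : ℝ) := by exact_mod_cast hle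
          linarith
      exact hb x hxb H hH2 B hB hKbB (Or.inl ⟨h₁ x hx1' B u' h' hBu' hh' hLB hh4,
        hUBmono B _ _ ((min_le_right _ _).trans (min_le_left _ _)) hU⟩)
    · exact ha x hxa H hH2 B hB hKaB (Or.inl ⟨T2V_pairs j M B hR, hUBmono B _ _ (min_le_left _ _) hU⟩)
    · exact ha x hxa H hH2 B hB hKaB (Or.inr (hEBmono B _ _ (min_le_left _ _) hE))
  · have hKc' : Kc * Real.log x ≤ (H₁ : ℝ) :=
      Bk_log hx1 (le_max_right _ _) (Bk_log hx1 (le_max_right _ _) hKH)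
    have hmin : min δa (min δb δc) ≤ δc := (min_le_right _ _).trans (min_le_right _ _)
    refine hc x hxc H₁ H hKc' hHH hH2 (Finset.Icc 1 (H₁ : ℤ)) (le_refl _) (by simp) ?_
    rcases hA with hA | hA
    · exact Or.inr (Or.inr (Or.inl (Bm_mono_LF x hx1 H₁ _ _ hmin hA)))
    · exact Or.inr (Or.inr (Or.inr (Bk_mono_MT x hx1 H₁ _ _ hmin hA)))

end Pool.Agent.H12.AE
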