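import Pool.Agent.H12.DM.Bo
import Pool.Agent.H96.AE.Df

/-!
# W2: any of the four mean statements at one scale gives small windows of `La - Mi` at every larger scale (`MP_1039f5_AE`)
-/

set_option autoImplicit false

namespace Pool.Agent.H12.AE

open Finset Pool.Agent.H17 Pool.Agent.H6.MF Pool.Agent.H6.MB Pool.Agent.H12.DM Pool.Agent.H96.AE

theorem W2_all (ε : ℝ) (hε : 0 < ε) : ∃ δ K X : ℝ, 0 < δ ∧ 1 ≤ K ∧ ∀ x : ℝ, X ≤ x → ∀ H₁ H₂ : ℕ,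
    K * Real.log x ≤ (H₁ : ℝ) → H₁ ≤ H₂ → (H₂ : ℝ) ≤ (Real.log x) ^ 2 →
    (MeanPairs x H₁ δ ∨ MeanTriples x H₁ δ ∨ Equi x H₁ δ ∨ LocFour x H₁ δ) →
    Win x H₂ ε (La x) (Mi x) := by
  obtain ⟨δb, Kb, Xb, hδb, hb⟩ := Bk_FL_SW ε hε
  obtain ⟨δc, Kc, Xc, hδc, hc⟩ := Bk_trans Bm_any_SW Bk_SW_FL (δb / 2) (by positivity)
  refine ⟨δc, max 1 (max Kb Kc), max (Real.exp 1) (max Xb Xc), hδc, le_max_left _ _, ?_⟩
  intro x hx H₁ H₂ hH1 h12 hH2 hA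
  simp only [max_le_iff] at hx
  have hx1 : 1 ≤ x := by
    have h1 := Real.add_one_le_exp (1 : ℝ)
    linarith [hx.1]
  have hL1 : 1 ≤ Real.log x := by
    have h1 := Real.log_le_log (Real.exp_pos 1) hx.1
    rwa [Real.log_exp] at h1
  have h12' : (H₁ : ℝ) ≤ (H₂ : ℝ) := by exact_mod_cast h12
  have hK1 : 1 * Real.log x ≤ (H₁ : ℝ) := Bk_log hx1 (le_max_left _ _) hH1
  have hKb : Kb * Real.log x ≤ (H₁ : ℝ) :=
    Bk_log hx1 ((le_max_left _ _).trans (le_max_right _ _)) hH1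
  have hKc : Kc * Real.log x ≤ (H₁ : ℝ) :=
    Bk_log hx1 ((le_max_right _ _).trans (le_max_right _ _)) hH1
  have hH11 : 1 ≤ H₁ := by
    have h1 : (1 : ℝ) ≤ (H₁ : ℝ) := by linarith
    exact_mod_cast h1
  have e1 := hc x hx.2.2 H₁ hKc (h12'.trans hH2) hA
  have e2 := Bn x hx1 H₁ H₂ hH11 h12 (δb / 2) e1
  have e3 : Bk_FL x H₂ δb := by
    intro D hD
    have h1 := e2 D hD
    rwa [mul_div_cancel₀ δb (two_ne_zero)] at h1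
  intro D hD
  exact hb x hx.2.1 H₂ (hKb.trans h12') hH2 e3 D hD

/-- row W2 -/
theorem W2 (ε : ℝ) (hε : 0 < ε) : ∃ δ K X : ℝ, 0 < δ ∧ 1 ≤ K ∧ ∀ x : ℝ, X ≤ x → ∀ H₁ H₂ : ℕ,
    K * Real.log x ≤ (H₁ : ℝ) → H₁ ≤ H₂ → (H₂ : ℝ) ≤ (Real.log x) ^ 2 →
    (MeanPairs x H₁ δ ∨ MeanTriples x H₁ δ) → Win x H₂ ε (La x) (Mi x) := by
  obtain ⟨δ, K, X, hδ, hK, h⟩ := W2_all ε hε
  refine ⟨δ, K, X, hδ, hK, fun x hx H₁ H₂ h1 h2 h3 hA => h x hx H₁ H₂ h1 h2 h3 ?_⟩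
  rcases hA with hA | hA
  · exact Or.inl hA
  · exact Or.inr (Or.inl hA)

end Pool.Agent.H12.AE
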